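import Mathlib

/-!
The valuation criterion: points `(x i, T ^ v i)`, row weights `lam t`.
-/

set_option autoImplicit false

namespace Pool.Agent.Lib.MP_6e81d8_ag.H16

open Polynomial Finset

/-- Columns: monomials `x ^ s * y ^ t` with `t < D` and `s < a t`. -/
abbrev Col (D : ℕ) (a : ℕ → ℕ) := Σ t : Fin D, Fin (a t)

/-- Conditions at the point `i`: pairs `(k, j)` with `k < m i`, `j < m i - k`. -/
abbrev Cond {ι : Type} (m : ι → ℕ) := Σ i : ι, Σ k : Fin (m i), Fin (m i - k)

/-- The interpolation matrix: the functional `∂x ^ j (y ∂y) ^ k` at the point `p i`. -/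
def Mat {ι : Type} {R : Type} [CommRing R] (D : ℕ) (a : ℕ → ℕ) (m : ι → ℕ) (p : ι → Fin 2 → R) :
    Matrix (Cond m) (Col D a) R :=
  fun c s => ((s.2.val.descFactorial c.2.2.val : ℕ) : R) * ((s.1.val : ℕ) : R) ^ c.2.1.val *
    p c.1 0 ^ (s.2.val - c.2.2.val) * p c.1 1 ^ s.1.val

lemma Mat_map {ι : Type} {R S : Type} [CommRing R] [CommRing S] (φ : R →+* S) (D : ℕ) (a : ℕ → ℕ)
    (m : ι → ℕ) (p : ι → Fin 2 → R) :
    (Mat D a m p).map φ = Mat D a m (fun i e => φ (p i e)) := by
  ext c s
  simp [Mat]

/-- The number of rows `t' ≠ t` that the point with speed `v` ranks at least as high as `t`. -/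
def above (D : ℕ) (lam : ℕ → ℤ) (v : ℤ) (t : ℕ) : ℕ :=
  (((range D).erase t).filter (fun t' => v * t - lam t ≤ v * t' - lam t')).card

/-- A certificate: every row is loaded at least up to its length. -/
def Cert {ι : Type} [Fintype ι] (D : ℕ) (a : ℕ → ℕ) (m : ι → ℕ) (lam : ℕ → ℤ) (v : ι → ℤ) : Prop :=
  ∀ t < D, a t ≤ ∑ i, (m i - above D lam (v i) t)

theorem valuation_injective {ι : Type} [Fintype ι] {K : Type} [Field K] [CharZero K]
    (D : ℕ) (a : ℕ → ℕ) (m : ι → ℕ) (lam : ℕ → ℤ) (v : ι → ℕ)
    (hc : Cert D a m lam (fun i => (v i : ℤ))) (x : ι → K) (hx : Function.Injective x)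
    (c : Col D a → K[X])
    (h : (Mat D a m (fun i => ![C (x i), X ^ v i])).mulVec c = 0) : c = 0 := by
  classical
  by_contra hne
  have hS : (univ.filter (fun s : Col D a => c s ≠ 0)).Nonempty := by
    by_contra hh
    apply hne
    funext s
    by_contra hs
    exact hh ⟨s, by simpa using hs⟩
  obtain ⟨s₀, hs₀, hmax⟩ := exists_max_image _
    (fun s : Col D a => ((c s).natDegree : ℤ) + lam s.1.val) hS
  have hs₀' : c s₀ ≠ 0 := by simpa using hs₀
  set t₀ : Fin D := s₀.1 with ht₀
  set δ : ℕ := (c s₀).natDegree with hδ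
  let g : K[X] := ∑ s : Fin (a t₀), monomial s.val ((c ⟨t₀, s⟩).coeff δ)
  have hgcoeff : ∀ s : Fin (a t₀), g.coeff s.val = (c ⟨t₀, s⟩).coeff δ := by
    intro s
    simp only [g, finsetSum_coeff, coeff_monomial]
    rw [Finset.sum_eq_single s]
    · simp
    · intro b _ hb
      rw [if_neg]
      exact fun hh => hb (Fin.ext hh)
    · simp
  have hg0 : g ≠ 0 := by
    intro hg
    have := hgcoeff s₀.2
    rw [hg] at this
    simp only [coeff_zero] at this
    exact hs₀' (leadingCoeff_eq_zero.mp this.symm)
  have hgdeg : g.natDegree < a t₀ := by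
    have hpos : 0 < a t₀ := lt_of_le_of_lt (Nat.zero_le _) s₀.2.isLt
    have : g.natDegree ≤ a t₀ - 1 := by
      apply natDegree_sum_le_of_forall_le
      intro s _
      exact (natDegree_monomial_le _).trans (by have := s.isLt; omega)
    omega
  have hroot : ∀ i, ∀ j < m i - above D lam (v i) t₀,
      (derivative^[j] g).eval (x i) = 0 := by
    intro i j hj
    set U := ((range D).erase t₀.val).filter
      (fun t' : ℕ => (v i : ℤ) * (t₀.val : ℕ) - lam t₀.val ≤ (v i : ℤ) * t' - lam t') with hU
    have hUc : U.card = above D lam (v i) t₀ := rfl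
    let q : K[X] := ∏ u ∈ U, (X - C (u : K))
    have hqdeg : q.natDegree = U.card := by
      simp only [q]
      rw [natDegree_prod_of_monic _ _ (fun u _ => monic_X_sub_C _)]
      simp only [natDegree_X_sub_C, sum_const, smul_eq_mul, mul_one]
    have heq : ∀ k < U.card + 1, ∑ s : Col D a,
        ((s.2.val.descFactorial j : ℕ) : K[X]) * ((s.1.val : ℕ) : K[X]) ^ k *
          C (x i) ^ (s.2.val - j) * (X ^ v i) ^ s.1.val * c s = 0 := by
      intro k hk
      have h1 : k < m i := by omega
      have h2 : j < m i - k := by omega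
      have := congrFun h ⟨i, ⟨k, h1⟩, ⟨j, h2⟩⟩
      simpa [Matrix.mulVec, dotProduct, Mat] using this
    have hq : ∑ s : Col D a,
        C (((s.2.val.descFactorial j : ℕ) : K) * q.eval ((s.1.val : ℕ) : K) *
          (x i) ^ (s.2.val - j)) * (c s * X ^ (v i * s.1.val)) = 0 := by
      have : ∑ k ∈ range (U.card + 1), C (q.coeff k) * ∑ s : Col D a,
        ((s.2.val.descFactorial j : ℕ) : K[X]) * ((s.1.val : ℕ) : K[X]) ^ k *
          C (x i) ^ (s.2.val - j) * (X ^ v i) ^ s.1.val * c s = 0 := by
        apply Finset.sum_eq_zero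
        intro k hk
        rw [heq k (mem_range.mp hk), mul_zero]
      rw [← this]
      simp_rw [Finset.mul_sum]
      rw [Finset.sum_comm]
      apply Finset.sum_congr rfl
      intro s _
      rw [eval_eq_sum_range, hqdeg]
      simp only [Finset.mul_sum, Finset.sum_mul, map_sum]
      apply Finset.sum_congr rfl
      intro k _
      simp only [map_mul, map_pow, map_natCast, ← pow_mul]
      ring
    have hcoef := congrArg (fun P : K[X] => P.coeff (δ + v i * t₀.val)) hq
    simp only [finsetSum_coeff, coeff_C_mul, coeff_zero] at hcoef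
    rw [Fintype.sum_sigma, Finset.sum_eq_single t₀] at hcoef
    · have hq0 : q.eval ((t₀.val : ℕ) : K) ≠ 0 := by
        simp only [q, eval_prod, eval_sub, eval_X, eval_C]
        rw [Finset.prod_ne_zero_iff]
        intro u hu
        have hu' : u ≠ t₀.val := by
          have := (mem_filter.mp hu).1
          exact (mem_erase.mp this).1
        intro hh
        exact hu' (Nat.cast_injective (R := K) (sub_eq_zero.mp hh)).symm
      have : q.eval ((t₀.val : ℕ) : K) * (derivative^[j] g).eval (x i) = 0 := by
        rw [← hcoef]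
        simp only [g, iterate_derivative_sum, eval_finsetSum, Finset.mul_sum]
        apply Finset.sum_congr rfl
        intro s _
        rw [coeff_mul_X_pow, ← C_mul_X_pow_eq_monomial, iterate_derivative_C_mul,
          iterate_derivative_X_pow_eq_natCast_mul]
        simp
        ring
      exact (mul_eq_zero.mp this).resolve_left hq0
    · intro t _ ht
      apply Finset.sum_eq_zero
      intro s _
      by_cases htU : t.val ∈ U
      · have : q.eval ((t.val : ℕ) : K) = 0 := by
          simp only [q, eval_prod]
          exact Finset.prod_eq_zero htU (by simp)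
        simp [this]
      · have hlt : (v i : ℤ) * t.val - lam t.val < (v i : ℤ) * (t₀.val : ℕ) - lam t₀.val := by
          by_contra hcon
          apply htU
          rw [hU, mem_filter, mem_erase, mem_range]
          exact ⟨⟨fun hh => ht (Fin.ext hh), t.isLt⟩, not_lt.mp hcon⟩
        by_cases hcs : c ⟨t, s⟩ = 0
        · simp [hcs]
        · have hm := hmax ⟨t, s⟩ (by simpa using hcs)
          simp only at hm
          have : (c ⟨t, s⟩ * X ^ (v i * t.val)).coeff (δ + v i * t₀.val) = 0 := by
            apply coeff_eq_zero_of_natDegree_lt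
            refine lt_of_le_of_lt natDegree_mul_le ?_
            rw [natDegree_X_pow]
            zify
            linarith
          rw [this, mul_zero]
    · simp
  have hdvd : ∏ i, (X - C (x i)) ^ (m i - above D lam (v i) t₀) ∣ g := by
    apply Finset.prod_dvd_of_coprime
    · intro i _ j _ hij
      exact IsCoprime.pow (pairwise_coprime_X_sub_C hx hij)
    · intro i _
      rcases Nat.eq_zero_or_pos (m i - above D lam (v i) t₀) with h0 | hpos
      · simp [h0]
      · rw [← le_rootMultiplicity_iff hg0]
        have := lt_rootMultiplicity_of_isRoot_iterate_derivative (n := m i - above D lam (v i) t₀ - 1)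
          hg0 (fun k hk => hroot i k (by omega))
        omega
  have hle := natDegree_le_of_dvd hdvd hg0
  rw [natDegree_prod_of_monic _ _ (fun i _ => (monic_X_sub_C _).pow _)] at hle
  simp only [natDegree_pow, natDegree_X_sub_C, mul_one] at hle
  have := hc t₀.val t₀.isLt
  beta_reduce at this
  omega

end Pool.Agent.Lib.MP_6e81d8_ag.H16
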