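import Mathlib
import Pool.Agent.Lib.MP_6e81d8_ag.H16.Valuation

/-!
From a certificate to the dimension of the linear system at general points.
-/

set_option autoImplicit false

namespace Pool.Agent.Lib.MP_6e81d8_ag.H16

open Finset

lemma above_shift (D : ℕ) (lam : ℕ → ℤ) (v C : ℤ) (t : ℕ) :
    above D (fun s => lam s + C * s) (v + C) t = above D lam v t := by
  unfold above
  congr 1
  apply Finset.filter_congr
  intro s _
  constructor <;> intro h <;> linarith

lemma gram_det_ne_zero {ρ κ : Type} [Fintype ρ] [Fintype κ] [DecidableEq κ]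
    (M : Matrix ρ κ (Polynomial ℝ)) (h : ∀ c, M.mulVec c = 0 → c = 0) :
    (M.transpose * M).det ≠ 0 := by
  intro hdet
  obtain ⟨c, hc0, hc⟩ := Matrix.exists_mulVec_eq_zero_iff.mpr hdet
  apply hc0
  apply h
  have h1 : dotProduct (M.mulVec c) (M.mulVec c) = 0 := by
    have : dotProduct c ((M.transpose * M).mulVec c) = 0 := by rw [hc]; simp
    rw [← Matrix.mulVec_mulVec, Matrix.dotProduct_mulVec, Matrix.vecMul_transpose] at this
    exact this
  funext k
  apply Polynomial.funext
  intro τ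
  have h2 := congrArg (Polynomial.eval τ) h1
  simp only [dotProduct, Polynomial.eval_finsetSum, Polynomial.eval_mul, Polynomial.eval_zero] at h2
  have h3 := (Finset.sum_eq_zero_iff_of_nonneg (fun k _ => mul_self_nonneg _)).mp h2 k (mem_univ k)
  simpa using h3

/-- Under a certificate, the interpolation matrix is injective at general points. -/
theorem generic_injective {r : ℕ} (D : ℕ) (a : ℕ → ℕ) (m : Fin r → ℕ) (lam : ℕ → ℤ)
    (v : Fin r → ℤ) (hc : Cert D a m lam v) :
    ∃ F : MvPolynomial (Fin r × Fin 2) ℂ, F ≠ 0 ∧ ∀ p : Fin r → Fin 2 → ℂ,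
      MvPolynomial.eval (fun ij : Fin r × Fin 2 => p ij.1 ij.2) F ≠ 0 →
      ∀ c : Col D a → ℂ, (Mat D a m p).mulVec c = 0 → c = 0 := by
  classical
  set B : ℤ := ∑ i, |v i| with hB
  have hvB : ∀ i, 0 ≤ v i + B := by
    intro i
    have : |v i| ≤ B := Finset.single_le_sum (f := fun i => |v i|) (fun i _ => abs_nonneg _)
      (mem_univ i)
    have := neg_abs_le (v i)
    linarith
  let w : Fin r → ℕ := fun i => (v i + B).toNat
  have hw : ∀ i, (w i : ℤ) = v i + B := fun i => Int.toNat_of_nonneg (hvB i)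
  have hc' : Cert D a m (fun s => lam s + B * s) (fun i => (w i : ℤ)) := by
    intro t ht
    have := hc t ht
    simp only [hw, above_shift]
    exact this
  let x : Fin r → ℝ := fun i => (i.val : ℝ)
  have hx : Function.Injective x := by
    intro i j hij
    exact Fin.ext (Nat.cast_injective (R := ℝ) hij)
  have hinj := valuation_injective D a m _ w hc' x hx
  have hdet := gram_det_ne_zero _ hinj
  let G : Matrix (Cond m) (Col D a) (MvPolynomial (Fin r × Fin 2) ℂ) :=
    Mat D a m (fun i e => MvPolynomial.X (i, e))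
  refine ⟨(G.transpose * G).det, ?_, ?_⟩
  · intro h0
    let P : Fin r → Fin 2 → Polynomial ℝ :=
      fun i => ![Polynomial.C (x i), Polynomial.X ^ w i]
    let ι : Polynomial ℝ →+* Polynomial ℂ := Polynomial.mapRingHom Complex.ofRealHom
    let ψ : MvPolynomial (Fin r × Fin 2) ℂ →+* Polynomial ℂ :=
      MvPolynomial.eval₂Hom Polynomial.C (fun ij => ι (P ij.1 ij.2))
    have h1 : ψ (G.transpose * G).det = ι ((Mat D a m P).transpose * Mat D a m P).det := by
      rw [RingHom.map_det, RingHom.map_det]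
      congr 1
      simp only [RingHom.mapMatrix_apply, Matrix.map_mul, Matrix.transpose_map, G, Mat_map]
      simp [ψ]
    rw [h0, map_zero] at h1
    have hι : Function.Injective ι := Polynomial.map_injective _ Complex.ofReal_injective
    exact hdet (hι (by rw [← h1, map_zero]))
  · intro p hp c hcv
    have h1 : MvPolynomial.eval (fun ij : Fin r × Fin 2 => p ij.1 ij.2) (G.transpose * G).det
        = ((Mat D a m p).transpose * Mat D a m p).det := by
      rw [RingHom.map_det]
      congr 1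
      simp only [RingHom.mapMatrix_apply, Matrix.map_mul, Matrix.transpose_map, G, Mat_map]
      simp
    rw [h1] at hp
    by_contra hne
    apply hp
    apply Matrix.exists_mulVec_eq_zero_iff.mp
    exact ⟨c, hne, by rw [← Matrix.mulVec_mulVec, hcv, Matrix.mulVec_zero]⟩

open MvPolynomial

/-- The exponent of `x ^ s * y ^ t`. -/
noncomputable def ex (s t : ℕ) : Fin 2 →₀ ℕ := Finsupp.single 0 s + Finsupp.single 1 t

@[simp] lemma ex_zero (s t : ℕ) : ex s t 0 = s := by simp [ex]
@[simp] lemma ex_one (s t : ℕ) : ex s t 1 = t := by simp [ex]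

lemma ex_self (e : Fin 2 →₀ ℕ) : ex (e 0) (e 1) = e := by
  ext i
  fin_cases i <;> simp

lemma degree_eq (e : Fin 2 →₀ ℕ) : e.degree = e 0 + e 1 := by
  rw [Finsupp.degree_eq_sum, Fin.sum_univ_two]

lemma monomial_ex (s t : ℕ) (z : ℂ) :
    (monomial (ex s t) z : MvPolynomial (Fin 2) ℂ) = C z * X 0 ^ s * X 1 ^ t := by
  rw [ex, monomial_add_single, C_mul_X_pow_eq_monomial]

/-- The polynomial with the given coefficients. -/
noncomputable def emb (D : ℕ) (a : ℕ → ℕ) : (Col D a → ℂ) →ₗ[ℂ] MvPolynomial (Fin 2) ℂ :=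
  ∑ s : Col D a, (monomial (ex s.2.val s.1.val)).comp (LinearMap.proj s)

lemma emb_apply (D : ℕ) (a : ℕ → ℕ) (c : Col D a → ℂ) :
    emb D a c = ∑ s : Col D a, monomial (ex s.2.val s.1.val) (c s) := by
  simp [emb, LinearMap.sum_apply]

lemma col_ext {D : ℕ} {a : ℕ → ℕ} {s s' : Col D a} (h : ex s.2.val s.1.val = ex s'.2.val s'.1.val) :
    s = s' := by
  have h0 := congrArg (fun e => e 0) h
  have h1 := congrArg (fun e => e 1) h
  simp only [ex_zero, ex_one] at h0 h1
  obtain ⟨t, s⟩ := s
  obtain ⟨t', s'⟩ := s'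
  have : t = t' := Fin.ext h1
  subst this
  have : s = s' := Fin.ext h0
  subst this
  rfl

lemma coeff_emb (D : ℕ) (a : ℕ → ℕ) (c : Col D a → ℂ) (s : Col D a) :
    coeff (ex s.2.val s.1.val) (emb D a c) = c s := by
  classical
  rw [emb_apply, coeff_sum, Finset.sum_eq_single s]
  · simp
  · intro b _ hb
    rw [coeff_monomial, if_neg (fun h => hb (col_ext h))]
  · simp

lemma emb_injective (D : ℕ) (a : ℕ → ℕ) : Function.Injective (emb D a) := by
  intro c c' h
  funext s
  rw [← coeff_emb D a c s, h, coeff_emb]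

lemma emb_mem (d : ℕ) (a : ℕ → ℕ) (ha : ∀ t < d + 1, a t ≤ d + 1 - t) (c : Col (d + 1) a → ℂ) :
    emb (d + 1) a c ∈ restrictTotalDegree (Fin 2) ℂ d := by
  rw [emb_apply]
  apply Submodule.sum_mem
  intro s _
  rw [mem_restrictTotalDegree]
  refine (totalDegree_monomial_le _ _).trans ?_
  have h1 := ha s.1.val s.1.isLt
  have h2 := s.2.isLt
  have : (ex s.2.val s.1.val).sum (fun _ => id) = s.2.val + s.1.val := by
    rw [Finsupp.sum_fintype _ _ (fun _ => rfl), Fin.sum_univ_two]
    simp
  omega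

lemma range_emb_full (d : ℕ) :
    LinearMap.range (emb (d + 1) (fun t => d + 1 - t)) = restrictTotalDegree (Fin 2) ℂ d := by
  apply le_antisymm
  · rintro _ ⟨c, rfl⟩
    exact emb_mem d _ (fun _ _ => le_rfl) c
  · intro f hf
    rw [mem_restrictTotalDegree] at hf
    rw [f.as_sum]
    apply Submodule.sum_mem
    intro e he
    have h1 : e 0 + e 1 ≤ d := by
      have := le_totalDegree he
      rw [Finsupp.sum_fintype _ _ (fun _ => rfl), Fin.sum_univ_two] at this
      omega
    classical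
    let s : Col (d + 1) (fun t => d + 1 - t) := ⟨⟨e 1, by omega⟩, ⟨e 0, by simp only; omega⟩⟩
    refine ⟨Pi.single s (coeff e f), ?_⟩
    rw [emb_apply, Finset.sum_eq_single s]
    · simp [s, ex_self]
    · intro b _ hb
      simp [Pi.single_eq_of_ne hb]
    · simp

lemma card_col (D : ℕ) (a : ℕ → ℕ) : Fintype.card (Col D a) = ∑ t ∈ range D, a t := by
  simp only [Fintype.card_sigma, Fintype.card_fin]
  exact Fin.sum_univ_eq_sum_range a D

lemma finrank_range_emb (D : ℕ) (a : ℕ → ℕ) :
    Module.finrank ℂ (LinearMap.range (emb D a)) = ∑ t ∈ range D, a t := by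
  rw [LinearMap.finrank_range_of_inj (emb_injective D a), Module.finrank_fintype_fun_eq_card,
    card_col]

lemma sum_tri (n : ℕ) : 2 * ∑ t ∈ range n, (n - t) = n * (n + 1) := by
  have : ∑ t ∈ range n, (n - t) = ∑ t ∈ range n, (t + 1) := by
    rw [← Finset.sum_range_reflect]
    apply Finset.sum_congr rfl
    intro t ht
    have := mem_range.mp ht
    omega
  rw [this]
  clear this
  induction n with
  | zero => simp
  | succ n ih => rw [Finset.sum_range_succ, mul_add, ih]; ring

lemma finrank_Vd (d : ℕ) :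
    2 * Module.finrank ℂ (restrictTotalDegree (Fin 2) ℂ d) = (d + 1) * (d + 2) := by
  rw [← range_emb_full, finrank_range_emb, sum_tri]

lemma pderiv_mem_pow (I : Ideal (MvPolynomial (Fin 2) ℂ)) (e : Fin 2) (n : ℕ)
    (f : MvPolynomial (Fin 2) ℂ) (hf : f ∈ I ^ (n + 1)) : pderiv e f ∈ I ^ n := by
  induction n generalizing f with
  | zero => simp
  | succ n ih =>
    rw [pow_succ] at hf
    refine Submodule.mul_induction_on hf ?_ ?_
    · intro x hx y hy
      rw [Derivation.leibniz, smul_eq_mul, smul_eq_mul]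
      apply Ideal.add_mem
      · exact Ideal.mul_mem_right _ _ hx
      · rw [pow_succ']
        exact Ideal.mul_mem_mul hy (ih x hx)
    · intro x y hx hy
      rw [map_add]
      exact Ideal.add_mem _ hx hy

/-- The operator `y ∂y`. -/
noncomputable def theta : MvPolynomial (Fin 2) ℂ →ₗ[ℂ] MvPolynomial (Fin 2) ℂ :=
  (LinearMap.mulLeft ℂ (X 1)).comp (pderiv 1 : Derivation ℂ _ _).toLinearMap

/-- The operator `∂x`. -/
noncomputable def dx : MvPolynomial (Fin 2) ℂ →ₗ[ℂ] MvPolynomial (Fin 2) ℂ :=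
  (pderiv 0 : Derivation ℂ _ _).toLinearMap

lemma theta_apply (f : MvPolynomial (Fin 2) ℂ) : theta f = X 1 * pderiv 1 f := rfl
lemma dx_apply (f : MvPolynomial (Fin 2) ℂ) : dx f = pderiv 0 f := rfl

lemma theta_pow_mem (I : Ideal (MvPolynomial (Fin 2) ℂ)) (k n : ℕ)
    (f : MvPolynomial (Fin 2) ℂ) (hf : f ∈ I ^ (n + k)) : (theta ^ k) f ∈ I ^ n := by
  induction k generalizing f with
  | zero => simpa using hf
  | succ k ih =>
    rw [pow_succ, Module.End.mul_apply]
    apply ih
    rw [theta_apply]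
    exact Ideal.mul_mem_left _ _ (pderiv_mem_pow I 1 _ f hf)

lemma dx_pow_mem (I : Ideal (MvPolynomial (Fin 2) ℂ)) (k n : ℕ)
    (f : MvPolynomial (Fin 2) ℂ) (hf : f ∈ I ^ (n + k)) : (dx ^ k) f ∈ I ^ n := by
  induction k generalizing f with
  | zero => simpa using hf
  | succ k ih =>
    rw [pow_succ, Module.End.mul_apply]
    apply ih
    rw [dx_apply]
    exact pderiv_mem_pow I 0 _ f hf

lemma theta_monomial (s t : ℕ) (z : ℂ) :
    theta (monomial (ex s t) z) = monomial (ex s t) ((t : ℂ) * z) := by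
  rw [theta_apply, monomial_ex, monomial_ex]
  rcases t with _ | t
  · simp [Derivation.leibniz, Derivation.leibniz_pow]
  · simp [Derivation.leibniz, Derivation.leibniz_pow]
    ring

lemma dx_monomial (s t : ℕ) (z : ℂ) :
    dx (monomial (ex s t) z) = monomial (ex (s - 1) t) ((s : ℂ) * z) := by
  rw [dx_apply, monomial_ex, monomial_ex]
  simp [Derivation.leibniz, Derivation.leibniz_pow]
  ring

lemma theta_pow_monomial (k s t : ℕ) (z : ℂ) :
    (theta ^ k) (monomial (ex s t) z) = monomial (ex s t) ((t : ℂ) ^ k * z) := by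
  induction k with
  | zero => simp
  | succ k ih =>
    rw [pow_succ', Module.End.mul_apply, ih, theta_monomial]
    congr 1
    ring

lemma dx_pow_monomial (j s t : ℕ) (z : ℂ) :
    (dx ^ j) (monomial (ex s t) z) = monomial (ex (s - j) t) ((s.descFactorial j : ℂ) * z) := by
  induction j with
  | zero => simp
  | succ j ih =>
    rw [pow_succ', Module.End.mul_apply, ih, dx_monomial, Nat.descFactorial_succ]
    congr 1
    push_cast
    ring

lemma mulVec_eq_zero_of_mem {r : ℕ} (D : ℕ) (a : ℕ → ℕ) (m : Fin r → ℕ)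
    (p : Fin r → Fin 2 → ℂ) (c : Col D a → ℂ)
    (h : ∀ i, emb D a c ∈ (RingHom.ker (eval (p i))) ^ (m i)) :
    (Mat D a m p).mulVec c = 0 := by
  funext ⟨i, k, j⟩
  have hk := k.isLt
  have hj := j.isLt
  have h1 : emb D a c ∈ (RingHom.ker (eval (p i))) ^ (1 + j.val + k.val) :=
    Ideal.pow_le_pow_right (by omega) (h i)
  have h2 := dx_pow_mem _ _ _ _ (theta_pow_mem _ _ _ _ h1)
  rw [pow_one, RingHom.mem_ker, emb_apply, map_sum, map_sum, map_sum] at h2
  simp only [Matrix.mulVec, dotProduct, Mat, Pi.zero_apply]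
  rw [← h2]
  apply Finset.sum_congr rfl
  intro s _
  rw [theta_pow_monomial, dx_pow_monomial, monomial_ex]
  simp
  ring

/-- The space of polynomials of degree at most `d` vanishing to order `m i` at `p i`. -/
noncomputable abbrev Sys {r : ℕ} (d : ℕ) (m : Fin r → ℕ) (p : Fin r → Fin 2 → ℂ) :
    Submodule ℂ (MvPolynomial (Fin 2) ℂ) :=
  restrictTotalDegree (Fin 2) ℂ d ⊓
    ⨅ i : Fin r, ((RingHom.ker (eval (p i))) ^ (m i)).restrictScalars ℂ

theorem generic_upper {r : ℕ} (d : ℕ) (a : ℕ → ℕ) (m : Fin r → ℕ) (lam : ℕ → ℤ)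
    (v : Fin r → ℤ) (ha : ∀ t < d + 1, a t ≤ d + 1 - t) (hc : Cert (d + 1) a m lam v) :
    ∃ F : MvPolynomial (Fin r × Fin 2) ℂ, F ≠ 0 ∧ ∀ p : Fin r → Fin 2 → ℂ,
      MvPolynomial.eval (fun ij : Fin r × Fin 2 => p ij.1 ij.2) F ≠ 0 →
      2 * (Module.finrank ℂ (Sys d m p) + ∑ t ∈ range (d + 1), a t) ≤ (d + 1) * (d + 2) := by
  obtain ⟨F, hF, h⟩ := generic_injective (d + 1) a m lam v hc
  refine ⟨F, hF, fun p hp => ?_⟩
  have hinf : Sys d m p ⊓ LinearMap.range (emb (d + 1) a) = ⊥ := by
    rw [eq_bot_iff]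
    rintro f ⟨hf, c, rfl⟩
    have : c = 0 := by
      apply h p hp
      apply mulVec_eq_zero_of_mem
      intro i
      have := hf.2
      simp only [Submodule.coe_iInf, Set.mem_iInter, SetLike.mem_coe] at this
      exact this i
    simp [this]
  have hle : Sys d m p ⊔ LinearMap.range (emb (d + 1) a) ≤ restrictTotalDegree (Fin 2) ℂ d := by
    apply sup_le inf_le_left
    rintro _ ⟨c, rfl⟩
    exact emb_mem d a ha c
  have : Module.Finite ℂ (Sys d m p) :=
    Module.Finite.of_injective (Submodule.inclusion (inf_le_left : Sys d m p ≤ _))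
      (Submodule.inclusion_injective _)
  have h1 := Submodule.finrank_sup_add_finrank_inf_eq (Sys d m p)
    (LinearMap.range (emb (d + 1) a))
  rw [hinf, finrank_bot, finrank_range_emb] at h1
  have h2 := Submodule.finrank_mono hle
  have h3 := finrank_Vd d
  omega

theorem always_lower {r : ℕ} (d : ℕ) (m : Fin r → ℕ) (p : Fin r → Fin 2 → ℂ) :
    (d + 1) * (d + 2) ≤ 2 * Module.finrank ℂ (Sys d m p) + ∑ i, m i * (m i + 1) := by
  classical
  let τ : Fin r → (MvPolynomial (Fin 2) ℂ →ₐ[ℂ] MvPolynomial (Fin 2) ℂ) :=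
    fun i => aeval (fun e => X e + C (p i e))
  let σ : Fin r → (MvPolynomial (Fin 2) ℂ →ₐ[ℂ] MvPolynomial (Fin 2) ℂ) :=
    fun i => aeval (fun e => X e - C (p i e))
  have hστ : ∀ i f, σ i (τ i f) = f := by
    intro i f
    have : (σ i).comp (τ i) = AlgHom.id ℂ _ := by
      ext e
      simp [σ, τ]
    exact DFunLike.congr_fun this f
  let Ψ : restrictTotalDegree (Fin 2) ℂ d →ₗ[ℂ] (Cond m → ℂ) :=
    LinearMap.pi (fun c : Cond m => (lcoeff ℂ (ex c.2.2.val c.2.1.val)).comp
      ((τ c.1).toLinearMap.comp (Submodule.subtype _)))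
  have hker : (LinearMap.ker Ψ).map (Submodule.subtype _) ≤ Sys d m p := by
    rintro _ ⟨f, hf, rfl⟩
    refine ⟨f.2, ?_⟩
    simp only [Submodule.coe_iInf, Set.mem_iInter, SetLike.mem_coe]
    intro i
    have h1 : τ i f.1 ∈ idealOfVars (Fin 2) ℂ ^ (m i) := by
      rw [mem_pow_idealOfVars_iff']
      intro e he
      rw [degree_eq] at he
      have := congrFun (LinearMap.mem_ker.mp hf) ⟨i, ⟨e 1, by omega⟩, ⟨e 0, by simp only; omega⟩⟩
      simpa [Ψ, ex_self] using this
    have h2 : Ideal.map (σ i) (idealOfVars (Fin 2) ℂ) ≤ RingHom.ker (eval (p i)) := by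
      rw [idealOfVars, Ideal.map_span, Ideal.span_le]
      rintro _ ⟨_, ⟨e, rfl⟩, rfl⟩
      simp [σ, RingHom.mem_ker]
    have h3 := Ideal.mem_map_of_mem (σ i) h1
    rw [Ideal.map_pow, hστ] at h3
    exact Ideal.pow_right_mono h2 _ h3
  have : Module.Finite ℂ (Sys d m p) :=
    Module.Finite.of_injective (Submodule.inclusion (inf_le_left : Sys d m p ≤ _))
      (Submodule.inclusion_injective _)
  have h1 := Submodule.finrank_mono hker
  rw [Submodule.finrank_map_subtype_eq] at h1
  have h2 := LinearMap.finrank_range_add_finrank_ker Ψ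
  have h3 : Module.finrank ℂ (LinearMap.range Ψ) ≤ Fintype.card (Cond m) := by
    rw [← Module.finrank_fintype_fun_eq_card ℂ]
    exact Submodule.finrank_le _
  have h4 : 2 * Fintype.card (Cond m) = ∑ i, m i * (m i + 1) := by
    rw [Fintype.card_sigma, Finset.mul_sum]
    apply Finset.sum_congr rfl
    intro i _
    have := card_col (m i) (fun k => m i - k)
    rw [← sum_tri]
    exact congrArg (2 * ·) this
  have h5 := finrank_Vd d
  omega

end Pool.Agent.Lib.MP_6e81d8_ag.H16
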