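import Pool.Agent.Lib.MP_6e81d8_ag.H16.Step

/-!
The cycle of three runs, which halves the window and keeps the shape of the profile.
-/

set_option autoImplicit false

namespace Pool.Agent.Lib.MP_6e81d8_ag.H16

/-- The goal for a profile with two kinks. -/
def G2 (err : ℝ) (Y : ℕ) (c t w k κ₁ r₁ κ₂ r₂ : ℝ) : Prop :=
  Goal err Y w k (prof Y (c * Y) t w k 0 0 fun y => κ₁ * max (r₁ - y) 0 + κ₂ * max (r₂ - y) 0)

/-- The conditions common to all stages. -/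
def Com (Y : ℕ) (c t w k κ₁ r₁ κ₂ r₂ : ℝ) : Prop :=
  100000 ≤ c ∧ 0 < w ∧ 0 ≤ k ∧ w + k ≤ 1 ∧ 0 ≤ κ₁ ∧ 0 ≤ κ₂ ∧
    Inv Y (c * Y) t w k (κ₁ * r₁ ^ 2 + κ₂ * r₂ ^ 2) (κ₁ * r₁ + κ₂ * r₂)

theorem G2.swap {err : ℝ} {Y : ℕ} {c t w k κ₁ r₁ κ₂ r₂ : ℝ} (h : G2 err Y c t w k κ₁ r₁ κ₂ r₂) :
    G2 err Y c t w k κ₂ r₂ κ₁ r₁ := by
  unfold G2 at h ⊢
  simpa only [add_comm] using h

theorem Com.swap {Y : ℕ} {c t w k κ₁ r₁ κ₂ r₂ : ℝ} (h : Com Y c t w k κ₁ r₁ κ₂ r₂) :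
    Com Y c t w k κ₂ r₂ κ₁ r₁ := by
  obtain ⟨h1, h2, h3, h4, h5, h6, h7⟩ := h
  exact ⟨h1, h2, h3, h4, h6, h5, by rwa [add_comm (κ₂ * r₂ ^ 2), add_comm (κ₂ * r₂)]⟩

theorem two_bounds {X c w κ₁ r₁ κ₂ r₂ : ℝ} (hc : 0 ≤ c) (hw : 0 < w) (h1 : 0 ≤ κ₁) (h2 : 0 ≤ κ₂)
    (h3 : 0.35 * w ≤ r₁) (h4 : r₁ ≤ w) (h5 : 0 ≤ r₂) (h6 : r₂ ≤ w) (h7 : X / 2 ≤ c * κ₁)
    (h8 : c * κ₁ + c * κ₂ ≤ 3 * X) (hX : 0 ≤ X) :
    κ₁ * r₁ ^ 2 + κ₂ * r₂ ^ 2 ≤ (κ₁ * r₁ + κ₂ * r₂) * w ∧ c * (κ₁ * r₁ + κ₂ * r₂) ≤ 3 * X * w ∧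
      X * w ^ 2 / 20 ≤ c * (κ₁ * r₁ ^ 2 + κ₂ * r₂ ^ 2) := by
  have h9 : 0 ≤ r₁ := by linarith
  refine ⟨?_, ?_, ?_⟩
  · linarith [mul_nonneg (mul_nonneg h1 h9) (sub_nonneg.mpr h4),
      mul_nonneg (mul_nonneg h2 h5) (sub_nonneg.mpr h6)]
  · linarith [mul_nonneg (mul_nonneg hc h1) (sub_nonneg.mpr h4),
      mul_nonneg (mul_nonneg hc h2) (sub_nonneg.mpr h6), mul_le_mul_of_nonneg_right h8 hw.le]
  · have h10 : (0.35 * w) ^ 2 ≤ r₁ ^ 2 := pow_le_pow_left₀ (by linarith) h3 2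
    have h11 := mul_le_mul h7 h10 (by positivity) (mul_nonneg hc h1)
    have h12 : 0 ≤ X * w ^ 2 := by positivity
    have h13 : 0 ≤ c * κ₂ * r₂ ^ 2 := by positivity
    linarith

theorem kink_zero {κ r w : ℝ} (h : r ≤ w) : ∀ y, w ≤ y → κ * max (r - y) 0 = 0 := fun y hy => by
  rw [max_eq_right (by linarith), mul_zero]

theorem move1 {X : ℝ} (hX : 10 ^ 8 ≤ X) {Y : ℕ} (hY : 10 ^ 7 * X ≤ Y) {c t w k κ₁ r₁ κ₂ r₂ : ℝ}
    (h : Com Y c t w k κ₁ r₁ κ₂ r₂) (a1 : 0.35 * w ≤ r₁) (a2 : r₁ ≤ 0.48 * w) (b1 : 0.82 * w ≤ r₂)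
    (b2 : r₂ ≤ 0.845 * w) (e1 : X / 2 ≤ c * κ₁) (e2 : c * κ₁ ≤ 2 * X) (e3 : c * κ₂ ≤ X / 100000) :
    ∃ (Y' : ℕ) (c' t' w' k' κ' r' : ℝ), Y' ≤ Y ∧ Y ≤ Y' + 4 * X ∧ Com Y' c' t' w' k' κ₁ r₁ κ' r' ∧
      c ≤ c' ∧ c' ≤ c * 1.00004 ∧ 1.6 * r₁ ≤ w' ∧ w' ≤ 2.42 * r₁ ∧ 0.3999 * r₁ ≤ r' ∧
      r' ≤ 0.4 * r₁ ∧ c' * κ' ≤ X / 1000000 ∧
      ∀ err, 0 ≤ err → G2 err Y' c' t' w' k' κ₁ r₁ κ' r' → G2 err Y c t w k κ₁ r₁ κ₂ r₂ := by
  have hX0 : 0 < X := by linarith [show (0 : ℝ) < 10 ^ 8 by norm_num]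
  obtain ⟨hc, hw, hk, hwk, h2, h1, hI⟩ := h.swap
  obtain ⟨t1, t2, t3⟩ := two_bounds (by linarith : 0 ≤ c) hw h1 h2 a1 (by linarith) (by linarith)
    (by linarith : r₂ ≤ w) e1 (by linarith) hX0.le
  have hq : 0 < w - r₂ := by linarith
  obtain ⟨μ₀, hμ₀⟩ : ∃ μ₀, μ₀ * (w - r₂) = w - 0.4 * r₁ :=
    ⟨(w - 0.4 * r₁) / (w - r₂), by field_simp⟩
  have m1 : 4.4 ≤ μ₀ := le_of_mul_le_mul_right (by linarith) hq
  have m2 : μ₀ ≤ 5.6 := le_of_mul_le_mul_right (by linarith) hq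
  obtain ⟨Y', μ, s, d, y1, y2, p1, p2, d1, -, -, d4, d5, H⟩ := step hX hY (μ₀ := μ₀) hc hw hk hwk hI
    h2 (by linarith) (by linarith) (by linarith) (by linarith) (by linarith) (by linarith)
  have hs : 4.39 ≤ s := by
    by_contra hs
    have h3 : 0.01 * (X / 25) ≤ (μ - s) * d :=
      mul_le_mul (by linarith) d1 (by linarith) (by linarith)
    have h4 := mul_le_mul h3 (by linarith : 4.4 ≤ μ) (by norm_num) (by linarith)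
    have h5 : (μ - 1) ^ 2 ≤ 5 ^ 2 := pow_le_pow_left₀ (by linarith) (by linarith) 2
    have h6 := mul_le_mul e3 h5 (by positivity) (by linarith)
    linarith
  have hs0 : 0 < s := by linarith
  have r1 := mul_le_mul_of_nonneg_right p1 hq.le
  have r2 := mul_le_mul_of_nonneg_right p2 hq.le
  obtain ⟨r', hr'⟩ : ∃ r', r' = w - μ * (w - r₂) := ⟨_, rfl⟩
  have r3 : 0.3999 * r₁ ≤ r' := by linarith
  have r4 : r' ≤ 0.4 * r₁ := by linarith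
  have r5 : ∀ z, 0 ≤ z → z ≤ 0.2 * w → z / s ≤ 0.046 * w := fun z h3 h4 => by
    rw [div_le_iff₀ hs0]
    linarith [mul_le_mul_of_nonneg_left hs hw.le]
  obtain ⟨c', t', w', k', c1, c2, k1, k2, hw', k3, hI', hG⟩ := H r' hr' (by linarith) (by linarith)
    (by linarith [r5 r' (by linarith) (by linarith)])
  have w1 := r5 (r' + k') (by linarith) (by linarith)
  have w2 : 0 ≤ (r' + k') / s := div_nonneg (by linarith) hs0.le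
  have hμs : 19 ≤ μ * s := by
    linarith [mul_le_mul (by linarith : 4.4 ≤ μ) hs (by norm_num) (by linarith)]
  have hκ' : 0 ≤ κ₂ / (μ * s) := div_nonneg h2 (by linarith)
  refine ⟨Y', c', t', w', k', κ₂ / (μ * s), r', y1, y2,
    Com.swap ⟨by linarith, by linarith, k1, k3, hκ', h1, hI'⟩, c1, c2, by linarith, by linarith, r3,
    r4, ?_, fun err he hh => G2.swap (hG _ err he (by linarith) (by linarith)
      (kink_zero (by linarith)) hh.swap)⟩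
  rw [← mul_div_assoc, div_le_iff₀ (by linarith)]
  linarith [mul_le_mul_of_nonneg_right c2 h2, mul_le_mul_of_nonneg_left hμs hX0.le]

theorem move2 {X : ℝ} (hX : 10 ^ 8 ≤ X) {Y : ℕ} (hY : 10 ^ 7 * X ≤ Y) {c t w k κ₁ r₁ κ₂ r₂ : ℝ}
    (h : Com Y c t w k κ₁ r₁ κ₂ r₂) (a1 : 1.6 * r₁ ≤ w) (a2 : w ≤ 2.42 * r₁) (b1 : 0 ≤ r₂)
    (b2 : r₂ ≤ r₁) (e1 : X / 2 ≤ c * κ₁) (e2 : c * κ₁ + c * κ₂ ≤ 3 * X) :
    ∃ (Y' : ℕ) (c' t' w' k' : ℝ), Y' ≤ Y ∧ Y ≤ Y' + 4 * X ∧ Com Y' c' t' w' k' κ₁ r₁ κ₂ r₂ ∧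
      c ≤ c' ∧ c' ≤ c * 1.00004 ∧ 1.4999 * r₁ ≤ w' ∧ w' ≤ 1.5001 * r₁ ∧
      ∀ err, 0 ≤ err → G2 err Y' c' t' w' k' κ₁ r₁ κ₂ r₂ → G2 err Y c t w k κ₁ r₁ κ₂ r₂ := by
  have hX0 : 0 < X := by linarith [show (0 : ℝ) < 10 ^ 8 by norm_num]
  obtain ⟨hc, hw, hk, hwk, h1, h2, hI⟩ := h
  obtain ⟨t1, t2, t3⟩ := two_bounds (by linarith : 0 ≤ c) hw h1 h2 (by linarith : 0.35 * w ≤ r₁)
    (by linarith) b1 (by linarith) e1 e2 hX0.le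
  have hq : 0 < w - 1.5 * r₁ := by linarith
  obtain ⟨μ₀, hμ₀⟩ : ∃ μ₀, μ₀ * (w - 1.5 * r₁) = w := ⟨w / (w - 1.5 * r₁), by field_simp⟩
  have m1 : 5 / 2 ≤ μ₀ := le_of_mul_le_mul_right (by linarith) hq
  have m2 : μ₀ ≤ 17 := le_of_mul_le_mul_right (by linarith) hq
  obtain ⟨r, hr⟩ : ∃ r, r = w - (w - 1.5 * r₁) * (100000 / 100003) := ⟨_, rfl⟩
  obtain ⟨Y', μ, s, d, y1, y2, p1, p2, d1, -, -, d4, d5, H⟩ := step hX hY (μ₀ := μ₀) (κ := 0)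
    (r := r) (A := κ₁ * r₁ ^ 2 + κ₂ * r₂ ^ 2) (B := κ₁ * r₁ + κ₂ * r₂) hc hw hk hwk
    (by simpa only [zero_mul, zero_add] using hI) le_rfl (by linarith) (by linarith) (by linarith)
    (by linarith) m1 m2
  have hs : s = μ := by
    have h3 : (μ - s) * (d * μ) = 0 := by linarith
    have h4 : 0 < d * μ := mul_pos (by linarith) (by linarith)
    linarith [(mul_eq_zero.mp h3).resolve_right h4.ne']
  subst hs
  have hs0 : 0 < s := by linarith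
  have r1 := mul_le_mul_of_nonneg_right p1 hq.le
  have r2 := mul_le_mul_of_nonneg_right p2 hq.le
  obtain ⟨r', hr'⟩ : ∃ r', r' = w - s * (w - r) := ⟨_, rfl⟩
  have r3 : 0 ≤ r' := by rw [hr', hr]; linarith
  have r4 : r' ≤ 0.00003 * w := by rw [hr', hr]; linarith
  have r5 : ∀ z, 0 ≤ z → z / s ≤ z := fun z h3 => div_le_self h3 (by linarith)
  obtain ⟨c', t', w', k', c1, c2, k1, k2, hw', k3, hI', hG⟩ := H r' hr' (by linarith) r3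
    (by linarith [r5 r' r3])
  have w1 := r5 (r' + k') (by linarith)
  have w2 : 0 ≤ (r' + k') / s := div_nonneg (by linarith) hs0.le
  simp only [zero_div, zero_mul, zero_add] at hI' hG
  exact ⟨Y', c', t', w', k', y1, y2, ⟨by linarith, by linarith, k1, k3, h1, h2, hI'⟩, c1, c2,
    by linarith, by linarith, fun err he hh => hG _ err he (by linarith) (by linarith)
      (fun y hy => by rw [kink_zero (by linarith) y hy, kink_zero (by linarith) y hy, add_zero]) hh⟩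

theorem ratio {X e e' d w r r' : ℝ} (hX : 0 < X) (hr : 0 < r) (a1 : 1.4999 * r ≤ w)
    (a2 : w ≤ 1.5001 * r) (b1 : 0 ≤ r') (b2 : r' ≤ r) (e1 : X / 2 ≤ e) (e2 : 0 ≤ e')
    (e3 : e' ≤ X / 100000) (hd : 0 ≤ d) (d1 : e * r ^ 2 + e' * r' ^ 2 - X * w ^ 2 / 100000 ≤ d * w ^ 2)
    (d2 : d * w ^ 2 ≤ e * r ^ 2 + e' * r' ^ 2) : 2.249 * d ≤ e ∧ e ≤ 2.251 * d := by
  have h1 : (1.4999 * r) ^ 2 ≤ w ^ 2 := pow_le_pow_left₀ (by linarith) a1 2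
  have h2 : w ^ 2 ≤ (1.5001 * r) ^ 2 := pow_le_pow_left₀ (by linarith) a2 2
  have h3 : r' ^ 2 ≤ r ^ 2 := pow_le_pow_left₀ b1 b2 2
  have h4 : 0 < r ^ 2 := by positivity
  have h5 := mul_le_mul e3 h3 (by positivity) (by linarith)
  have h6 := mul_le_mul_of_nonneg_right e1 h4.le
  have h7 := mul_le_mul_of_nonneg_left h1 hd
  have h8 := mul_le_mul_of_nonneg_left h2 hd
  have h9 := mul_le_mul_of_nonneg_left h2 hX.le
  have h10 : 0 ≤ e' * r' ^ 2 := by positivity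
  have h11 : 0 ≤ d * r ^ 2 := by positivity
  exact ⟨le_of_mul_le_mul_right (by linarith) h4, le_of_mul_le_mul_right (by linarith) h4⟩

theorem move3 {X : ℝ} (hX : 10 ^ 8 ≤ X) {Y : ℕ} (hY : 10 ^ 7 * X ≤ Y) {c t w k κ₁ r₁ κ₂ r₂ : ℝ}
    (h : Com Y c t w k κ₁ r₁ κ₂ r₂) (a1 : 1.4999 * r₁ ≤ w) (a2 : w ≤ 1.5001 * r₁) (b1 : 0 ≤ r₂)
    (b2 : r₂ ≤ 0.4 * r₁) (e1 : X / 2 ≤ c * κ₁) (e2 : c * κ₁ ≤ 2.5 * X) (e3 : c * κ₂ ≤ X / 100000)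
    (μ₀ s₁ s₂ ρ₁ ρ₂ ω₁ ω₂ : ℝ) (n1 : 5 / 2 ≤ μ₀) (n2 : μ₀ ≤ 3) (n3 : 1 / 10 ≤ s₁) (n4 : s₁ ≤ 1)
    (n5 : 2.251 * (μ₀ * 1.00003 - 1) ^ 2 ≤ (μ₀ - s₁) * μ₀) (n6 : s₂ ≤ 1)
    (n7 : (μ₀ * 1.00003 - s₂) * (μ₀ * 1.00003) ≤ 2.249 * (μ₀ - 1) ^ 2)
    (n8 : ρ₁ ≤ 1 - (μ₀ * 1.00003 - 1) * 0.5001) (n9 : 1 - (μ₀ - 1) * 0.4999 ≤ ρ₂) (n10 : 0 ≤ ρ₁)
    (n11 : ρ₂ + 0.00002 ≤ (1 - ω₁) * s₁) (n12 : (1 - ω₂) * s₂ ≤ ρ₁) (n13 : ρ₂ ≤ 0.4)
    (n14 : 0.4 ≤ ω₁) (n15 : ω₁ ≤ 1) (n16 : ω₂ ≤ 1) :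
    ∃ (Y' : ℕ) (c' t' w' k' κ' r' : ℝ), Y' ≤ Y ∧ Y ≤ Y' + 4 * X ∧ Com Y' c' t' w' k' κ' r' κ₂ r₂ ∧
      c' ≤ c * 1.00004 ∧ ω₁ * r₁ ≤ w' ∧ w' ≤ ω₂ * r₁ ∧ ρ₁ * r₁ ≤ r' ∧ r' ≤ ρ₂ * r₁ ∧
      c * κ₁ ≤ c' * κ' * (μ₀ * 1.00003 * s₂) ∧ c' * κ' * (μ₀ * s₁) ≤ c * κ₁ * 1.00004 ∧
      ∀ err, 0 ≤ err → G2 err Y' c' t' w' k' κ' r' κ₂ r₂ → G2 err Y c t w k κ₁ r₁ κ₂ r₂ := by
  have hX0 : 0 < X := by linarith [show (0 : ℝ) < 10 ^ 8 by norm_num]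
  obtain ⟨hc, hw, hk, hwk, h1, h2, hI⟩ := h
  have hr : 0 < r₁ := by linarith
  obtain ⟨t1, t2, t3⟩ := two_bounds (by linarith : 0 ≤ c) hw h1 h2 (by linarith : 0.35 * w ≤ r₁)
    (by linarith) b1 (by linarith) e1 (by linarith) hX0.le
  obtain ⟨Y', μ, s, d, y1, y2, p1, p2, d1, d2, d3, d4, d5, H⟩ := step hX hY (μ₀ := μ₀) hc hw hk hwk
    hI h1 (by linarith) t1 t2 t3 n1 (by linarith)
  have hd : 0 < d := by linarith
  obtain ⟨q1, q2⟩ := ratio (e := c * κ₁) (e' := c * κ₂) (d := d) hX0 hr a1 a2 b1 (by linarith) e1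
    (mul_nonneg (by linarith) h2) e3 hd.le (by linarith) (by linarith)
  have q3 : 2.249 * (μ - 1) ^ 2 ≤ (μ - s) * μ := le_of_mul_le_mul_right (by
    linarith [mul_le_mul_of_nonneg_right q1 (sq_nonneg (μ - 1))]) hd
  have q4 : (μ - s) * μ ≤ 2.251 * (μ - 1) ^ 2 := le_of_mul_le_mul_right (by
    linarith [mul_le_mul_of_nonneg_right q2 (sq_nonneg (μ - 1))]) hd
  have q5 : (μ₀ - 1) ^ 2 ≤ (μ - 1) ^ 2 := pow_le_pow_left₀ (by linarith) (by linarith) 2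
  have q6 : (μ - 1) ^ 2 ≤ (μ₀ * 1.00003 - 1) ^ 2 := pow_le_pow_left₀ (by linarith) (by linarith) 2
  have s1 : s₁ ≤ s := by
    by_contra hs
    have := mul_lt_mul (by linarith : μ₀ - s₁ < μ - s) p1 (by linarith) (by linarith)
    linarith
  have s2 : s ≤ s₂ := by
    by_contra hs
    have := mul_lt_mul (by linarith : μ - s < μ₀ * 1.00003 - s₂) p2 (by linarith) (by linarith)
    linarith
  have hs0 : 0 < s := by linarith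
  obtain ⟨r', hr'⟩ : ∃ r', r' = w - μ * (w - r₁) := ⟨_, rfl⟩
  have r1 := mul_le_mul (by linarith : μ₀ - 1 ≤ μ - 1) (by linarith : 0.4999 * r₁ ≤ w - r₁)
    (by linarith) (by linarith)
  have r2 := mul_le_mul (by linarith : μ - 1 ≤ μ₀ * 1.00003 - 1) (by linarith : w - r₁ ≤ 0.5001 * r₁)
    (by linarith) (by linarith)
  have r3 : ρ₁ * r₁ ≤ r' := by linarith [mul_le_mul_of_nonneg_right n8 hr.le]
  have r4 : r' ≤ ρ₂ * r₁ := by linarith [mul_le_mul_of_nonneg_right n9 hr.le]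
  have r0 : 0 ≤ r' := (mul_nonneg n10 hr.le).trans r3
  have o1 := mul_le_mul_of_nonneg_right n14 hr.le
  have o2 := mul_le_mul_of_nonneg_right n13 hr.le
  have r5 : ∀ z, z ≤ r' + 0.00002 * r₁ → z / s ≤ (1 - ω₁) * r₁ := fun z h3 => by
    rw [div_le_iff₀ hs0]
    linarith [mul_le_mul_of_nonneg_right n11 hr.le,
      mul_le_mul_of_nonneg_left s1 (mul_nonneg (sub_nonneg.mpr n15) hr.le)]
  obtain ⟨c', t', w', k', c1, c2, k1, k2, hw', k3, hI', hG⟩ := H r' hr' (by linarith) r0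
    (by linarith [r5 r' (by linarith)])
  have w1 := r5 (r' + k') (by linarith)
  have w2 : (1 - ω₂) * r₁ ≤ (r' + k') / s := by
    rw [le_div_iff₀ hs0]
    linarith [mul_le_mul_of_nonneg_right n12 hr.le,
      mul_le_mul_of_nonneg_left s2 (mul_nonneg (sub_nonneg.mpr n16) hr.le)]
  have hμs : 0 < μ * s := mul_pos (by linarith) hs0
  have hκ' : 0 ≤ κ₁ / (μ * s) := div_nonneg h1 hμs.le
  have hκ : c' * (κ₁ / (μ * s)) * (μ * s) = c' * κ₁ := by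
    rw [mul_assoc, div_mul_cancel₀ _ hμs.ne']
  have hκ2 : 0 ≤ c' * (κ₁ / (μ * s)) := mul_nonneg (by linarith) hκ'
  refine ⟨Y', c', t', w', k', κ₁ / (μ * s), r', y1, y2,
    ⟨by linarith, by linarith, k1, k3, hκ', h2, hI'⟩, c2, by linarith, by linarith, r3, r4, ?_, ?_,
    fun err he hh => hG _ err he (by linarith) (by linarith) (kink_zero (by linarith)) hh⟩
  · linarith [mul_le_mul_of_nonneg_right c1 h1,
      mul_le_mul_of_nonneg_left (mul_le_mul p2 s2 hs0.le (by linarith)) hκ2]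
  · linarith [mul_le_mul_of_nonneg_right c2 h1,
      mul_le_mul_of_nonneg_left (mul_le_mul p1 s1 (by linarith) (by linarith)) hκ2]

/-- The shape that is restored after each cycle. -/
def Stage (X : ℝ) (Y : ℕ) (c t w k κ₁ r₁ κ₂ r₂ : ℝ) : Prop :=
  Com Y c t w k κ₁ r₁ κ₂ r₂ ∧ 0.35 * w ≤ r₁ ∧ r₁ ≤ 0.48 * w ∧ 0.82 * w ≤ r₂ ∧ r₂ ≤ 0.845 * w ∧
    X / 2 ≤ c * κ₁ ∧ c * κ₁ ≤ 2 * X ∧ c * κ₂ ≤ X / 100000

theorem cycle {X : ℝ} (hX : 10 ^ 8 ≤ X) {Y : ℕ} (hY : 10 ^ 7 * X + 12 * X ≤ Y)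
    {c t w k κ₁ r₁ κ₂ r₂ : ℝ} (h : Stage X Y c t w k κ₁ r₁ κ₂ r₂) :
    ∃ (Y' : ℕ) (c' t' w' k' κ₁' r₁' κ₂' r₂' : ℝ), Y' ≤ Y ∧ Y ≤ Y' + 12 * X ∧
      Stage X Y' c' t' w' k' κ₁' r₁' κ₂' r₂' ∧ w' ≤ w / 2 ∧
      ∀ err, 0 ≤ err → G2 err Y' c' t' w' k' κ₁' r₁' κ₂' r₂' → G2 err Y c t w k κ₁ r₁ κ₂ r₂ := by
  have hX0 : 0 < X := by linarith [show (0 : ℝ) < 10 ^ 8 by norm_num]
  obtain ⟨h, a1, a2, b1, b2, e1, e2, e3⟩ := h
  have hw := h.2.1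
  have hκ := h.2.2.2.2.1
  obtain ⟨Y₁, c₁, t₁, w₁, k₁, κ', r', y1, y2, h', c1, c2, a3, a4, b3, b4, e4, H1⟩ :=
    move1 hX (by linarith) h a1 a2 b1 b2 e1 e2 e3
  have hκ' := h'.2.2.2.2.2.1
  have u1 := mul_le_mul_of_nonneg_right c1 hκ
  have u2 := mul_le_mul_of_nonneg_right c2 hκ
  obtain ⟨Y₂, c₂, t₂, w₂, k₂, y3, y4, h'', c3, c4, a5, a6, H2⟩ :=
    move2 hX (by linarith) h' a3 a4 (by linarith) (by linarith) (by linarith) (by linarith)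
  have u3 := mul_le_mul_of_nonneg_right c3 hκ
  have u4 := mul_le_mul_of_nonneg_right c4 hκ
  have u5 := mul_le_mul_of_nonneg_right c4 hκ'
  have H := move3 hX (by linarith) h'' a5 a6 (by linarith) b4 (by linarith) (by linarith)
    (by linarith)
  rcases le_total (c * κ₁) X with e5 | e5
  · obtain ⟨Y₃, c₃, t₃, w₃, k₃, κ'', r'', y5, y6, h3, c5, a7, a8, a9, a10, e6, e7, H3⟩ :=
      H 2.65 0.337 0.34 0.1747 0.1752 0.48 0.4862 (by norm_num) (by norm_num) (by norm_num)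
        (by norm_num) (by norm_num) (by norm_num) (by norm_num) (by norm_num) (by norm_num)
        (by norm_num) (by norm_num) (by norm_num) (by norm_num) (by norm_num) (by norm_num)
        (by norm_num)
    have u6 := mul_le_mul_of_nonneg_right c5 hκ'
    exact ⟨Y₃, c₃, t₃, w₃, k₃, κ'', r'', κ', r', y5.trans (y3.trans y1), by linarith,
      ⟨h3, by linarith, by linarith, by linarith, by linarith, by linarith, by linarith,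
        by linarith⟩, by linarith, fun err he hh => H1 err he (H2 err he (H3 err he hh))⟩
  · obtain ⟨Y₃, c₃, t₃, w₃, k₃, κ'', r'', y5, y6, h3, c5, a7, a8, a9, a10, e6, e7, H3⟩ :=
      H 2.55 0.4289 0.4313 0.2247 0.2252 0.4748 0.4791 (by norm_num) (by norm_num) (by norm_num)
        (by norm_num) (by norm_num) (by norm_num) (by norm_num) (by norm_num) (by norm_num)
        (by norm_num) (by norm_num) (by norm_num) (by norm_num) (by norm_num) (by norm_num)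
        (by norm_num)
    have u6 := mul_le_mul_of_nonneg_right c5 hκ'
    exact ⟨Y₃, c₃, t₃, w₃, k₃, κ'', r'', κ', r', y5.trans (y3.trans y1), by linarith,
      ⟨h3, by linarith, by linarith, by linarith, by linarith, by linarith, by linarith,
        by linarith⟩, by linarith, fun err he hh => H1 err he (H2 err he (H3 err he hh))⟩

theorem stage_base {X : ℝ} (hX : 10 ^ 8 ≤ X) {Y : ℕ} (hY : 10 ^ 7 * X ≤ Y)
    {c t w k κ₁ r₁ κ₂ r₂ err : ℝ} (h : Stage X Y c t w k κ₁ r₁ κ₂ r₂) (he : 4 * Y * w ≤ err) :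
    G2 err Y c t w k κ₁ r₁ κ₂ r₂ := by
  have hX0 : 0 < X := by linarith [show (0 : ℝ) < 10 ^ 8 by norm_num]
  have hY0 : (0 : ℝ) < Y := by linarith
  obtain ⟨⟨hc, hw, hk, hwk, h1, h2, hI⟩, a1, a2, b1, b2, e1, e2, e3⟩ := h
  have hc0 : 0 < c := by linarith
  obtain ⟨t1, t2, t3⟩ := two_bounds hc0.le hw h1 h2 a1 (by linarith) (by linarith)
    (by linarith : r₂ ≤ w) e1 (by linarith) hX0.le
  obtain ⟨s1, -, d, hd, d1, d2, -, -⟩ := dbounds hX hY hc hw hk hI t1 t2 t3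
  have hct : c * t = d + Y := mul_right_cancel₀ hY0.ne' (by linarith)
  have ht0 : 0 ≤ t := nonneg_of_mul_nonneg_right (by linarith) hc0
  have ht1 : t ≤ Y := by linarith [mul_le_mul_of_nonneg_right hc ht0]
  have hYk : 0 ≤ Y * k := by positivity
  have hYw : 0 < Y * w := by positivity
  have hk1 : Y * k ≤ Y * w := by linarith [mul_le_mul_of_nonneg_right hc hYk]
  have hB0 : 0 ≤ κ₁ * r₁ + κ₂ * r₂ :=
    add_nonneg (mul_nonneg h1 (by linarith)) (mul_nonneg h2 (by linarith))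
  have hB1 : κ₁ * r₁ + κ₂ * r₂ ≤ Y * w := by
    linarith [mul_le_mul_of_nonneg_right hc hB0, mul_le_mul_of_nonneg_right hY hw.le,
      mul_pos hX0 hw]
  refine goal_base (by linarith) fun y y1 y2 => ?_
  unfold prof
  split_ifs with hy
  · have u1 : 0 ≤ c * Y * (y + k) := mul_nonneg (by positivity) (by linarith)
    have u2 : c * Y * y ≤ 0 := mul_nonpos_of_nonneg_of_nonpos (by positivity) hy
    have u3 := mul_le_mul_of_nonneg_left y1.le hY0.le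
    have u4 := mul_le_mul_of_nonneg_left hy hY0.le
    constructor <;> linarith
  · have hy0 : 0 < y := not_le.mp hy
    have u1 : 0 ≤ t * (w - y) := mul_nonneg ht0 (by linarith)
    have u2 : t * (w - y) ≤ Y * w := mul_le_mul ht1 (by linarith) (by linarith) hY0.le
    have u3 := mul_le_mul_of_nonneg_left y2.le hY0.le
    have u4 := mul_pos hY0 hy0
    have u5 := mul_nonneg h1 (le_max_right (r₁ - y) 0)
    have u6 := mul_nonneg h2 (le_max_right (r₂ - y) 0)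
    have u7 := mul_le_mul_of_nonneg_left
      (max_le (by linarith) (by linarith) : max (r₁ - y) 0 ≤ r₁) h1
    have u8 := mul_le_mul_of_nonneg_left
      (max_le (by linarith) (by linarith) : max (r₂ - y) 0 ≤ r₂) h2
    constructor <;> linarith

theorem cascade {X : ℝ} (hX : 10 ^ 8 ≤ X) (j : ℕ) : ∀ {Y : ℕ} {c t w k κ₁ r₁ κ₂ r₂ err : ℝ},
    10 ^ 7 * X + 12 * X * j ≤ Y → Stage X Y c t w k κ₁ r₁ κ₂ r₂ → 4 * Y * w / 2 ^ j ≤ err →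
    G2 err Y c t w k κ₁ r₁ κ₂ r₂ := by
  have hX0 : 0 < X := by linarith [show (0 : ℝ) < 10 ^ 8 by norm_num]
  induction j with
  | zero => exact fun hY h he => stage_base hX (by simpa using hY) h (by simpa using he)
  | succ j ih =>
    intro Y c t w k κ₁ r₁ κ₂ r₂ err hY h he
    push_cast at hY
    have hj : 0 ≤ X * j := by positivity
    have hw := h.1.2.1
    obtain ⟨Y', c', t', w', k', κ₁', r₁', κ₂', r₂', y1, y2, h', w1, H⟩ := cycle hX (by linarith) h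
    refine H err (le_trans (by positivity) he) (ih (by linarith) h' (le_trans ?_ he))
    have y3 : (Y' : ℝ) ≤ Y := by exact_mod_cast y1
    rw [pow_succ, mul_comm (2 ^ j : ℝ) 2, ← div_div]
    refine div_le_div_of_nonneg_right ?_ (by positivity)
    linarith [mul_le_mul y3 w1 h'.1.2.1.le (Nat.cast_nonneg _)]

end Pool.Agent.Lib.MP_6e81d8_ag.H16
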