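import Pool.Agent.Lib.MP_6e81d8_ag.H16.Fill
import Pool.Agent.Lib.MP_6e81d8_ag.Final

/-!
From real weights on the rows to interpolation statements for monomial diagrams.
-/

set_option autoImplicit false

namespace Pool.Agent.Lib.MP_6e81d8_ag.H16

open Finset Filter Polynomial

theorem good_of_cert {n D : ℕ} {a : ℕ → ℕ} {m : Fin n → ℕ} {lam : ℕ → ℤ} {v : Fin n → ℤ}
    (hc : Cert D a m lam v) : Good m (tr D a) univ 0 := by
  classical
  obtain ⟨Δ, hΔ, h⟩ := generic_injective D a m lam v hc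
  obtain ⟨q, hq⟩ := exists_eval_ne Δ hΔ
  let e := Bivariate.equivMvPolynomial ℂ
  refine ⟨fun i => (q (i, 0), q (i, 1)), 0, fun F hF hV _ => ?_⟩
  let c : Col D a → ℂ := fun s => (F.coeff s.1.val).coeff s.2.val
  have hF' : F = e.symm (emb D a c) := by
    have h2 : ∀ (s t : ℕ) (z : ℂ), e.symm (MvPolynomial.monomial (ex s t) z)
        = monomial t (monomial s z) := by
      intro s t z
      rw [monomial_ex, map_mul, map_mul, map_pow, map_pow,
        Bivariate.equivMvPolynomial_symm_C, Bivariate.equivMvPolynomial_symm_X_0,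
        Bivariate.equivMvPolynomial_symm_X_1, ← C_mul_X_pow_eq_monomial,
        ← C_mul_X_pow_eq_monomial, C_mul, C_pow]
    rw [emb_apply, map_sum]
    simp only [h2]
    ext b s
    rw [finsetSum_coeff, finsetSum_coeff]
    by_cases hb : s < tr D a b
    · have hb1 : b < D := by
        by_contra hh
        rw [tr_of_le _ (not_lt.mp hh)] at hb
        omega
      rw [tr_of_lt _ hb1] at hb
      rw [Finset.sum_eq_single (⟨⟨b, hb1⟩, ⟨s, hb⟩⟩ : Col D a)]
      · simp [c]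
      · rintro ⟨⟨b', hb'⟩, ⟨s', hs'⟩⟩ _ hne
        simp only [coeff_monomial]
        split_ifs with h3
        · subst h3
          rw [coeff_monomial, if_neg]
          rintro rfl
          exact hne rfl
        · rfl
      · simp
    · rw [mem_lt.mp (mem_rows.mp hF b) s (not_lt.mp hb), eq_comm]
      refine Finset.sum_eq_zero ?_
      rintro ⟨⟨b', hb'⟩, ⟨s', hs'⟩⟩ _
      simp only [coeff_monomial]
      split_ifs with h3
      · subst h3
        rw [coeff_monomial, if_neg]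
        rintro rfl
        exact hb (by rwa [tr_of_lt _ hb'])
      · rfl
  have hc0 : c = 0 := by
    refine h (fun i j => q (i, j)) hq c (mulVec_eq_zero_of_mem D a m _ c fun i => ?_)
    have h4 := pow_map (e : R →+* MvPolynomial (Fin 2) ℂ)
      (J := RingHom.ker (MvPolynomial.eval fun j => q (i, j))) (fun x hx => ?_) (hV i (mem_univ i))
    · rw [hF'] at h4
      simpa using h4
    · have h5 : (ev (q (i, 0), q (i, 1))).comp e.symm.toAlgHom =
          MvPolynomial.aeval fun j => q (i, j) := by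
        refine MvPolynomial.algHom_ext fun j => ?_
        fin_cases j <;> simp [e]
      have h6 := DFunLike.congr_fun h5 (e x)
      rw [mem_mx] at hx
      rw [RingHom.mem_ker]
      simpa [hx] using h6.symm
  rw [hF', hc0, map_zero, map_zero]

theorem good_extra {ι : Type} {μ : ι → ℕ} {S : Finset ι} {D ρ : ℕ} {a l : ℕ → ℕ}
    (h : Good μ (tr D a) S 0) (hρ : ∑ t ∈ range D, (l t - a t) ≤ ρ) : Good μ (tr D l) S ρ := by
  obtain ⟨p, Ψ, h⟩ := h
  obtain ⟨f, hf⟩ : ∃ f : (Col D (fun t => l t - a t) → ℂ) →ₗ[ℂ] (Fin ρ → ℂ),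
      Function.Injective f :=
    finrank_le_iff_exists_linearMap.mp (by
      rw [Module.finrank_fintype_fun_eq_card, card_col]
      simpa using hρ)
  refine ⟨p, f ∘ₗ LinearMap.pi fun s : Col D (fun t => l t - a t) =>
    lcoeff ℂ (a s.1.val + s.2.val) ∘ₗ cf s.1.val, fun F hF hV hΨ => h F ?_ hV (Subsingleton.elim _ _)⟩
  have h1 := (map_eq_zero_iff f hf).mp hΨ
  refine mem_rows.mpr fun b => mem_lt.mpr fun s hs => ?_
  by_cases h2 : tr D l b ≤ s
  · exact mem_lt.mp (mem_rows.mp hF b) s h2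
  · have hb1 : b < D := by
      by_contra hh
      rw [tr_of_le _ (not_lt.mp hh)] at h2
      omega
    rw [tr_of_lt _ hb1] at hs h2
    have := congrFun h1 ⟨⟨b, hb1⟩, ⟨s - a b, by simp only; omega⟩⟩
    simpa [Nat.add_sub_cancel' hs] using this

theorem int_weights {ι : Type} [Finite ι] (D : ℕ) (l : ℕ → ℝ) (v : ι → ℝ) :
    ∃ (l' : ℕ → ℤ) (v' : ι → ℤ), ∀ i, ∀ t < D, ∀ t' < D,
      (v i * t' - l t' < v i * t - l t → v' i * t' - l' t' < v' i * t - l' t) ∧
      (v' i * t' - l' t' = v' i * t - l' t → t' = t) := by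
  have h : ∀ᶠ C in (atTop : Filter ℝ), ∀ i, ∀ t ∈ range D, ∀ t' ∈ range D,
      v i * t' - l t' < v i * t - l t → D ≤ C * (v i * t - l t - (v i * t' - l t')) := by
    rw [eventually_all]
    intro i
    rw [eventually_all_finset]
    intro t _
    rw [eventually_all_finset]
    intro t' _
    by_cases hh : v i * t' - l t' < v i * t - l t
    · exact ((tendsto_id.atTop_mul_const (sub_pos.mpr hh)).eventually_ge_atTop D).mono
        fun _ h _ => h
    · exact Eventually.of_forall fun _ h => absurd h hh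
  obtain ⟨C, hC⟩ := h.exists
  refine ⟨fun t => (D + 1) * ⌊C * l t⌋ + t, fun i => (D + 1) * ⌊C * v i⌋,
    fun i t ht t' ht' => ?_⟩
  have key : ∀ s < D, ∀ s' < D, ⌊C * v i⌋ * s' - ⌊C * l s'⌋ < ⌊C * v i⌋ * s - ⌊C * l s⌋ →
      (D + 1) * ⌊C * v i⌋ * s' - ((D + 1) * ⌊C * l s'⌋ + s') <
        (D + 1) * ⌊C * v i⌋ * s - ((D + 1) * ⌊C * l s⌋ + s) := by
    intro s hs s' _ h
    have h1 : (s : ℤ) < D := by exact_mod_cast hs
    have h2 := mul_le_mul_of_nonneg_left (Int.add_one_le_of_lt h) (by positivity : (0 : ℤ) ≤ D + 1)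
    have h3 : (0 : ℤ) ≤ s' := Nat.cast_nonneg _
    linarith
  refine ⟨fun hh => key t ht t' ht' ?_, fun hh => ?_⟩
  · have h1 := hC i t (mem_range.mpr ht) t' (mem_range.mpr ht') hh
    have h2 := mul_le_mul_of_nonneg_right (Int.floor_le (C * v i)) (Nat.cast_nonneg (α := ℝ) t')
    have h3 := mul_le_mul_of_nonneg_right (Int.lt_floor_add_one (C * v i)).le
      (Nat.cast_nonneg (α := ℝ) t)
    have h4 := Int.floor_le (C * l t)
    have h5 := Int.lt_floor_add_one (C * l t')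
    have h6 : (t : ℝ) + 1 ≤ D := by exact_mod_cast ht
    have : ((⌊C * v i⌋ * t' - ⌊C * l t'⌋ : ℤ) : ℝ) < (⌊C * v i⌋ * t - ⌊C * l t⌋ : ℤ) := by
      push_cast
      linarith
    exact_mod_cast this
  · rcases lt_trichotomy (⌊C * v i⌋ * t' - ⌊C * l t'⌋) (⌊C * v i⌋ * t - ⌊C * l t⌋) with h | h | h
    · exact absurd hh (key t ht t' ht' h).ne
    · have : (t' : ℤ) = t := by linear_combination (D + 1 : ℤ) * h - hh
      exact_mod_cast this
    · exact absurd hh (key t' ht' t ht h).ne'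

theorem card_le_of_mem {S : Finset ℕ} {A B : ℝ} (h : ∀ t ∈ S, A ≤ t ∧ (t : ℝ) ≤ B)
    (hS : S.Nonempty) : (S.card : ℝ) ≤ B - A + 1 := by
  have h1 : S ⊆ Icc (S.min' hS) (S.max' hS) := fun t ht =>
    mem_Icc.mpr ⟨S.min'_le t ht, S.le_max' t ht⟩
  have h2 := card_le_card h1
  rw [Nat.card_Icc] at h2
  have h3 : S.card + S.min' hS ≤ S.max' hS + 1 := by
    have := S.min'_le _ (S.max'_mem hS)
    omega
  have h4 : (S.card : ℝ) + S.min' hS ≤ S.max' hS + 1 := by exact_mod_cast h3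
  linarith [(h _ (S.min'_mem hS)).1, (h _ (S.max'_mem hS)).2]

theorem le_card_of_mem {S : Finset ℕ} {A B : ℝ} (hA : -1 ≤ A)
    (h : ∀ t : ℕ, A < t → (t : ℝ) < B → t ∈ S) : B - A - 1 ≤ S.card := by
  have h1 : Ico ⌊A + 1⌋₊ ⌈B⌉₊ ⊆ S := fun t ht => by
    have h2 : (⌊A + 1⌋₊ : ℝ) ≤ t := by exact_mod_cast (mem_Ico.mp ht).1
    exact h t (by linarith [Nat.lt_floor_add_one (A + 1)]) (Nat.lt_ceil.mp (mem_Ico.mp ht).2)
  have h2 := card_le_card h1
  rw [Nat.card_Ico] at h2
  have h3 : ((⌈B⌉₊ : ℕ) : ℝ) ≤ S.card + ⌊A + 1⌋₊ := by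
    exact_mod_cast (by omega : ⌈B⌉₊ ≤ S.card + ⌊A + 1⌋₊)
  linarith [Nat.le_ceil B, Nat.floor_le (by linarith : 0 ≤ A + 1)]

theorem sum_above {D m : ℕ} (hm : m ≤ D) {l : ℕ → ℤ} {v : ℤ}
    (h : ∀ t < D, ∀ t' < D, v * t' - l t' = v * t - l t → t' = t) :
    ∑ t ∈ range D, (m - above D l v t) = tri m := by
  have h1 : ∀ t < D, ∀ t' < D, v * t - l t < v * t' - l t' → above D l v t' < above D l v t := by
    intro t ht t' ht' hh
    refine card_lt_card ⟨fun s hs => ?_, fun hs => ?_⟩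
    · simp only [mem_filter, mem_erase] at hs ⊢
      refine ⟨⟨?_, hs.1.2⟩, by linarith [hs.2]⟩
      rintro rfl
      linarith [hs.2]
    · have := hs (mem_filter.mpr ⟨mem_erase.mpr ⟨by rintro rfl; exact lt_irrefl _ hh,
        mem_range.mpr ht'⟩, hh.le⟩)
      simp at this
  have h2 : ∀ t ∈ range D, above D l v t ∈ range D := fun t ht => by
    have := card_filter_le ((range D).erase t) (fun t' : ℕ => v * t - l t ≤ v * t' - l t')
    rw [card_erase_of_mem ht, card_range] at this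
    have := mem_range.mp ht
    unfold above
    rw [mem_range]
    omega
  have h3 : ∀ t ∈ range D, ∀ t' ∈ range D, above D l v t = above D l v t' → t = t' := by
    intro t ht t' ht' hh
    rw [mem_range] at ht ht'
    rcases lt_trichotomy (v * t - l t) (v * t' - l t') with h4 | h4 | h4
    · exact absurd hh (h1 t ht t' ht' h4).ne'
    · exact h t' ht' t ht h4
    · exact absurd hh (h1 t' ht' t ht h4).ne
  rw [← sum_range_sub_tri m D hm]
  refine sum_bij (fun t _ => above D l v t) h2 h3 (fun b hb => ?_) fun _ _ => rfl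
  obtain ⟨t, ht, hh⟩ := surj_on_of_inj_on_of_card_le (fun t _ => above D l v t) h2
    (fun t t' ht ht' => h3 t ht t' ht') le_rfl b hb
  exact ⟨t, ht, hh.symm⟩

theorem fill_int {n D : ℕ} {M ξ A B : ℝ} (hM : 0 < M) {S₁ S₂ : ℝ → ℝ}
    (h : Fill ((range D).image fun t : ℕ => (t + ξ) / M) A B n S₁ S₂) :
    ∃ (l : ℕ → ℤ) (v : Fin n → ℤ) (σ : Fin n → ℕ → ℝ),
      (∀ i, ∀ t < D, ∀ t' < D, v i * t' - l t' = v i * t - l t → t' = t) ∧
      (∀ i, ∀ t < D, above D l (v i) t ≤ M * σ i t) ∧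
      (ξ - 1 ≤ M * A → M * B ≤ D + ξ → ∀ i, ∀ t < D, M * σ i t - 1 ≤ above D l (v i) t) ∧
      ∀ t < D, S₁ ((t + ξ) / M) ≤ ∑ i, min 1 (σ i t) ∧ ∑ i, min 1 (σ i t) ≤ S₂ ((t + ξ) / M) := by
  obtain ⟨lam, v, lo, hi, h, h'⟩ := h
  obtain ⟨l', v', hv⟩ := int_weights D (fun t => lam ((t + ξ) / M)) (fun i => v i / M)
  have hmem : ∀ t < D, ((t : ℝ) + ξ) / M ∈ (range D).image fun t : ℕ => (t + ξ) / M :=
    fun t ht => mem_image_of_mem _ (mem_range.mpr ht)
  have hv' : ∀ i, ∀ t < D, ∀ t' < D, v i * ((t' + ξ) / M) - lam ((t' + ξ) / M) <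
      v i * ((t + ξ) / M) - lam ((t + ξ) / M) → v' i * t' - l' t' < v' i * t - l' t := by
    intro i t ht t' ht' hh
    refine (hv i t ht t' ht').1 ?_
    have e : ∀ s : ℝ, v i * ((s + ξ) / M) = v i / M * s + v i * ξ / M := fun s => by ring
    rw [e, e] at hh
    linarith
  refine ⟨l', v', fun i t => hi i ((t + ξ) / M) - lo i ((t + ξ) / M),
    fun i t ht t' ht' => (hv i t ht t' ht').2, fun i t ht => ?_, fun hA hB i t ht => ?_,
    fun t ht => h' _ (hmem t ht)⟩
  · obtain ⟨-, -, h1⟩ := h i _ (hmem t ht)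
    have h2 := card_le_of_mem (S := (range D).filter fun t' : ℕ => v' i * t - l' t ≤ v' i * t' - l' t')
      (A := M * lo i ((t + ξ) / M) - ξ) (B := M * hi i ((t + ξ) / M) - ξ) (fun s hs => by
        obtain ⟨h3, h4⟩ := mem_filter.mp hs
        rw [mem_range] at h3
        have h5 := mt (fun hh => hv' i t ht s h3 ((h1 _ (hmem s h3)).1 hh)) (not_lt.mpr h4)
        rw [not_or, not_lt, not_lt, le_div_iff₀ hM, div_le_iff₀ hM] at h5
        constructor <;> linarith [h5.1, h5.2]) ⟨t, mem_filter.mpr ⟨mem_range.mpr ht, le_rfl⟩⟩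
    have h3 : above D l' (v' i) t + 1 =
        ((range D).filter fun t' : ℕ => v' i * t - l' t ≤ v' i * t' - l' t').card := by
      rw [above, filter_erase]
      exact card_erase_add_one (mem_filter.mpr ⟨mem_range.mpr ht, le_rfl⟩)
    rw [← h3] at h2
    push_cast at h2
    linarith
  · obtain ⟨h0, h0', h1⟩ := h i _ (hmem t ht)
    have h2 := le_card_of_mem
      (S := ((range D).erase t).filter fun t' : ℕ => v' i * t - l' t ≤ v' i * t' - l' t')
      (A := M * lo i ((t + ξ) / M) - ξ) (B := M * hi i ((t + ξ) / M) - ξ)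
      (by linarith [mul_le_mul_of_nonneg_left h0 hM.le]) (fun s h3 h4 => by
        have h5 : s < D := by
          have : (s : ℝ) < D := by linarith [mul_le_mul_of_nonneg_left h0' hM.le]
          exact_mod_cast this
        have h6 := hv' i s h5 t ht ((h1 _ (hmem s h5)).2 (by rw [lt_div_iff₀ hM]; linarith)
          (by rw [div_lt_iff₀ hM]; linarith))
        exact mem_filter.mpr ⟨mem_erase.mpr ⟨by rintro rfl; exact lt_irrefl _ h6,
          mem_range.mpr h5⟩, h6.le⟩)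
    unfold above
    linarith

theorem good_of_fill {n m D : ℕ} {a : ℕ → ℕ} {ξ A B : ℝ} (hm : 0 < m) {S₁ S₂ : ℝ → ℝ}
    (h : Fill ((range D).image fun t : ℕ => (t + ξ) / m) A B n S₁ S₂)
    (ha : ∀ t < D, (a t : ℝ) ≤ m * (n - S₂ ((t + ξ) / m))) :
    Good (fun _ : Fin n => m) (tr D a) univ 0 := by
  have hm' : (0 : ℝ) < m := by exact_mod_cast hm
  obtain ⟨l, v, σ, -, h1, -, h2⟩ := fill_int hm' h
  refine good_of_cert (lam := l) (v := v) fun t ht => ?_
  have h3 : m * (n - ∑ i, min 1 (σ i t)) ≤ ((∑ i, (m - above D l (v i) t) : ℕ) : ℝ) := by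
    have : (n : ℝ) = ∑ _i : Fin n, (1 : ℝ) := by simp
    rw [this, ← sum_sub_distrib, mul_sum, Nat.cast_sum]
    refine sum_le_sum fun i _ => ?_
    rcases le_total 1 (σ i t) with h4 | h4
    · rw [min_eq_left h4, sub_self, mul_zero]
      exact Nat.cast_nonneg _
    · have h5 : (m : ℝ) ≤ (m - above D l (v i) t : ℕ) + above D l (v i) t := by
        exact_mod_cast (by omega : m ≤ m - above D l (v i) t + above D l (v i) t)
      rw [min_eq_right h4]
      linarith [h1 i t ht]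
  have h4 := mul_le_mul_of_nonneg_left (h2 t ht).2 hm'.le
  have : (a t : ℝ) ≤ ((∑ i, (m - above D l (v i) t) : ℕ) : ℝ) := by linarith [ha t ht]
  exact_mod_cast this

theorem reg_of_fill {n m D : ℕ} {a : ℕ → ℕ} {ξ A B : ℝ} (hm : m ≤ D) {S₁ S₂ : ℝ → ℝ}
    (h : Fill ((range D).image fun t : ℕ => (t + ξ) / (m + 1)) A B n S₁ S₂)
    (hA : ξ - 1 ≤ (m + 1) * A) (hB : (m + 1) * B ≤ D + ξ)
    (ha : ∀ t < D, (m + 1) * (n - S₁ ((t + ξ) / (m + 1))) ≤ a t) :
    Good (fun _ : Fin n => m) (tr D a) univ (∑ t ∈ range D, a t - n * tri m) := by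
  have hm' : (0 : ℝ) < m + 1 := by positivity
  obtain ⟨l, v, σ, h0, -, h1, h2⟩ := fill_int hm' h
  have h3 : ∀ t < D, ∑ i, (m - above D l (v i) t) ≤ a t := by
    intro t ht
    have h3 : ((∑ i, (m - above D l (v i) t) : ℕ) : ℝ) ≤ (m + 1) * (n - ∑ i, min 1 (σ i t)) := by
      have : (n : ℝ) = ∑ _i : Fin n, (1 : ℝ) := by simp
      rw [this, ← sum_sub_distrib, mul_sum, Nat.cast_sum]
      refine sum_le_sum fun i _ => ?_
      have h4 := h1 hA hB i t ht
      rcases le_total m (above D l (v i) t) with h5 | h5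
      · rw [Nat.sub_eq_zero_of_le h5, Nat.cast_zero]
        exact mul_nonneg hm'.le (sub_nonneg.mpr (min_le_left _ _))
      · have h6 : (above D l (v i) t : ℝ) ≤ m := by exact_mod_cast h5
        rw [Nat.cast_sub h5, min_eq_right (le_of_mul_le_mul_left (by linarith) hm')]
        linarith
    have h4 := mul_le_mul_of_nonneg_left (h2 t ht).1 hm'.le
    have : ((∑ i, (m - above D l (v i) t) : ℕ) : ℝ) ≤ a t := by linarith [ha t ht]
    exact_mod_cast this
  refine good_extra (a := fun t => ∑ i, (m - above D l (v i) t))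
    (good_of_cert (lam := l) (v := v) fun t _ => le_rfl) ?_
  have h4 : ∑ t ∈ range D, ∑ i, (m - above D l (v i) t) = n * tri m := by
    rw [sum_comm, sum_congr rfl fun i _ => sum_above hm (h0 i)]
    simp
  have h5 : ∑ t ∈ range D, (a t - ∑ i, (m - above D l (v i) t)) +
      ∑ t ∈ range D, ∑ i, (m - above D l (v i) t) = ∑ t ∈ range D, a t := by
    rw [← sum_add_distrib]
    exact sum_congr rfl fun t ht => Nat.sub_add_cancel (h3 t (mem_range.mp ht))
  omega

theorem exists_shift (D : ℕ) (M : ℝ) (hM : 0 < M) (T : Finset ℝ) {u v : ℝ} (h : u < v) :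
    ∃ ξ, u < ξ ∧ ξ < v ∧ ∀ t < D, ((t : ℝ) + ξ) / M ∉ T := by
  classical
  obtain ⟨ξ, h1, h2⟩ := (Set.Ioo_infinite h).exists_notMem_finset
    ((T ×ˢ range D).image fun z => z.1 * M - z.2)
  refine ⟨ξ, h1.1, h1.2, fun t ht hT => h2 (mem_image.mpr
    ⟨((t + ξ) / M, t), mem_product.mpr ⟨hT, mem_range.mpr ht⟩, ?_⟩)⟩
  field_simp
  ring

end Pool.Agent.Lib.MP_6e81d8_ag.H16
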