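import Mathlib

/-!
Real weights on a finite set of rows: nested intervals realised by linear forms.
-/

set_option autoImplicit false

namespace Pool.Agent.Lib.MP_6e81d8_ag.H16

open Finset Filter Topology

/-- The weights `lam`, `v` rank the rows so that the rows above `t` fill `[lo t, hi t]`. -/
def Ranks (R : Finset ℝ) (a b : ℝ) (lam : ℝ → ℝ) (v : ℝ) (lo hi : ℝ → ℝ) : Prop :=
  ∀ t ∈ R, a ≤ lo t ∧ hi t ≤ b ∧ ∀ t' ∈ R,
    ((t' < lo t ∨ hi t < t') → v * t' - lam t' < v * t - lam t) ∧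
    (lo t < t' → t' < hi t → v * t - lam t < v * t' - lam t')

/-- There are `y` points whose truncated interval lengths add up to between `S₁` and `S₂`. -/
def Fill (R : Finset ℝ) (a b : ℝ) (y : ℕ) (S₁ S₂ : ℝ → ℝ) : Prop :=
  ∃ (lam : ℝ → ℝ) (v : Fin y → ℝ) (lo hi : Fin y → ℝ → ℝ),
    (∀ i, Ranks R a b lam (v i) (lo i) (hi i)) ∧
    ∀ t ∈ R, S₁ t ≤ ∑ i, min 1 (hi i t - lo i t) ∧ ∑ i, min 1 (hi i t - lo i t) ≤ S₂ t

theorem Fill.mono {R : Finset ℝ} {a b : ℝ} {y : ℕ} {S₁ S₂ T₁ T₂ : ℝ → ℝ} (h : Fill R a b y S₁ S₂)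
    (h1 : ∀ t ∈ R, T₁ t ≤ S₁ t) (h2 : ∀ t ∈ R, S₂ t ≤ T₂ t) : Fill R a b y T₁ T₂ := by
  obtain ⟨lam, v, lo, hi, h, h'⟩ := h
  exact ⟨lam, v, lo, hi, h, fun t ht => ⟨(h1 t ht).trans (h' t ht).1, (h' t ht).2.trans (h2 t ht)⟩⟩

theorem fill_zero (R : Finset ℝ) (a b : ℝ) : Fill R a b 0 (fun _ => 0) (fun _ => 0) :=
  ⟨fun _ => 0, Fin.elim0, Fin.elim0, Fin.elim0, fun i => i.elim0, fun _ _ => by simp⟩

theorem fill_empty (a b : ℝ) (y : ℕ) (S₁ S₂ : ℝ → ℝ) : Fill ∅ a b y S₁ S₂ :=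
  ⟨fun _ => 0, fun _ => 0, fun _ _ => 0, fun _ _ => 0, fun _ _ h => by simp at h,
    fun _ h => by simp at h⟩

/-- Lexicographic combination of two systems of weights. -/
theorem lex {ι : Type} [Finite ι] (R : Finset ℝ) (l₀ l₁ : ℝ → ℝ) (v₀ v₁ : ι → ℝ) :
    ∃ (l : ℝ → ℝ) (v : ι → ℝ), ∀ i, ∀ t ∈ R, ∀ t' ∈ R,
      (v₀ i * t' - l₀ t' < v₀ i * t - l₀ t ∨
        (v₀ i * t' - l₀ t' ≤ v₀ i * t - l₀ t ∧ v₁ i * t' - l₁ t' < v₁ i * t - l₁ t)) →
      v i * t' - l t' < v i * t - l t := by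
  have h : ∀ᶠ ε in 𝓝[>] (0 : ℝ), ∀ i, ∀ t ∈ R, ∀ t' ∈ R,
      v₀ i * t' - l₀ t' < v₀ i * t - l₀ t →
      (v₀ i + ε * v₁ i) * t' - (l₀ t' + ε * l₁ t') < (v₀ i + ε * v₁ i) * t - (l₀ t + ε * l₁ t) := by
    rw [eventually_all]
    intro i
    rw [eventually_all_finset]
    intro t _
    rw [eventually_all_finset]
    intro t' _
    by_cases hh : v₀ i * t' - l₀ t' < v₀ i * t - l₀ t
    · apply Eventually.filter_mono nhdsWithin_le_nhds
      have : ∀ᶠ ε in 𝓝 (0 : ℝ), (v₀ i + ε * v₁ i) * t' - (l₀ t' + ε * l₁ t') <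
          (v₀ i + ε * v₁ i) * t - (l₀ t + ε * l₁ t) :=
        ContinuousAt.eventually_lt (by fun_prop) (by fun_prop) (by simpa using hh)
      exact this.mono fun _ h _ => h
    · exact Eventually.of_forall fun _ h => absurd h hh
  obtain ⟨ε, hε, hε0⟩ := (h.and self_mem_nhdsWithin).exists
  have hε1 : (0 : ℝ) < ε := hε0
  refine ⟨fun t => l₀ t + ε * l₁ t, fun i => v₀ i + ε * v₁ i, fun i t ht t' ht' hh => ?_⟩
  rcases hh with hh | ⟨h1, h2⟩
  · exact hε i t ht t' ht' hh
  · have := mul_lt_mul_of_pos_left h2 hε1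
    nlinarith

theorem Fill.affine {R : Finset ℝ} {a b : ℝ} {y : ℕ} {S₁ S₂ : ℝ → ℝ} (z : ℝ)
    (h : Fill (R.image fun t => t - z) (a - z) (b - z) y S₁ S₂) :
    Fill R a b y (fun t => S₁ (t - z)) (fun t => S₂ (t - z)) := by
  obtain ⟨lam, v, lo, hi, h, h'⟩ := h
  refine ⟨fun t => lam (t - z), v, fun i t => lo i (t - z) + z, fun i t => hi i (t - z) + z,
    fun i t ht => ?_, fun t ht => ?_⟩
  · obtain ⟨h1, h2, h3⟩ := h i (t - z) (mem_image_of_mem _ ht)
    refine ⟨by linarith, by linarith, fun t' ht' => ?_⟩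
    obtain ⟨h4, h5⟩ := h3 (t' - z) (mem_image_of_mem _ ht')
    refine ⟨fun hh => ?_, fun h6 h7 => ?_⟩
    · have := h4 (hh.imp (fun _ => by linarith) (fun _ => by linarith))
      nlinarith
    · have := h5 (by linarith) (by linarith)
      nlinarith
  · simpa using h' (t - z) (mem_image_of_mem _ ht)

theorem Fill.mirror {R : Finset ℝ} {a b : ℝ} {y : ℕ} {S₁ S₂ : ℝ → ℝ} (z : ℝ)
    (h : Fill (R.image fun t => z - t) (z - b) (z - a) y S₁ S₂) :
    Fill R a b y (fun t => S₁ (z - t)) (fun t => S₂ (z - t)) := by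
  obtain ⟨lam, v, lo, hi, h, h'⟩ := h
  refine ⟨fun t => lam (z - t), fun i => -v i, fun i t => z - hi i (z - t),
    fun i t => z - lo i (z - t), fun i t ht => ?_, fun t ht => ?_⟩
  · obtain ⟨h1, h2, h3⟩ := h i (z - t) (mem_image_of_mem _ ht)
    refine ⟨by linarith, by linarith, fun t' ht' => ?_⟩
    obtain ⟨h4, h5⟩ := h3 (z - t') (mem_image_of_mem _ ht')
    refine ⟨fun hh => ?_, fun h6 h7 => ?_⟩
    · have := h4 (hh.symm.imp (fun _ => by linarith) (fun _ => by linarith))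
      nlinarith
    · have := h5 (by linarith) (by linarith)
      nlinarith
  · have := h' (z - t) (mem_image_of_mem _ ht)
    simpa only [sub_sub_sub_cancel_left] using this

theorem exists_big {ι : Type} [Finite ι] (R : Finset ℝ) (l : ℝ → ℝ) (v : ι → ℝ) :
    ∃ M : ℝ, ∀ i, ∀ t ∈ R, ∀ t' ∈ R, v i * t' - M < v i * t - l t := by
  have h : ∀ᶠ M in (atTop : Filter ℝ), ∀ i, ∀ t ∈ R, ∀ t' ∈ R, v i * t' - M < v i * t - l t := by
    rw [eventually_all]
    intro i
    rw [eventually_all_finset]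
    intro t _
    rw [eventually_all_finset]
    intro t' _
    exact (eventually_gt_atTop (v i * t' - v i * t + l t)).mono fun M hM => by linarith
  exact h.exists

/-- Two adjacent windows; each point covers its own window and then the other one. -/
theorem join {R : Finset ℝ} {a c b : ℝ} (hR : ∀ t ∈ R, a < t ∧ t < b ∧ t ≠ c) (hac : a ≤ c)
    (hcb : c ≤ b) {y₁ y₂ : ℕ} {S₁ S₂ T₁ T₂ : ℝ → ℝ}
    (h₁ : Fill (R.filter (· < c)) a c y₁ S₁ S₂) (h₂ : Fill (R.filter (c < ·)) c b y₂ T₁ T₂) :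
    Fill R a b (y₁ + y₂)
      (fun t => if t < c then S₁ t + y₂ * min 1 (b - t) else T₁ t + y₁ * min 1 (t - a))
      (fun t => if t < c then S₂ t + y₂ * min 1 (b - t) else T₂ t + y₁ * min 1 (t - a)) := by
  classical
  obtain ⟨l₁, v₁, lo₁, hi₁, h₁, h₁'⟩ := h₁
  obtain ⟨l₂, v₂, lo₂, hi₂, h₂, h₂'⟩ := h₂
  obtain ⟨l, v, hl⟩ := lex R (fun t => if t < c then 0 else t - c)
    (fun t => if t < c then l₁ t else l₂ t)
    (Fin.addCases (fun _ : Fin y₁ => (0 : ℝ)) (fun _ : Fin y₂ => (1 : ℝ)))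
    (Fin.addCases v₁ v₂)
  refine ⟨l, v,
    Fin.addCases (fun i t => if t < c then lo₁ i t else a) (fun i t => if t < c then t else lo₂ i t),
    Fin.addCases (fun i t => if t < c then hi₁ i t else t) (fun i t => if t < c then b else hi₂ i t),
    ?_, fun t ht => ?_⟩
  · refine Fin.addCases (fun i t ht => ?_) (fun i t ht => ?_)
    · simp only [Fin.addCases_left]
      obtain ⟨ha, hb, hc⟩ := hR t ht
      by_cases htc : t < c
      · obtain ⟨h3, h4, h5⟩ := h₁ i t (mem_filter.mpr ⟨ht, htc⟩)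
        simp only [htc, if_true]
        refine ⟨h3, by linarith, fun t' ht' => ?_⟩
        obtain ⟨ha', hb', hc'⟩ := hR t' ht'
        by_cases htc' : t' < c
        · obtain ⟨h6, h7⟩ := h5 t' (mem_filter.mpr ⟨ht', htc'⟩)
          exact ⟨fun hh => hl _ t ht t' ht' (Or.inr (by simpa [htc, htc'] using h6 hh)),
            fun h8 h9 => hl _ t' ht' t ht (Or.inr (by simpa [htc, htc'] using h7 h8 h9))⟩
        · have : c < t' := lt_of_le_of_ne (not_lt.mp htc') hc'.symm
          exact ⟨fun _ => hl _ t ht t' ht' (Or.inl (by simpa [htc, htc'] using this)),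
            fun _ _ => by linarith⟩
      · have hct : c < t := lt_of_le_of_ne (not_lt.mp htc) hc.symm
        simp only [htc, if_false]
        refine ⟨le_rfl, hb.le, fun t' ht' => ?_⟩
        obtain ⟨ha', hb', hc'⟩ := hR t' ht'
        refine ⟨fun hh => hl _ t ht t' ht' (Or.inl ?_), fun _ h9 => hl _ t' ht' t ht (Or.inl ?_)⟩
        · have h8 : t < t' := hh.resolve_left (by linarith)
          have htc' : ¬ t' < c := by linarith
          simpa [htc, htc'] using h8
        · by_cases htc' : t' < c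
          · simpa [htc, htc'] using hct
          · simpa [htc, htc'] using h9
    · simp only [Fin.addCases_right]
      obtain ⟨ha, hb, hc⟩ := hR t ht
      by_cases htc : t < c
      · simp only [htc, if_true]
        refine ⟨ha.le, le_rfl, fun t' ht' => ?_⟩
        obtain ⟨ha', hb', hc'⟩ := hR t' ht'
        refine ⟨fun hh => hl _ t ht t' ht' (Or.inl ?_), fun h8 _ => hl _ t' ht' t ht (Or.inl ?_)⟩
        · have h8 : t' < t := hh.resolve_right (by linarith)
          have htc' : t' < c := by linarith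
          simpa [htc, htc'] using h8
        · by_cases htc' : t' < c
          · simpa [htc, htc'] using h8
          · simp [htc, htc']
      · have hct : c < t := lt_of_le_of_ne (not_lt.mp htc) hc.symm
        obtain ⟨h3, h4, h5⟩ := h₂ i t (mem_filter.mpr ⟨ht, hct⟩)
        simp only [htc, if_false]
        refine ⟨by linarith, h4, fun t' ht' => ?_⟩
        obtain ⟨ha', hb', hc'⟩ := hR t' ht'
        by_cases htc' : t' < c
        · exact ⟨fun _ => hl _ t ht t' ht' (Or.inl (by simp [htc, htc'])),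
            fun _ _ => by linarith⟩
        · have : c < t' := lt_of_le_of_ne (not_lt.mp htc') hc'.symm
          obtain ⟨h6, h7⟩ := h5 t' (mem_filter.mpr ⟨ht', this⟩)
          exact ⟨fun hh => hl _ t ht t' ht' (Or.inr (by simpa [htc, htc'] using h6 hh)),
            fun h8 h9 => hl _ t' ht' t ht (Or.inr (by simpa [htc, htc'] using h7 h8 h9))⟩
  · obtain ⟨ha, hb, hc⟩ := hR t ht
    simp only [Fin.sum_univ_add, Fin.addCases_left, Fin.addCases_right]
    by_cases htc : t < c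
    · have := h₁' t (mem_filter.mpr ⟨ht, htc⟩)
      simp only [htc, if_true, sum_const, card_univ, Fintype.card_fin, nsmul_eq_mul]
      constructor <;> linarith [this.1, this.2]
    · have := h₂' t (mem_filter.mpr ⟨ht, lt_of_le_of_ne (not_lt.mp htc) hc.symm⟩)
      simp only [htc, if_false, sum_const, card_univ, Fintype.card_fin, nsmul_eq_mul]
      constructor <;> linarith [this.1, this.2]

/-- Points that cover the window upwards. -/
theorem Fill.addA {R : Finset ℝ} {a b : ℝ} (hR : ∀ t ∈ R, a < t ∧ t < b) (hab : a ≤ b) {y : ℕ}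
    {S₁ S₂ : ℝ → ℝ} (h : Fill R a b y S₁ S₂) (x : ℕ) :
    Fill R a b (x + y) (fun t => S₁ t + x * min 1 (t - a)) (fun t => S₂ t + x * min 1 (t - a)) := by
  have h1 : R.filter (· < a) = ∅ := filter_eq_empty_iff.mpr fun t ht => by linarith [(hR t ht).1]
  have h2 : R.filter (a < ·) = R := filter_eq_self.mpr fun t ht => (hR t ht).1
  have := join (R := R) (a := a) (c := a) (b := b)
    (fun t ht => ⟨(hR t ht).1, (hR t ht).2, (hR t ht).1.ne'⟩) le_rfl hab
    (h1 ▸ fill_empty a a x S₁ S₂) (h2.symm ▸ h)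
  refine this.mono (fun t ht => ?_) (fun t ht => ?_) <;>
    simp [show ¬ t < a by linarith [(hR t ht).1]]

/-- Points that cover the window downwards. -/
theorem Fill.addB {R : Finset ℝ} {a b : ℝ} (hR : ∀ t ∈ R, a < t ∧ t < b) (hab : a ≤ b) {y : ℕ}
    {S₁ S₂ : ℝ → ℝ} (h : Fill R a b y S₁ S₂) (x : ℕ) :
    Fill R a b (y + x) (fun t => S₁ t + x * min 1 (b - t)) (fun t => S₂ t + x * min 1 (b - t)) := by
  have h1 : R.filter (· < b) = R := filter_eq_self.mpr fun t ht => (hR t ht).2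
  have h2 : R.filter (b < ·) = ∅ := filter_eq_empty_iff.mpr fun t ht => by linarith [(hR t ht).2]
  have := join (R := R) (a := a) (c := b) (b := b)
    (fun t ht => ⟨(hR t ht).1, (hR t ht).2, (hR t ht).2.ne⟩) hab le_rfl
    (h1.symm ▸ h) (h2 ▸ fill_empty b b x S₁ S₂)
  refine this.mono (fun t ht => ?_) (fun t ht => ?_) <;> simp [(hR t ht).2]

theorem escape {Φ : ℝ → ℝ} (hΦ : StrictMono Φ) (sΦ : Function.Surjective Φ) {q u : ℝ}
    (h : ∀ z, u ≤ z → z ≤ q → z < Φ z) (hq : q < Φ q) : ∀ᶠ N in atTop, q ≤ Φ^[N] u := by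
  have hstay : ∀ N, q ≤ Φ^[N] u → ∀ M, N ≤ M → q ≤ Φ^[M] u := by
    intro N hN M hM
    induction M, hM using Nat.le_induction with
    | base => exact hN
    | succ M _ ih =>
      rw [Function.iterate_succ_apply']
      exact hq.le.trans (hΦ.monotone ih)
  by_contra hcon
  have hlt : ∀ N, Φ^[N] u < q := by
    intro N
    by_contra hN
    exact hcon (eventually_atTop.mpr ⟨N, hstay N (not_lt.mp hN)⟩)
  have hge : ∀ N, u ≤ Φ^[N] u := by
    intro N
    induction N with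
    | zero => exact le_rfl
    | succ N ih =>
      rw [Function.iterate_succ_apply']
      exact ih.trans (h _ ih (hlt N).le).le
  have hmono : Monotone fun N => Φ^[N] u := monotone_nat_of_le_succ fun N => by
    rw [Function.iterate_succ_apply']
    exact (h _ (hge N) (hlt N).le).le
  have hbdd : BddAbove (Set.range fun N => Φ^[N] u) := ⟨q, by
    rintro _ ⟨N, rfl⟩
    exact (hlt N).le⟩
  have hlim := tendsto_atTop_ciSup hmono hbdd
  have hc : Continuous Φ := (hΦ.orderIsoOfSurjective Φ sΦ).continuous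
  have hfix := isFixedPt_of_tendsto_iterate hlim hc.continuousAt
  have h1 : u ≤ ⨆ N, Φ^[N] u := le_ciSup hbdd 0
  have h2 : ⨆ N, Φ^[N] u ≤ q := ciSup_le fun N => (hlt N).le
  exact (h _ h1 h2).ne hfix.symm

end Pool.Agent.Lib.MP_6e81d8_ag.H16
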