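import Pool.Agent.Lib.MP_6e81d8_ag.H16.Cycle

/-!
The first run of the cascade, and the resulting theorem for a window with two defects.
-/

set_option autoImplicit false

namespace Pool.Agent.Lib.MP_6e81d8_ag.H16

/-- Continuity and the area identity for a window with defects `Δ` and `Z`. -/
def InvD (Y β t w k Δ Z : ℝ) : Prop :=
  Z + (t + Y) * w = Δ + (Y + β) * k ∧
    2 * Z * w + t * w ^ 2 + 2 * Δ * k + β * k ^ 2 - 2 * Y * w * k = 0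

theorem invD {Y₁ x β s q w k k' t Δ Z : ℝ} (hβ : β ≠ 0) (hY : Y₁ ≠ 0) (hx : x ≠ 0) (hs : s ≠ 0)
    (et : t = Y₁ * (Y₁ + x * s) / β) (ek : k = k' + (Z + t * q) / Y₁)
    (ew : w = (Δ + β * Z / Y₁) / x + s * q - k') (h : InvD (Y₁ + x) β t w k Δ Z) :
    Inv Y₁ (β + 2 * x + x * (x + Y₁ / s) / β) t (w - q) k'
      (x * Y₁ / (β * s) * (w - (Δ + β * Z / Y₁) / x) ^ 2 + x ^ 2 / β * (w - Δ / x) ^ 2)
      (x * Y₁ / (β * s) * (w - (Δ + β * Z / Y₁) / x) + x ^ 2 / β * (w - Δ / x)) := by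
  obtain ⟨i1, i2⟩ := h
  constructor
  · rw [← sub_eq_zero] at i1 ⊢
    rw [← neg_eq_zero, ← i1, ek, ew, et]
    field_simp
    ring
  · rw [← i2, ek, ew, et]
    field_simp
    ring

theorem shapeD {Y β t w k Δ Z : ℝ} (h : InvD Y β t w k Δ Z) (hw : 0 < w) (hk : 0 ≤ k) (hΔ : 0 ≤ Δ)
    (hZ : 0 ≤ Z) : 0 ≤ Y * w - β * k ∧ Y * w - β * k ≤ Z + 2 * Δ := by
  obtain ⟨h1, h2⟩ := h
  have h3 : (Y * w - β * k) * (w + k) = Z * w + Δ * (w + 2 * k) := by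
    linear_combination w * h1 - h2
  have h4 : 0 < w + k := by linarith
  have h5 := mul_nonneg hZ hk
  have h6 := mul_nonneg hZ hw.le
  have h7 := mul_nonneg hΔ hk
  have h8 := mul_nonneg hΔ hw.le
  exact ⟨le_of_mul_le_mul_right (by linarith) h4, le_of_mul_le_mul_right (by linarith) h4⟩

theorem slopeD {X Y₁ x β s w k t Δ Z r : ℝ} (hX : 0 < X) (hY : 10 ^ 7 * X ≤ Y₁) (hβ : β ≠ 0)
    (hx1 : X / 3 ≤ x) (hx2 : x ≤ X) (hw : 0 < w) (hΔ : 0 ≤ Δ) (d2 : Δ ≤ 2 * X * w / 5)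
    (s1 : 0 ≤ (Y₁ + x) * w - β * k) (s2 : (Y₁ + x) * w - β * k ≤ 3 * Δ)
    (et : t = Y₁ * (Y₁ + x * s) / β) (er : r = w - (Δ + β * Z / Y₁) / x)
    (h : InvD (Y₁ + x) β t w k Δ Z) :
    2 * r - w / 100000 ≤ s * w ∧ s * w ≤ 2 * r + w / 100000 := by
  have hY0 : 0 < Y₁ := by linarith
  have hx0 : 0 < x := by linarith
  obtain ⟨δ, hδ⟩ : ∃ δ, δ = (Y₁ + x) * w - β * k := ⟨_, rfl⟩
  have h1 : (s * w - 2 * r) * (x * Y₁ * w) = (x * w) ^ 2 - 2 * Δ * (x * w) + 2 * Δ * δ - δ ^ 2 := by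
    have h2 := h.2
    have h3 : β * t = Y₁ * (Y₁ + x * s) := by rw [et]; field_simp
    have h4 : r * (x * Y₁) = w * x * Y₁ - (Δ * Y₁ + β * Z) := by rw [er]; field_simp
    rw [hδ]
    linear_combination β * h2 - w ^ 2 * h3 - 2 * w * h4
  rw [← hδ] at s1 s2
  have hXw : 0 < X * w := by positivity
  have u1 : x * w ≤ X * w := mul_le_mul_of_nonneg_right hx2 hw.le
  have u2 : 0 ≤ x * w := by positivity
  have u3 : (x * w) ^ 2 ≤ (X * w) ^ 2 := pow_le_pow_left₀ u2 u1 2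
  have u4 : Δ * (x * w) ≤ 2 * X * w / 5 * (X * w) := mul_le_mul d2 u1 u2 (by linarith)
  have u5 : Δ * δ ≤ 2 * X * w / 5 * (6 * X * w / 5) := mul_le_mul d2 (by linarith) s1 (by linarith)
  have u6 : δ ^ 2 ≤ (6 * X * w / 5) ^ 2 := pow_le_pow_left₀ s1 (by linarith) 2
  have u7 : X / 3 * (10 ^ 7 * X) ≤ x * Y₁ := mul_le_mul hx1 hY (by positivity) hx0.le
  have u8 := mul_le_mul_of_nonneg_right u7 (sq_nonneg w)
  have u9 : 0 < x * Y₁ * w := by positivity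
  have u10 := mul_nonneg hΔ s1
  have u11 := mul_nonneg hΔ u2
  have u12 := sq_nonneg (x * w)
  have u13 := sq_nonneg δ
  have u14 := sq_nonneg (X * w)
  exact ⟨le_of_mul_le_mul_right (by linarith) u9, le_of_mul_le_mul_right (by linarith) u9⟩

theorem pickD {X w Δ : ℝ} (hX : 10 ^ 8 ≤ X) (hw : 0 < w) (d1 : X * w / 5 ≤ Δ)
    (d2 : Δ ≤ 2 * X * w / 5) :
    ∃ x : ℕ, 0.342 * X ≤ x ∧ x ≤ 0.69 * X ∧ 0.5839 * w ≤ Δ / x ∧ Δ / x ≤ 0.584 * w := by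
  have hX0 : 0 < X := by linarith [show (0 : ℝ) < 10 ^ 8 by norm_num]
  have hXw : 0 < X * w := by positivity
  obtain ⟨z, hz⟩ : ∃ z, z * (0.584 * w) = Δ := ⟨Δ / (0.584 * w), by field_simp⟩
  have h0 : 0 < 0.584 * w := by linarith
  have h1 : 0.342 * X ≤ z := le_of_mul_le_mul_right (by linarith) h0
  have h2 : z ≤ 0.685 * X := le_of_mul_le_mul_right (by linarith) h0
  have h3 := Nat.le_ceil z
  have h4 := Nat.ceil_lt_add_one (by linarith : 0 ≤ z)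
  have h5 : (0 : ℝ) < ⌈z⌉₊ := by linarith
  refine ⟨⌈z⌉₊, by linarith, by linarith, ?_, ?_⟩
  · rw [le_div_iff₀ h5]
    linarith [mul_le_mul_of_nonneg_right (by linarith : 0.5839 * (⌈z⌉₊ : ℝ) ≤ 0.584 * z) hw.le]
  · rw [div_le_iff₀ h5]
    linarith [mul_le_mul_of_nonneg_right h3 h0.le]

theorem first {X : ℝ} (hX : 10 ^ 8 ≤ X) {Y : ℕ} (hY : 10 ^ 7 * X + X ≤ Y) {c t w k Δ Z : ℝ}
    (hc : 100000 ≤ c) (hw : 0 < w) (hk : 0 ≤ k) (hwk : w + k ≤ 1) (hI : InvD Y (c * Y) t w k Δ Z)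
    (d1 : X * w / 5 ≤ Δ) (d2 : Δ ≤ 2 * X * w / 5) (z1 : 0.32 * Δ ≤ c * Z) (z2 : c * Z ≤ 0.39 * Δ) :
    ∃ (Y' : ℕ) (c' w' k' κ₁ r₁ κ₂ r₂ : ℝ), Y' ≤ Y ∧ Y ≤ Y' + X ∧
      Stage X Y' c' t w' k' κ₁ r₁ κ₂ r₂ ∧ w' ≤ w ∧
      ∀ err, 0 ≤ err → G2 err Y' c' t w' k' κ₁ r₁ κ₂ r₂ →
        Goal err Y w k (prof Y (c * Y) t w k Δ Z fun _ => 0) := by
  have hX0 : 0 < X := by linarith [show (0 : ℝ) < 10 ^ 8 by norm_num]
  have hXw : 0 < X * w := by positivity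
  have hc0 : 0 < c := by linarith
  have hΔ : 0 < Δ := by linarith
  have hZ : 0 ≤ Z := nonneg_of_mul_nonneg_right (by linarith) hc0
  have hZ1 : Z ≤ Δ := by linarith [mul_le_mul_of_nonneg_right hc hZ]
  obtain ⟨s1, s2⟩ := shapeD hI hw hk hΔ.le hZ
  obtain ⟨x, x1, x2, f1, f2⟩ := pickD hX hw d1 d2
  have hxY : x ≤ Y := by
    have : (x : ℝ) ≤ Y := by linarith
    exact_mod_cast this
  obtain ⟨Y₁, rfl⟩ := Nat.exists_eq_add_of_le' hxY
  rw [Nat.cast_add] at hY hI s1 s2 ⊢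
  have hx0 : (0 : ℝ) < x := by linarith
  have hY1 : (0 : ℝ) < Y₁ := by linarith
  obtain ⟨β, hβ⟩ : ∃ β, β = c * (Y₁ + x : ℝ) := ⟨_, rfl⟩
  rw [← hβ] at hI s1 s2 ⊢
  have hβ0 : 0 < β := by rw [hβ]; positivity
  obtain ⟨s, et⟩ : ∃ s, t = Y₁ * (Y₁ + x * s) / β := ⟨(β * t / Y₁ - Y₁) / x, by field_simp; ring⟩
  obtain ⟨r₁, er₁⟩ : ∃ r₁, r₁ = w - (Δ + β * Z / Y₁) / x := ⟨_, rfl⟩
  have g1 : 0.32 * Δ ≤ β * Z / Y₁ := by
    rw [le_div_iff₀ hY1, hβ]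
    linarith [mul_le_mul z1 (by linarith : (Y₁ : ℝ) ≤ Y₁ + x) hY1.le (by linarith)]
  have g2 : β * Z / Y₁ ≤ 0.3901 * Δ := by
    rw [div_le_iff₀ hY1, hβ]
    linarith [mul_le_mul z2 (by linarith : (Y₁ : ℝ) + x ≤ 1.0001 * Y₁) (by linarith) (by linarith),
      mul_pos hΔ hY1]
  have g3 : 1.32 * (Δ / x) ≤ (Δ + β * Z / Y₁) / x := by
    rw [← mul_div_assoc]
    exact div_le_div_of_nonneg_right (by linarith) hx0.le
  have g4 : (Δ + β * Z / Y₁) / x ≤ 1.3901 * (Δ / x) := by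
    rw [← mul_div_assoc]
    exact div_le_div_of_nonneg_right (by linarith) hx0.le
  have a1 : 0.188 * w ≤ r₁ := by linarith
  have a2 : r₁ ≤ 0.2293 * w := by linarith
  obtain ⟨s3, s4⟩ := slopeD hX0 (by linarith) hβ0.ne' (by linarith) (by linarith) hw hΔ.le d2 s1
    (by linarith) et er₁ hI
  have s5 : 0.375 ≤ s := le_of_mul_le_mul_right (by linarith) hw
  have s6 : s ≤ 0.459 := le_of_mul_le_mul_right (by linarith) hw
  have hs0 : 0 < s := by linarith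
  have s7 := mul_le_mul_of_nonneg_right s5 hw.le
  have q1 : ∀ z, r₁ ≤ z → 0.4999 * w ≤ z / s := fun z hz => by
    rw [le_div_iff₀ hs0]
    linarith
  have q2 : ∀ z, z ≤ r₁ + w / 100000 → z / s ≤ 0.5001 * w := fun z hz => by
    rw [div_le_iff₀ hs0]
    linarith
  have q3 := mul_le_mul_of_nonneg_left (q1 r₁ le_rfl) hY1.le
  have q4 := mul_le_mul_of_nonneg_left (q2 r₁ (by linarith)) hY1.le
  have q5 := mul_le_mul_of_nonneg_right (by linarith : 10 * X ≤ Y₁) hw.le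
  obtain ⟨c', hc', hc1, hc2⟩ := beta_bound hx0 (by linarith) hc hβ (by linarith : 1 / 10 ≤ s)
  obtain ⟨k', hk0, hk1, ek⟩ := peak (k := k) (r := w) (r' := r₁) (E := Δ) hx0 hY1
    (show 100000 * (Y₁ : ℝ) ≤ β by
      linarith [mul_le_mul hc (by linarith : (Y₁ : ℝ) ≤ Y₁ + x) hY1.le hc0.le]) hs0 hw
    (by linarith) (by linarith)
  obtain ⟨q, hq⟩ : ∃ q, q = (r₁ + k') / s := ⟨_, rfl⟩
  have q6 := q1 (r₁ + k') (by linarith)
  have q7 := q2 (r₁ + k') (by linarith)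
  rw [← hq] at ek q6 q7
  have ew : w = (Δ + β * Z / Y₁) / x + s * q - k' := by
    rw [hq, mul_div_cancel₀ _ hs0.ne', er₁]
    ring
  have ek' : k = k' + (Z + t * q) / Y₁ := by
    have : w + k' = (Δ + β * Z / Y₁) / x + s * q := by linarith
    rw [ek, this, et]
    field_simp
    ring
  have hkk : k' ≤ k := by
    have : 0 ≤ (Z + t * q) / Y₁ := by
      have : 0 < q := by linarith
      rw [et]
      positivity
    linarith
  have hI' := invD hβ0.ne' hY1.ne' hx0.ne' hs0.ne' et ek' ew hI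
  rw [← hc', ← er₁] at hI'
  have k1 : 0 ≤ x * Y₁ / (β * s) := by positivity
  have k2 : 0 ≤ (x : ℝ) ^ 2 / β := by positivity
  have k3 : c * (x * Y₁ / (β * s)) * (s * (Y₁ + x)) = x * Y₁ := by rw [hβ]; field_simp
  have k4 : c * (x ^ 2 / β) * (Y₁ + x) = x ^ 2 := by rw [hβ]; field_simp
  have k5 : 0 < s * (Y₁ + x) := by positivity
  have k6 : X / 2 ≤ c * (x * Y₁ / (β * s)) := le_of_mul_le_mul_right (by
    have u1 := mul_le_mul s6 (by linarith : (Y₁ : ℝ) + x ≤ 1.0001 * Y₁) (by linarith) (by norm_num)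
    linarith [mul_le_mul_of_nonneg_left u1 hX0.le, mul_le_mul_of_nonneg_right x1 hY1.le,
      mul_pos hX0 hY1]) k5
  have k7 : c * (x * Y₁ / (β * s)) ≤ 1.9 * X := le_of_mul_le_mul_right (by
    have u1 := mul_le_mul s5 (by linarith : (Y₁ : ℝ) ≤ Y₁ + x) (by linarith) hs0.le
    linarith [mul_le_mul_of_nonneg_left u1 hX0.le, mul_le_mul_of_nonneg_right x2 hY1.le,
      mul_pos hX0 hY1]) k5
  have k8 : c * (x ^ 2 / β) ≤ X / 1000000 := le_of_mul_le_mul_right (by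
    have u1 : (x : ℝ) ^ 2 ≤ X ^ 2 := pow_le_pow_left₀ hx0.le (by linarith) 2
    linarith [mul_le_mul_of_nonneg_left hY hX0.le, sq_nonneg X]) (by linarith : (0 : ℝ) < Y₁ + x)
  refine ⟨Y₁, c', w - q, k', _, r₁, _, w - Δ / x, Nat.le_add_right _ _, by linarith,
    ⟨⟨by linarith, by linarith, hk0, by linarith, k1, k2, hI'⟩, by linarith, by linarith,
      by linarith, by linarith, ?_, ?_, ?_⟩, by linarith, fun err he h => ?_⟩
  · linarith [mul_le_mul_of_nonneg_right hc1 k1]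
  · linarith [mul_le_mul_of_nonneg_right hc2 k1]
  · linarith [mul_le_mul_of_nonneg_right hc2 k2]
  · exact fillD he (by exact_mod_cast hY1) (by exact_mod_cast hx0) hβ0 hs0 hΔ hZ (by linarith)
      (by linarith) (by linarith) hk0 hwk (by linarith) et ek' ew rfl er₁ rfl hc' rfl rfl h

/-- A window with suitable defects is filled up to an exponentially small error. -/
theorem window {X : ℝ} (hX : 10 ^ 8 ≤ X) (j : ℕ) {Y : ℕ} (hY : 10 ^ 7 * X + X + 12 * X * j ≤ Y)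
    {β t w k Δ Z err : ℝ} (hc : 100000 * Y ≤ β) (hw : 0 < w) (hk : 0 ≤ k) (hwk : w + k ≤ 1)
    (hI : InvD Y β t w k Δ Z) (d1 : X * w / 5 ≤ Δ) (d2 : Δ ≤ 2 * X * w / 5)
    (z1 : 0.32 * Δ * Y ≤ β * Z) (z2 : β * Z ≤ 0.39 * Δ * Y) (he : 4 * Y / 2 ^ j ≤ err) :
    Goal err Y w k (prof Y β t w k Δ Z fun _ => 0) := by
  have hX0 : 0 < X := by linarith [show (0 : ℝ) < 10 ^ 8 by norm_num]
  have hj : 0 ≤ X * j := by positivity
  have hY0 : (0 : ℝ) < Y := by linarith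
  obtain ⟨c, rfl⟩ : ∃ c, β = c * Y := ⟨β / Y, by field_simp⟩
  obtain ⟨Y', c', w', k', κ₁, r₁, κ₂, r₂, y1, y2, h, w1, H⟩ := first hX (by linarith)
    (le_of_mul_le_mul_right hc hY0) hw hk hwk hI d1 d2 (le_of_mul_le_mul_right (by linarith) hY0)
    (le_of_mul_le_mul_right (by linarith) hY0)
  refine H err (le_trans (by positivity) he) (cascade hX j (by linarith) h (le_trans ?_ he))
  have y3 : (Y' : ℝ) ≤ Y := by exact_mod_cast y1
  refine div_le_div_of_nonneg_right ?_ (by positivity)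
  linarith [mul_le_mul y3 (by linarith : w' ≤ 1) h.1.2.1.le hY0.le]

end Pool.Agent.Lib.MP_6e81d8_ag.H16
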