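import Pool.Agent.Lib.MP_6e81d8_ag.H16.Run

/-!
The two kinds of runs used in the cascade.
-/

set_option autoImplicit false

namespace Pool.Agent.Lib.MP_6e81d8_ag.H16

open Finset Filter Topology

/-- The total interval length required at the row `y` of the window `(-k, w)`. -/
noncomputable def prof (Y β t w k Δ Z : ℝ) (g : ℝ → ℝ) (y : ℝ) : ℝ :=
  if y ≤ 0 then Y * (w - y) - β * (y + k) - Δ else Y * (y + k) - t * (w - y) - Z + g y

/-- The profile `S` is realised by `Y` points up to `err`. -/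
def Goal (err : ℝ) (Y : ℕ) (w k : ℝ) (S : ℝ → ℝ) : Prop :=
  ∀ R : Finset ℝ, (∀ y ∈ R, -k < y ∧ y < w) →
    Fill R (-k) w Y (fun y => S y - err) (fun y => S y + err)

theorem slope_surj {f : ℝ → ℝ} (hc : Continuous f) {c : ℝ} (h0 : 0 < c)
    (h : ∀ u v, u ≤ v → c * (v - u) ≤ f v - f u) : StrictMono f ∧ Function.Surjective f := by
  refine ⟨fun u v huv => by nlinarith [h u v huv.le, mul_pos h0 (sub_pos.mpr huv)],
    hc.surjective ?_ ?_⟩
  · refine tendsto_atTop_mono' _ (f₁ := fun v => c * v + f 0) ?_ ?_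
    · filter_upwards [eventually_ge_atTop 0] with v hv
      linarith [h 0 v hv]
    · exact tendsto_atTop_add_const_right _ _ (tendsto_id.const_mul_atTop h0)
  · refine tendsto_atBot_mono' _ (f₁ := fun v => c * v + f 0) ?_ ?_
    · filter_upwards [eventually_le_atBot 0] with v hv
      linarith [h v 0 hv]
    · exact tendsto_atBot_add_const_right _ _ (tendsto_id.const_mul_atBot h0)

theorem lead_aux {A s u₀ u q : ℝ} (h1 : u₀ < A) (h2 : q < A + s * (q - u₀)) (h3 : u₀ ≤ u)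
    (h4 : u ≤ q) : u < A + s * (u - u₀) := by
  rcases le_total s 1 with h | h <;> nlinarith

theorem run_eq {err w k w' k' : ℝ} (he : 0 ≤ err) (hab : w + k ≤ 1)
    {Φ P : ℝ → ℝ} (hΦ : StrictMono Φ ∧ Function.Surjective Φ)
    (hP : StrictMono P ∧ Function.Surjective P) {q : ℝ} (hq0 : 0 < q) (hp0 : 0 ≤ P q)
    (hw : w' = w - q) (hk : k' = k - P q)
    (hpeak : Φ q + P q = w + k) (hlead : ∀ u, u ≤ q → (0 < u ∨ 0 < P u) → u < Φ u)
    {y x : ℕ} {S T : ℝ → ℝ}
    (hB : ∀ u, u ≤ q → 0 < P u →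
      S (-k + P u) = y * (w + k - P u - max u 0) + x * (w + k - P u - max (Φ u) 0))
    (hT : ∀ u, 0 < Φ u → Φ u ≤ q →
      S (w - Φ u) = y * (w + k - Φ u - max (P (Φ u)) 0) + x * (w + k - Φ u - max (P u) 0))
    (hI : ∀ u, q < Φ u → u < q →
      S (w - Φ u) = T (w - Φ u) + x * (w + k - Φ u - max (P u) 0))
    (h : Goal err y w' k' T) : Goal err (y + x) w k S := by
  intro R hR
  have e1 : -k' = -k + P q := by rw [hk]; ring
  have e2 : w - -k = w + k := by ring
  refine run hR (by linarith) hΦ.1 hP.1 hΦ.2 hP.2 hq0 hp0 (by linarith) hlead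
    (T₁ := fun y => T y - err) (T₂ := fun y => T y + err) ?_ (fun u h1 h2 => ?_)
    (fun u h1 h2 => ?_) (fun u h1 h2 => ?_)
  · rw [← e1, ← hw]
    exact h _ fun y hy => (mem_filter.mp hy).2
  · rw [hB u h1 h2, e2]
    constructor <;> linarith
  · rw [hT u h1 h2, e2]
    constructor <;> linarith
  · rw [hI u h1 h2, e2]
    constructor <;> linarith

/-- A run that passes the kink of size `κ` at the position `r` once. -/
theorem fillP {err : ℝ} (he : 0 ≤ err) {Y₁ x : ℕ} (hY : 0 < Y₁) (hx : 0 < x)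
    {β μ s q₁ q w k w' k' t κ t' κ' β' r r' : ℝ} {g : ℝ → ℝ} (hβ : 0 < β) (hμ : 1 < μ)
    (hs : 0 < s) (hsμ : s ≤ μ) (h1 : q₁ ≤ q) (h2 : q ≤ μ * q₁) (h3 : 0 ≤ r') (h4 : 0 < w')
    (h5 : 0 ≤ k') (h6 : w + k ≤ 1) (h7 : 0 < q₁) (hg : ∀ y, w' ≤ y → g y = 0)
    (et : t = ((Y₁ + x) ^ 2 + x * Y₁ * (μ + 1 / μ - 2)) / β) (eκ : κ = x * Y₁ * (μ - s) / β)
    (ek : k = k' + (x * (w + k') + Y₁ * q) / β) (ew : w = μ * q₁ + s * (q - q₁) - k')
    (er : r = w - q₁) (ew' : w' = w - q) (er' : r' = w - μ * q₁)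
    (eβ : β' = β + 2 * x + x * (x + Y₁ / s) / β) (et' : t' = t - κ - x * (x + Y₁ / μ) / β)
    (eκ' : κ' = κ / (μ * s))
    (h : Goal err Y₁ w' k' (prof Y₁ β' t' w' k' 0 0 fun y => κ' * max (r' - y) 0 + g y)) :
    Goal err (Y₁ + x) w k (prof (Y₁ + x) β t w k 0 0 fun y => κ * max (r - y) 0 + g y) := by
  have hY' : (0 : ℝ) < Y₁ := by exact_mod_cast hY
  have hx' : (0 : ℝ) < x := by exact_mod_cast hx
  have hμ0 : 0 < μ := by linarith
  let Φ : ℝ → ℝ := fun u => min (μ * u) (μ * q₁ + s * (u - q₁))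
  let P : ℝ → ℝ := fun u => (x * Φ u + Y₁ * u) / β
  have hΦ1 : ∀ u, u ≤ q₁ → Φ u = μ * u := fun u hu =>
    min_eq_left (by linarith [mul_nonneg (sub_nonneg.mpr hsμ) (sub_nonneg.mpr hu)])
  have hΦ2 : ∀ u, q₁ ≤ u → Φ u = μ * q₁ + s * (u - q₁) := fun u hu =>
    min_eq_right (by linarith [mul_nonneg (sub_nonneg.mpr hsμ) (sub_nonneg.mpr hu)])
  have hΦs : ∀ u v, u ≤ v → s * (v - u) ≤ Φ v - Φ u := by
    intro u v huv
    have : Φ u + s * (v - u) ≤ Φ v := le_min
      (by linarith [min_le_left (μ * u) (μ * q₁ + s * (u - q₁)),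
        mul_nonneg (sub_nonneg.mpr hsμ) (sub_nonneg.mpr huv)])
      (by linarith [min_le_right (μ * u) (μ * q₁ + s * (u - q₁))])
    linarith
  have hΦ := slope_surj (f := Φ) (by fun_prop) hs hΦs
  have hP := slope_surj (f := P) (by fun_prop) (div_pos hY' hβ) (fun u v huv => by
    have := mul_le_mul_of_nonneg_left (hΦ.1.monotone huv) hx'.le
    simp only [P]
    rw [← sub_div, div_mul_eq_mul_div]
    exact div_le_div_of_nonneg_right (by linarith) hβ.le)
  have hΦ0 : Φ 0 = 0 := by rw [hΦ1 0 h7.le, mul_zero]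
  have hP0 : P 0 = 0 := by simp [P, hΦ0]
  have hΦq : Φ q = w + k' := by rw [hΦ2 q h1]; linarith
  have hPq : P q = k - k' := by simp only [P]; rw [hΦq, ek]; ring
  have hq0 : 0 < q := by linarith
  have hpos : ∀ u, 0 < u → max (P u) 0 = (x * Φ u + Y₁ * u) / β := fun u hu =>
    max_eq_left (hP0.ge.trans (hP.1.monotone hu.le))
  refine run_eq he h6 hΦ hP hq0 (hP0.ge.trans (hP.1.monotone hq0.le)) ew' (by linarith) (by linarith)
    (fun u hu hu' => ?_) (fun u hu hu' => ?_) (fun u hu hu' => ?_) (fun u hu hu' => ?_) h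
  · have hu0 : 0 < u := hu'.elim id fun h => hP.1.lt_iff_lt.mp (by rwa [hP0])
    rcases le_total u q₁ with h8 | h8
    · rw [hΦ1 u h8]
      exact lt_mul_left hu0 hμ
    · rw [hΦ2 u h8]
      exact lead_aux (lt_mul_left h7 hμ) (by linarith) h8 hu
  · have hu0 : 0 < u := hP.1.lt_iff_lt.mp (by rwa [hP0])
    have h8 : -k + P u ≤ 0 := by linarith [hP.1.monotone hu]
    rw [prof, if_pos h8, max_eq_left hu0.le, max_eq_left (hΦ0.ge.trans (hΦ.1.monotone hu0.le))]
    simp only [P]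
    field_simp
    ring
  · have hu0 : 0 < u := hΦ.1.lt_iff_lt.mp (by rwa [hΦ0])
    have hu1 : u ≤ q₁ := hΦ.1.le_iff_le.mp (by rw [hΦ1 q₁ le_rfl]; linarith)
    rw [prof, if_neg (by linarith), hg _ (by linarith), hpos _ hu, hpos _ hu0]
    have h9 := hΦ1 u hu1
    rcases le_total (Φ u) q₁ with h8 | h8
    · rw [hΦ1 _ h8, max_eq_right (by linarith), h9, et]
      field_simp
      ring
    · rw [hΦ2 _ h8, max_eq_left (by linarith), h9, et, eκ, er]
      field_simp
      ring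
  · have hu0 : 0 < u := hΦ.1.lt_iff_lt.mp (by rw [hΦ0]; linarith)
    rw [hpos _ hu0, prof, prof]
    by_cases h8 : w - Φ u ≤ 0
    · have hu1 : q₁ ≤ u := hΦ.1.le_iff_le.mp (by rw [hΦ1 q₁ le_rfl]; linarith)
      rw [if_pos h8, if_pos h8, hΦ2 u hu1, eβ, ew', ek, ew]
      field_simp
      ring
    · rw [if_neg h8, if_neg h8, max_eq_left (by linarith : 0 ≤ r - (w - Φ u))]
      rcases le_total u q₁ with hu1 | hu1
      · have h9 := hΦ1 u hu1
        have h10 := mul_le_mul_of_nonneg_left hu1 hμ0.le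
        rw [max_eq_right (by linarith), h9, et', er, ew', ek, ew, et, eκ]
        field_simp
        ring
      · have h9 := hΦ2 u hu1
        have h10 := mul_nonneg hs.le (sub_nonneg.mpr hu1)
        rw [max_eq_left (by linarith), h9, eκ', et', er, er', ew', ek, ew, et, eκ]
        field_simp
        ring

/-- The first run, which removes the two defects `Δ` and `Z`. -/
theorem fillD {err : ℝ} (he : 0 ≤ err) {Y₁ x : ℕ} (hY : 0 < Y₁) (hx : 0 < x)
    {β s q w k w' k' t β' Δ Z κ₁ κ₂ r₁ r₂ : ℝ} (hβ : 0 < β) (hs : 0 < s) (hΔ : 0 < Δ) (hZ : 0 ≤ Z)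
    (h2 : q ≤ Δ / x) (h3 : 0 ≤ r₁) (h4 : 0 < w') (h5 : 0 ≤ k') (h6 : w + k ≤ 1) (h7 : 0 < q)
    (et : t = Y₁ * (Y₁ + x * s) / β) (ek : k = k' + (Z + t * q) / Y₁)
    (ew : w = (Δ + β * Z / Y₁) / x + s * q - k') (ew' : w' = w - q)
    (er₁ : r₁ = w - (Δ + β * Z / Y₁) / x) (er₂ : r₂ = w - Δ / x)
    (eβ : β' = β + 2 * x + x * (x + Y₁ / s) / β) (eκ₁ : κ₁ = x * Y₁ / (β * s))
    (eκ₂ : κ₂ = x ^ 2 / β)
    (h : Goal err Y₁ w' k' (prof Y₁ β' t w' k' 0 0
      fun y => κ₁ * max (r₁ - y) 0 + κ₂ * max (r₂ - y) 0)) :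
    Goal err (Y₁ + x) w k (prof (Y₁ + x) β t w k Δ Z fun _ => 0) := by
  have hY' : (0 : ℝ) < Y₁ := by exact_mod_cast hY
  have hx' : (0 : ℝ) < x := by exact_mod_cast hx
  have ht : 0 < t := by rw [et]; positivity
  let P : ℝ → ℝ := fun u => (Z + t * u) / Y₁
  let F : ℝ := (Δ + β * Z / Y₁) / x
  let Φ : ℝ → ℝ := fun u => min (F + (s + Y₁ / x) * u) (F + s * u)
  have hYx : 0 < (Y₁ : ℝ) / x := by positivity
  have hF : Δ / x ≤ F := div_le_div_of_nonneg_right (by
    have : 0 ≤ β * Z / Y₁ := by positivity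
    linarith) hx'.le
  have hF0 : 0 < Δ / x := by positivity
  have hΦ1 : ∀ u, u ≤ 0 → Φ u = F + (s + Y₁ / x) * u := fun u hu =>
    min_eq_left (by linarith [mul_nonpos_of_nonneg_of_nonpos hYx.le hu])
  have hΦ2 : ∀ u, 0 ≤ u → Φ u = F + s * u := fun u hu =>
    min_eq_right (by linarith [mul_nonneg hYx.le hu])
  have hΦ3 : ∀ u, u ≤ 0 → Φ u = Δ / x + β / x * P u := fun u hu => by
    rw [hΦ1 u hu]
    simp only [F, P, et]
    field_simp
    ring
  have hΦs : ∀ u v, u ≤ v → s * (v - u) ≤ Φ v - Φ u := by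
    intro u v huv
    have : Φ u + s * (v - u) ≤ Φ v := le_min
      (by linarith [min_le_left (F + (s + Y₁ / x) * u) (F + s * u),
        mul_nonneg hYx.le (sub_nonneg.mpr huv)])
      (by linarith [min_le_right (F + (s + Y₁ / x) * u) (F + s * u)])
    linarith
  have hΦ := slope_surj (f := Φ) (by fun_prop) hs hΦs
  have hP := slope_surj (f := P) (by fun_prop) (div_pos ht hY') (fun u v huv => by
    simp only [P]
    rw [← sub_div, div_mul_eq_mul_div]
    exact div_le_div_of_nonneg_right (by linarith) hY'.le)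
  have hβx : 0 < β / x := by positivity
  have hΦq : Φ q = w + k' := by rw [hΦ2 q h7.le]; linarith
  have hPq : P q = k - k' := by simp only [P]; linarith
  have hP0 : ∀ u, 0 ≤ u → 0 ≤ P u := fun u hu => by simp only [P]; positivity
  have hbig : ∀ u, 0 < P u → Δ / x < Φ u := by
    intro u hu
    rcases le_or_gt u 0 with h8 | h8
    · rw [hΦ3 u h8]
      linarith [mul_pos hβx hu]
    · rw [hΦ2 u h8.le]
      linarith [mul_pos hs h8]
  refine run_eq he h6 hΦ hP h7 (hP0 q h7.le) ew' (by linarith) (by linarith)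
    (fun u hu hu' => ?_) (fun u hu hu' => ?_) (fun u hu hu' => ?_) (fun u hu hu' => ?_) h
  · rcases le_or_gt u 0 with h8 | h8
    · linarith [hbig u (hu'.resolve_left (by linarith))]
    · have := lead_aux (A := F) (s := s) (u₀ := 0) (by linarith) (by linarith) h8.le hu
      rw [hΦ2 u h8.le]
      linarith
  · have h8 : -k + P u ≤ 0 := by linarith [hP.1.monotone hu]
    rw [prof, if_pos h8, max_eq_left (by linarith [hbig u hu'] : 0 ≤ Φ u)]
    rcases le_total u 0 with h9 | h9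
    · rw [max_eq_right h9, hΦ3 u h9]
      field_simp
      ring
    · rw [max_eq_left h9, hΦ2 u h9]
      simp only [F, P, et]
      field_simp
      ring
  · have h8 : P u ≤ 0 := not_lt.mp fun h => by linarith [hbig u h]
    rw [prof, if_neg (by linarith), max_eq_right h8, max_eq_left (hP0 _ hu.le)]
    simp only [P]
    field_simp
    ring
  · rw [prof, prof]
    have hΦF : Φ 0 = F := by rw [hΦ2 0 le_rfl]; ring
    by_cases h8 : w - Φ u ≤ 0
    · have hu1 : 0 ≤ u := hΦ.1.le_iff_le.mp (by rw [hΦF]; linarith)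
      rw [if_pos h8, if_pos h8, max_eq_left (hP0 u hu1), hΦ2 u hu1, eβ, ew', ek, ew]
      simp only [F, P, et]
      field_simp
      ring
    · rw [if_neg h8, if_neg h8]
      rcases le_total 0 u with hu1 | hu1
      · have h9 := hΦ2 u hu1
        have h10 := mul_nonneg hs.le hu1
        rw [max_eq_left (hP0 u hu1), max_eq_left (by linarith : 0 ≤ r₁ - (w - Φ u)),
          max_eq_left (by linarith : 0 ≤ r₂ - (w - Φ u)), h9, eκ₁, eκ₂, er₁, er₂, ew', ek]
        simp only [F, P, et]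
        field_simp
        ring
      · have h9 := hΦ1 u hu1
        have h10 := hΦ3 u hu1
        have h12 := mul_nonpos_of_nonneg_of_nonpos (by linarith : 0 ≤ s + Y₁ / x) hu1
        rw [max_eq_right (by linarith : r₁ - (w - Φ u) ≤ 0)]
        rcases le_total (P u) 0 with h11 | h11
        · have h13 := mul_nonpos_of_nonneg_of_nonpos hβx.le h11
          rw [max_eq_right h11, max_eq_right (by linarith : r₂ - (w - Φ u) ≤ 0), ew', ek]
          field_simp
          ring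
        · have h13 := mul_nonneg hβx.le h11
          rw [max_eq_left h11, max_eq_left (by linarith : 0 ≤ r₂ - (w - Φ u)), h10, eκ₂, er₂,
            ew', ek]
          field_simp
          ring

theorem goal_base {err : ℝ} {Y : ℕ} {w k : ℝ} (hw : 0 ≤ w + k) {S : ℝ → ℝ}
    (hS : ∀ y, -k < y → y < w → S y ≤ err ∧ Y * (w + k) ≤ S y + err) : Goal err Y w k S := by
  intro R hR
  refine ((fill_zero R (-k) w).addA hR (by linarith) Y).mono (fun y hy => ?_) (fun y hy => ?_)
  · obtain ⟨h2, h3⟩ := hR y hy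
    have : (0 : ℝ) ≤ Y * min 1 (y - -k) := mul_nonneg (Nat.cast_nonneg _) (le_min one_pos.le (by linarith))
    linarith [(hS y h2 h3).1]
  · obtain ⟨h2, h3⟩ := hR y hy
    have : (Y : ℝ) * min 1 (y - -k) ≤ Y * (w + k) :=
      mul_le_mul_of_nonneg_left ((min_le_right _ _).trans (by linarith)) (Nat.cast_nonneg _)
    linarith [(hS y h2 h3).2]

end Pool.Agent.Lib.MP_6e81d8_ag.H16
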