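import Pool.Agent.Lib.MP_6e81d8_ag.H16.Fill

/-!
A run: `x` new points start at the lower end of the inner window and run ahead of the old ones.
-/

set_option autoImplicit false

namespace Pool.Agent.Lib.MP_6e81d8_ag.H16

open Finset Filter Topology

theorem exists_potential {Φ P : ℝ → ℝ} (hΦ : StrictMono Φ) (hP : StrictMono P) {q h : ℝ}
    (hpeak : Φ q + P q = h) (hq : q < Φ q) (N : ℕ) :
    ∃ Λ : ℝ → ℝ, Antitone Λ ∧ (∀ u u', u < u' → u < q → Λ u' < Λ u) ∧ (∀ u, q ≤ u → Λ u = 0) ∧
      ∀ u, u ≤ q → q ≤ Φ^[N + 1] u → Λ u - Λ (Φ u) = h - Φ u - P u := by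
  let g : ℝ → ℝ := fun u => max (h - Φ u - P u) 0
  have hg : Antitone g := fun u u' huu => max_le_max
    (by linarith [hΦ.monotone huu, hP.monotone huu]) le_rfl
  have hg0 : ∀ u, q ≤ u → g u = 0 := fun u hu =>
    max_eq_right (by linarith [hΦ.monotone hu, hP.monotone hu])
  have hg1 : ∀ u, u ≤ q → g u = h - Φ u - P u := fun u hu =>
    max_eq_left (by linarith [hΦ.monotone hu, hP.monotone hu])
  have hit : ∀ j u, q ≤ u → q ≤ Φ^[j] u := by
    intro j u hu
    induction j with
    | zero => exact hu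
    | succ j ih =>
      rw [Function.iterate_succ_apply']
      exact hq.le.trans (hΦ.monotone ih)
  have hanti : ∀ M, Antitone fun u => ∑ j ∈ range M, g (Φ^[j] u) := fun M u u' huu =>
    sum_le_sum fun j _ => hg (hΦ.monotone.iterate j huu)
  refine ⟨fun u => ∑ j ∈ range (N + 1), g (Φ^[j] u), hanti _, fun u u' huu hu => ?_,
    fun u hu => sum_eq_zero fun j _ => hg0 _ (hit j u hu), fun u hu hN => ?_⟩
  · refine sum_lt_sum (fun j _ => hg (hΦ.monotone.iterate j huu.le)) ⟨0, by simp, ?_⟩
    simp only [Function.iterate_zero, id]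
    rw [hg1 u hu.le]
    exact max_lt (by linarith [hΦ huu, hP huu]) (by linarith [hΦ hu, hP hu])
  · have h1 := sum_range_succ (fun j => g (Φ^[j] u)) (N + 1)
    have h2 := sum_range_succ' (fun j => g (Φ^[j] u)) (N + 1)
    simp only [Function.iterate_succ_apply, Function.iterate_zero, id] at h2
    rw [hg0 _ hN] at h1
    rw [← hg1 u hu]
    linarith

theorem run {R : Finset ℝ} {a b : ℝ} (hR : ∀ t ∈ R, a < t ∧ t < b) (hab : b - a ≤ 1)
    {Φ P : ℝ → ℝ} (hΦ : StrictMono Φ) (hP : StrictMono P) (sΦ : Function.Surjective Φ)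
    (sP : Function.Surjective P) {q : ℝ} (hq0 : 0 < q) (hp0 : 0 ≤ P q)
    (hpeak : Φ q + P q = b - a) (hlead : ∀ u, u ≤ q → (0 < u ∨ 0 < P u) → u < Φ u)
    {y x : ℕ} {S₁ S₂ T₁ T₂ : ℝ → ℝ}
    (hin : Fill (R.filter fun t => a + P q < t ∧ t < b - q) (a + P q) (b - q) y T₁ T₂)
    (hB : ∀ u, u ≤ q → 0 < P u →
      S₁ (a + P u) ≤ y * (b - a - P u - max u 0) + x * (b - a - P u - max (Φ u) 0) ∧
      y * (b - a - P u - max u 0) + x * (b - a - P u - max (Φ u) 0) ≤ S₂ (a + P u))
    (hT : ∀ u, 0 < Φ u → Φ u ≤ q →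
      S₁ (b - Φ u) ≤ y * (b - a - Φ u - max (P (Φ u)) 0) + x * (b - a - Φ u - max (P u) 0) ∧
      y * (b - a - Φ u - max (P (Φ u)) 0) + x * (b - a - Φ u - max (P u) 0) ≤ S₂ (b - Φ u))
    (hI : ∀ u, q < Φ u → u < q →
      S₁ (b - Φ u) ≤ T₁ (b - Φ u) + x * (b - a - Φ u - max (P u) 0) ∧
      T₂ (b - Φ u) + x * (b - a - Φ u - max (P u) 0) ≤ S₂ (b - Φ u)) :
    Fill R a b (y + x) S₁ S₂ := by
  classical
  have hq : q < Φ q := hlead q le_rfl (Or.inl hq0)
  obtain ⟨l', v', lo', hi', hin, hin'⟩ := hin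
  choose iΦ hiΦ using sΦ
  choose iP hiP using sP
  have sΦ : Function.Surjective Φ := fun z => ⟨iΦ z, hiΦ z⟩
  let uF : ℝ → ℝ := fun t => if t ≤ a + P q then iP (t - a) else b - t
  let uL : ℝ → ℝ := fun t => if t ≤ a + P q then iP (t - a) else iΦ (b - t)
  have hbot : ∀ t, t ≤ a + P q → iP (t - a) ≤ q := fun t ht =>
    hP.le_iff_le.mp (by rw [hiP]; linarith)
  obtain ⟨N, hN⟩ : ∃ N, ∀ t ∈ R, t ≤ a + P q → q ≤ Φ^[N + 1] (iP (t - a)) := by
    have : ∀ᶠ N in atTop, ∀ t ∈ R, t ≤ a + P q → q ≤ Φ^[N] (iP (t - a)) := by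
      rw [eventually_all_finset]
      intro t ht
      refine (escape (u := iP (t - a)) hΦ sΦ (fun z h1 h2 => hlead z h2 (Or.inr ?_)) hq).mono
        fun _ h _ => h
      have := hP.monotone h1
      rw [hiP] at this
      linarith [(hR t ht).1]
    obtain ⟨N, hN⟩ := eventually_atTop.mp this
    exact ⟨N, hN _ (Nat.le_succ N)⟩
  obtain ⟨Λ, hΛ, hΛs, hΛ0, hΛ1⟩ := exists_potential hΦ hP hpeak hq N
  obtain ⟨M, hM⟩ := exists_big R l' v'
  let I : ℝ → Prop := fun t => a + P q < t ∧ t < b - q
  obtain ⟨l, v, hl⟩ := lex R (fun t => Λ (uF t)) (fun t => if I t then l' t else M)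
    (Fin.addCases (fun _ : Fin y => (0 : ℝ)) (fun _ : Fin x => (-1 : ℝ)))
    (Fin.addCases v' (fun _ : Fin x => (0 : ℝ)))
  have hFI : ∀ t, I t ↔ q < uF t := by
    intro t
    by_cases ht : t ≤ a + P q
    · simp only [uF, ht, if_true, I]
      exact ⟨fun h => by linarith [h.1], fun h => by linarith [hbot t ht]⟩
    · simp only [uF, ht, if_false, I]
      exact ⟨fun h => by linarith [h.2], fun h => ⟨not_le.mp ht, by linarith⟩⟩
  have hLq : ∀ t, uL t ≤ q := by
    intro t
    by_cases ht : t ≤ a + P q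
    · simpa only [uL, ht, if_true] using hbot t ht
    · simp only [uL, ht, if_false]
      exact hΦ.le_iff_le.mp (by rw [hiΦ]; linarith [not_le.mp ht])
  have hψ : ∀ t ∈ R, -1 * t - Λ (uF t) = -b + Φ (uL t) - Λ (Φ (uL t)) := by
    intro t ht
    by_cases ht' : t ≤ a + P q
    · simp only [uF, uL, ht', if_true]
      have := hΛ1 _ (hbot t ht') (hN t ht ht')
      rw [hiP] at this
      linarith
    · simp only [uF, uL, ht', if_false, hiΦ]
      ring
  have hLlt : ∀ t ∈ R, ∀ t' ∈ R, uL t' < uL t → ∀ i : Fin x,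
      v (Fin.natAdd y i) * t' - l t' < v (Fin.natAdd y i) * t - l t := by
    intro t ht t' ht' h i
    refine hl _ t ht t' ht' (Or.inl ?_)
    simp only [Fin.addCases_right]
    rw [hψ t ht, hψ t' ht']
    linarith [hΦ h, hΛ (hΦ h).le]
  have hFlt : ∀ t ∈ R, ∀ t' ∈ R, uF t' < uF t → ¬ I t' → ∀ i : Fin y,
      v (Fin.castAdd x i) * t' - l t' < v (Fin.castAdd x i) * t - l t := by
    intro t ht t' ht' h h' i
    by_cases h1 : uF t' < q
    · refine hl _ t ht t' ht' (Or.inl ?_)
      simp only [Fin.addCases_left]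
      linarith [hΛs _ _ h h1]
    · refine hl _ t ht t' ht' (Or.inr ?_)
      have h2 : I t := (hFI t).mpr (by linarith [not_lt.mp h1])
      simp only [Fin.addCases_left, h2, h', if_true, if_false]
      exact ⟨by linarith [hΛ h.le], hM i t ht t' ht'⟩
  refine ⟨l, v,
    Fin.addCases (fun i t => if I t then lo' i t else a + max (P (uF t)) 0)
      (fun _ t => a + max (P (uL t)) 0),
    Fin.addCases (fun i t => if I t then hi' i t else b - max (uF t) 0)
      (fun _ t => b - max (Φ (uL t)) 0), ?_, fun t ht => ?_⟩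
  · refine Fin.addCases (fun i t ht => ?_) (fun i t ht => ?_)
    · simp only [Fin.addCases_left]
      by_cases hI : I t
      · obtain ⟨h3, h4, h5⟩ := hin i t (mem_filter.mpr ⟨ht, hI⟩)
        simp only [hI, if_true]
        refine ⟨by linarith, by linarith, fun t' ht' => ?_⟩
        by_cases hI' : I t'
        · obtain ⟨h6, h7⟩ := h5 t' (mem_filter.mpr ⟨ht', hI'⟩)
          have e1 := hΛ0 _ ((hFI t).mp hI).le
          have e2 := hΛ0 _ ((hFI t').mp hI').le
          exact ⟨fun hh => hl _ t ht t' ht' (Or.inr (by simpa [hI, hI', e1, e2] using h6 hh)),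
            fun h8 h9 => hl _ t' ht' t ht (Or.inr (by simpa [hI, hI', e1, e2] using h7 h8 h9))⟩
        · refine ⟨fun _ => hFlt t ht t' ht' ?_ hI' i, fun h8 h9 => absurd ⟨?_, ?_⟩ hI'⟩
          · exact lt_of_le_of_lt (not_lt.mp (mt (hFI t').mpr hI')) ((hFI t).mp hI)
          · linarith
          · linarith
      · simp only [hI, if_false]
        have hu : uF t ≤ q := not_lt.mp (mt (hFI t).mpr hI)
        refine ⟨by linarith [le_max_right (P (uF t)) 0], by linarith [le_max_right (uF t) 0],
          fun t' ht' => ⟨fun hh => ?_, fun h8 h9 => hFlt t' ht' t ht ?_ hI i⟩⟩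
        · obtain ⟨ha', hb'⟩ := hR t' ht'
          have : uF t' < uF t := by
            rcases hh with hh | hh
            · have h1 : t' - a < P (uF t) :=
                (lt_max_iff.mp (by linarith : t' - a < max (P (uF t)) 0)).resolve_right
                  (by linarith)
              have h2 : t' ≤ a + P q := by linarith [hP.monotone hu]
              have h3 : uF t' = iP (t' - a) := if_pos h2
              exact hP.lt_iff_lt.mp (by rw [h3, hiP]; exact h1)
            · have h1 : b - t' < uF t :=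
                (lt_max_iff.mp (by linarith : b - t' < max (uF t) 0)).resolve_right (by linarith)
              have h3 : uF t' = b - t' := if_neg (by linarith)
              rw [h3]
              exact h1
          exact hFlt t ht t' ht' this (fun h => by linarith [(hFI t').mp h]) i
        · by_cases h2 : t' ≤ a + P q
          · have h3 : uF t' = iP (t' - a) := if_pos h2
            exact hP.lt_iff_lt.mp (by rw [h3, hiP]; linarith [le_max_left (P (uF t)) 0])
          · have h3 : uF t' = b - t' := if_neg h2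
            rw [h3]
            linarith [le_max_left (uF t) 0]
    · simp only [Fin.addCases_right]
      have hu := hLq t
      refine ⟨by linarith [le_max_right (P (uL t)) 0], by linarith [le_max_right (Φ (uL t)) 0],
        fun t' ht' => ⟨fun hh => hLlt t ht t' ht' ?_ i, fun h8 h9 => hLlt t' ht' t ht ?_ i⟩⟩
      · obtain ⟨ha', hb'⟩ := hR t' ht'
        rcases hh with hh | hh
        · have h1 : t' - a < P (uL t) :=
            (lt_max_iff.mp (by linarith : t' - a < max (P (uL t)) 0)).resolve_right (by linarith)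
          have h2 : t' ≤ a + P q := by linarith [hP.monotone hu]
          have h3 : uL t' = iP (t' - a) := if_pos h2
          exact hP.lt_iff_lt.mp (by rw [h3, hiP]; exact h1)
        · have h1 : b - t' < Φ (uL t) :=
            (lt_max_iff.mp (by linarith : b - t' < max (Φ (uL t)) 0)).resolve_right (by linarith)
          have h3 : uL t' = iΦ (b - t') := if_neg (by linarith [hΦ.monotone hu])
          exact hΦ.lt_iff_lt.mp (by rw [h3, hiΦ]; exact h1)
      · by_cases h2 : t' ≤ a + P q
        · have h3 : uL t' = iP (t' - a) := if_pos h2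
          exact hP.lt_iff_lt.mp (by rw [h3, hiP]; linarith [le_max_left (P (uL t)) 0])
        · have h3 : uL t' = iΦ (b - t') := if_neg h2
          exact hΦ.lt_iff_lt.mp (by rw [h3, hiΦ]; linarith [le_max_left (Φ (uL t)) 0])
  · obtain ⟨ha, hb⟩ := hR t ht
    simp only [Fin.sum_univ_add, Fin.addCases_left, Fin.addCases_right, sum_const, card_univ,
      Fintype.card_fin, nsmul_eq_mul]
    have hm : ∀ z z' : ℝ, min 1 (b - max z 0 - (a + max z' 0)) = b - a - max z 0 - max z' 0 := by
      intro z z'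
      rw [min_eq_right (by linarith [le_max_right z 0, le_max_right z' 0])]
      ring
    rw [hm]
    by_cases h2 : t ≤ a + P q
    · have hI : ¬ I t := fun h => by linarith [h.1]
      have h3 : uF t = iP (t - a) := if_pos h2
      have h4 : uL t = iP (t - a) := if_pos h2
      have := hB _ (hbot t h2) (by rw [hiP]; linarith)
      simp only [hI, if_false, sum_const, card_univ, Fintype.card_fin, nsmul_eq_mul, hm, h3, h4]
      rw [hiP, add_sub_cancel] at this
      rw [hiP, max_eq_left (by linarith : 0 ≤ t - a)]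
      constructor <;> linarith [this.1, this.2]
    · have h3 : uF t = b - t := if_neg h2
      have h4 : uL t = iΦ (b - t) := if_neg h2
      rw [h4, hiΦ, max_eq_left (by linarith : 0 ≤ b - t)]
      by_cases hI' : I t
      · have h5 := hin' t (mem_filter.mpr ⟨ht, hI'⟩)
        have := hI (iΦ (b - t)) (by rw [hiΦ]; linarith [hI'.2])
          (hΦ.lt_iff_lt.mp (by rw [hiΦ]; linarith [hI'.1]))
        rw [hiΦ, sub_sub_cancel] at this
        simp only [hI', if_true]
        constructor <;> linarith [this.1, this.2, h5.1, h5.2]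
      · have hu : uF t ≤ q := not_lt.mp (mt (hFI t).mpr hI')
        have := hT (iΦ (b - t)) (by rw [hiΦ]; linarith) (by rw [hiΦ]; linarith)
        rw [hiΦ, sub_sub_cancel] at this
        simp only [hI', if_false, sum_const, card_univ, Fintype.card_fin, nsmul_eq_mul, hm, h3]
        rw [max_eq_left (by linarith : 0 ≤ b - t)]
        constructor <;> linarith [this.1, this.2]

end Pool.Agent.Lib.MP_6e81d8_ag.H16
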