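import Pool.Agent.Lib.MP_6e81d8_ag.H16.Move

/-!
One controlled run: the number of new points is chosen so that the slope is close to a target.
-/

set_option autoImplicit false

namespace Pool.Agent.Lib.MP_6e81d8_ag.H16

/-- Continuity of the profile at `0` and the area identity. -/
def Inv (Y β t w k A B : ℝ) : Prop :=
  (Y + β) * k = (Y + t) * w - B ∧ t * w ^ 2 - A + β * k ^ 2 - 2 * Y * w * k = 0

theorem shape {Y β t w k A B : ℝ} (h : Inv Y β t w k A B) (hw : 0 < w) (hk : 0 ≤ k) (hA : 0 ≤ A)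
    (hAB : A ≤ B * w) : 0 ≤ Y * w - β * k ∧ Y * w - β * k ≤ B ∧
      (β * t - Y ^ 2) * w ^ 2 = β * A - (Y * w - β * k) ^ 2 := by
  obtain ⟨h1, h2⟩ := h
  have h3 : (Y * w - β * k) * (w + k) = B * w - A := by linear_combination (-w) * h1 - h2
  have hB : 0 ≤ B := by
    by_contra hB
    nlinarith [mul_pos_of_neg_of_neg (not_le.mp hB) (neg_neg_of_pos hw)]
  refine ⟨?_, ?_, by linear_combination β * h2⟩
  · by_contra h4
    nlinarith [mul_pos_of_neg_of_neg (not_le.mp h4) (neg_neg_of_pos (by linarith : 0 < w + k))]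
  · by_contra h4
    nlinarith [mul_pos (sub_pos.mpr (not_le.mp h4)) (by linarith : 0 < w + k), mul_nonneg hB hk]

theorem pick {Y : ℕ} {d μ₀ : ℝ} (h0 : 1 < μ₀) (h1 : 100000 * (μ₀ + 1 / μ₀ - 2) ≤ d)
    (h2 : 100000 * d ≤ Y * (μ₀ + 1 / μ₀ - 2)) :
    ∃ (Y₁ x : ℕ) (μ : ℝ), Y = Y₁ + x ∧ 0 < x ∧ x * (μ₀ + 1 / μ₀ - 2) ≤ d ∧ 100000 * (x : ℝ) ≤ Y ∧
      μ₀ ≤ μ ∧ μ ≤ μ₀ * 1.00003 ∧ d * Y = x * Y₁ * (μ + 1 / μ - 2) := by
  have hμ : 0 < μ₀ := by linarith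
  have hG : 0 < μ₀ + 1 / μ₀ - 2 := by
    have : μ₀ + 1 / μ₀ - 2 = (μ₀ - 1) ^ 2 / μ₀ := by field_simp; ring
    rw [this]
    have : 0 < μ₀ - 1 := by linarith
    positivity
  have hGl : (μ₀ + 1 / μ₀ - 2) * 1.00003 ≤ μ₀ * 1.00003 + 1 / (μ₀ * 1.00003) - 2 := by
    have h3 : 1 / μ₀ ≤ 1 := by rw [div_le_one hμ]; linarith
    have h4 : 1 / (μ₀ * 1.00003) = 1 / μ₀ * (100000 / 100003) := by
      field_simp
      norm_num
    have h5 : 0 < 1 / μ₀ := by positivity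
    rw [h4]
    linarith
  set G := μ₀ + 1 / μ₀ - 2 with hGdef
  have hd : 100000 ≤ d / G := by rwa [le_div_iff₀ hG]
  have hdY : 100000 * (d / G) ≤ Y := by rwa [← mul_div_assoc, div_le_iff₀ hG]
  have hx1 : (⌊d / G⌋₊ : ℝ) ≤ d / G := Nat.floor_le (by linarith)
  have hx2 : d / G < ⌊d / G⌋₊ + 1 := Nat.lt_floor_add_one _
  set x := ⌊d / G⌋₊
  have hxY : x ≤ Y := by
    have : (x : ℝ) ≤ Y := by linarith
    exact_mod_cast this
  obtain ⟨Y₁, rfl⟩ := Nat.exists_eq_add_of_le' hxY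
  push_cast at hdY h2 ⊢
  have hx0 : (0 : ℝ) < x := by linarith
  have hY0 : (0 : ℝ) < Y₁ := by linarith
  have hdG : d = d / G * G := by field_simp
  set z := d / G
  have hlo : G ≤ d * (Y₁ + x) / (x * Y₁) := by
    rw [le_div_iff₀ (by positivity), hdG]
    have : x * Y₁ ≤ z * (Y₁ + x) := by nlinarith
    nlinarith
  have hhi : d * (Y₁ + x) / (x * Y₁) ≤ G * 1.00003 := by
    rw [div_le_iff₀ (by positivity), hdG]
    have h3 : z * 0.99999 ≤ x := by linarith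
    have h4 : (Y₁ + x) * 0.99999 ≤ (Y₁ : ℝ) := by linarith
    have h5 := mul_le_mul h3 h4 (by positivity) hx0.le
    have h6 : 0 ≤ z * (Y₁ + x) := by positivity
    have : z * (Y₁ + x) ≤ 1.00003 * (x * Y₁) := by nlinarith
    nlinarith
  have hc : ContinuousOn (fun μ : ℝ => μ + 1 / μ - 2) (Set.Icc μ₀ (μ₀ * 1.00003)) := by
    refine ContinuousOn.sub (continuousOn_id.add (continuousOn_const.div continuousOn_id ?_))
      continuousOn_const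
    intro y hy
    exact (hμ.trans_le hy.1).ne'
  obtain ⟨μ, hμ1, hμ2⟩ := intermediate_value_Icc (by linarith) hc ⟨hlo, hhi.trans hGl⟩
  refine ⟨Y₁, x, μ, rfl, by exact_mod_cast hx0, ?_, by linarith, hμ1.1, hμ1.2, ?_⟩
  · rw [hdG]
    exact mul_le_mul_of_nonneg_right hx1 hG.le
  · simp only at hμ2
    rw [hμ2]
    field_simp

theorem beta_bound {Y₁ x β s c : ℝ} (hx : 0 < x) (hxY : 100000 * x ≤ Y₁ + x) (hc : 100000 ≤ c)
    (hβ : β = c * (Y₁ + x)) (hs : 1 / 10 ≤ s) :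
    ∃ c', c' * Y₁ = β + 2 * x + x * (x + Y₁ / s) / β ∧ c ≤ c' ∧ c' ≤ c * 1.00004 := by
  have hY : 0 < Y₁ := by linarith
  have hβ0 : 0 < β := by rw [hβ]; positivity
  have h1 : Y₁ / s ≤ 10 * Y₁ := by rw [div_le_iff₀ (by linarith)]; nlinarith
  have h2 : 0 ≤ Y₁ / s := by positivity
  have h3 : x * (x + Y₁ / s) / β ≤ x := by
    rw [div_le_iff₀ hβ0]
    exact mul_le_mul_of_nonneg_left (by nlinarith) hx.le
  have h4 : 0 ≤ x * (x + Y₁ / s) / β := by positivity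
  refine ⟨(β + 2 * x + x * (x + Y₁ / s) / β) / Y₁, by field_simp, ?_, ?_⟩
  · rw [le_div_iff₀ hY]
    nlinarith
  · rw [div_le_iff₀ hY]
    nlinarith

theorem dbounds {X Y c t w k A B : ℝ} (hX : 10 ^ 8 ≤ X) (hY : 10 ^ 7 * X ≤ Y) (hc : 100000 ≤ c)
    (hw : 0 < w) (hk : 0 ≤ k) (hI : Inv Y (c * Y) t w k A B) (hAB : A ≤ B * w)
    (hB : c * B ≤ 3 * X * w) (hA : X * w ^ 2 / 20 ≤ c * A) :
    0 ≤ Y * w - c * Y * k ∧ Y * w - c * Y * k ≤ X * w / 10000 ∧ ∃ d, d * Y = c * Y * t - Y ^ 2 ∧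
      X / 25 ≤ d ∧ d ≤ 3 * X ∧ c * A - X * w ^ 2 / 100000 ≤ d * w ^ 2 ∧ d * w ^ 2 ≤ c * A := by
  have hX0 : 0 < X := by linarith [show (0 : ℝ) < 10 ^ 8 by norm_num]
  have hY0 : (0 : ℝ) < Y := by linarith
  have hc0 : 0 < c := by linarith
  have hw2 : 0 < w ^ 2 := by positivity
  have hXw : 0 < X * w ^ 2 := by positivity
  have hA0 : 0 ≤ A := nonneg_of_mul_nonneg_right (by linarith) hc0
  obtain ⟨s1, s2, s3⟩ := shape hI hw hk hA0 hAB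
  set δ := Y * w - c * Y * k with hδ
  clear_value δ
  have hδ1 : δ ≤ X * w / 10000 := by
    linarith [mul_nonneg (sub_nonneg.mpr hc) (s1.trans s2), mul_pos hX0 hw]
  have hd1 : (c * Y * t - Y ^ 2) / Y * w ^ 2 = c * A - δ ^ 2 / Y := by
    rw [div_mul_eq_mul_div, s3]
    field_simp
  have hδ2 : δ ^ 2 / Y ≤ X * w ^ 2 / 100000 := by
    rw [div_le_iff₀ hY0]
    have h3 : δ ^ 2 ≤ (X * w / 10000) ^ 2 := pow_le_pow_left₀ s1 hδ1 2
    have h4 : X * w ^ 2 * X ≤ X * w ^ 2 * Y := mul_le_mul_of_nonneg_left (by linarith) hXw.le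
    linarith [mul_pos hXw hY0]
  have hδ3 : 0 ≤ δ ^ 2 / Y := by positivity
  refine ⟨s1, hδ1, (c * Y * t - Y ^ 2) / Y, by field_simp, ?_, ?_, by linarith, by linarith⟩
  · exact le_of_mul_le_mul_right (by linarith) hw2
  · exact le_of_mul_le_mul_right (by
      linarith [mul_le_mul_of_nonneg_left hAB hc0.le, mul_le_mul_of_nonneg_right hB hw.le]) hw2

theorem peak {Y₁ x β s w k r r' E : ℝ} (hx : 0 < x) (hY : 0 < Y₁) (hβ : 100000 * Y₁ ≤ β)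
    (hs : 0 < s) (hw : 0 < w) (h1 : 0 ≤ Y₁ * (r - r' / s) - ((Y₁ + x) * w - β * k) + E)
    (h2 : Y₁ * (r - r' / s) - ((Y₁ + x) * w - β * k) + E ≤ Y₁ * w) :
    ∃ k', 0 ≤ k' ∧ k' ≤ w / 100000 ∧
      k = k' + (x * (w + k') + Y₁ * (w - (r - (r' + k') / s)) - E) / β := by
  have hβ0 : 0 < β := by linarith
  have h3 : 0 < Y₁ / s := by positivity
  have hden : 0 < β + x + Y₁ / s := by positivity
  refine ⟨(Y₁ * (r - r' / s) - ((Y₁ + x) * w - β * k) + E) / (β + x + Y₁ / s),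
    div_nonneg h1 hden.le, ?_, ?_⟩
  · rw [div_le_iff₀ hden]
    linarith [mul_le_mul_of_nonneg_left (by linarith : 100000 * Y₁ ≤ β + x + Y₁ / s) hw.le]
  · field_simp
    ring

theorem invP {Y₁ x β μ s q₁ q w k k' t κ A B : ℝ} (hβ : β ≠ 0) (hμ : μ ≠ 0) (hs : s ≠ 0)
    (et : t = ((Y₁ + x) ^ 2 + x * Y₁ * (μ + 1 / μ - 2)) / β) (eκ : κ = x * Y₁ * (μ - s) / β)
    (ek : k = k' + (x * (w + k') + Y₁ * q) / β) (ew : w = μ * q₁ + s * (q - q₁) - k')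
    (h : Inv (Y₁ + x) β t w k (κ * (w - q₁) ^ 2 + A) (κ * (w - q₁) + B)) :
    Inv Y₁ (β + 2 * x + x * (x + Y₁ / s) / β) (t - κ - x * (x + Y₁ / μ) / β) (w - q) k'
      (κ / (μ * s) * (w - μ * q₁) ^ 2 + A) (κ / (μ * s) * (w - μ * q₁) + B) := by
  obtain ⟨i1, i2⟩ := h
  constructor
  · rw [← sub_eq_zero] at i1 ⊢
    rw [← i1, ek, ew, et, eκ]
    field_simp
    ring
  · rw [← i2, ek, ew, et, eκ]
    field_simp
    ring

theorem step {X : ℝ} (hX : 10 ^ 8 ≤ X) {Y : ℕ} (hY : 10 ^ 7 * X ≤ Y)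
    {c t w k κ r A B μ₀ : ℝ} (hc : 100000 ≤ c) (hw : 0 < w) (hk : 0 ≤ k) (hwk : w + k ≤ 1)
    (hI : Inv Y (c * Y) t w k (κ * r ^ 2 + A) (κ * r + B)) (hκ : 0 ≤ κ) (hr : r < w)
    (hAB : κ * r ^ 2 + A ≤ (κ * r + B) * w) (hB : c * (κ * r + B) ≤ 3 * X * w)
    (hA : X * w ^ 2 / 20 ≤ c * (κ * r ^ 2 + A)) (h1 : 5 / 2 ≤ μ₀) (h2 : μ₀ ≤ 17) :
    ∃ (Y₁ : ℕ) (μ s d : ℝ), Y₁ ≤ Y ∧ Y ≤ Y₁ + 4 * X ∧ μ₀ ≤ μ ∧ μ ≤ μ₀ * 1.00003 ∧ X / 25 ≤ d ∧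
      c * (κ * r ^ 2 + A) - X * w ^ 2 / 100000 ≤ d * w ^ 2 ∧ d * w ^ 2 ≤ c * (κ * r ^ 2 + A) ∧
      (μ - s) * d * μ = c * κ * (μ - 1) ^ 2 ∧ s ≤ μ ∧
      ∀ r', r' = w - μ * (w - r) → 1 / 10 ≤ s → 0 ≤ r' → r' / s ≤ r - w / 10 →
      ∃ c' t' w' k', c ≤ c' ∧ c' ≤ c * 1.00004 ∧ 0 ≤ k' ∧ k' ≤ w / 100000 ∧
        w' = r - (r' + k') / s ∧ w' + k' ≤ 1 ∧
        Inv Y₁ (c' * Y₁) t' w' k' (κ / (μ * s) * r' ^ 2 + A) (κ / (μ * s) * r' + B) ∧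
        ∀ (g : ℝ → ℝ) (err : ℝ), 0 ≤ err → r' ≤ w' → 0 < w' → (∀ y, w' ≤ y → g y = 0) →
          Goal err Y₁ w' k' (prof Y₁ (c' * Y₁) t' w' k' 0 0
            fun y => κ / (μ * s) * max (r' - y) 0 + g y) →
          Goal err Y w k (prof Y (c * Y) t w k 0 0 fun y => κ * max (r - y) 0 + g y) := by
  have hX0 : 0 < X := by linarith [show (0 : ℝ) < 10 ^ 8 by norm_num]
  have hc0 : 0 < c := by linarith
  obtain ⟨s1, s2, d, hd, hd2, hd3, hd4, hd5⟩ := dbounds hX hY hc hw hk hI hAB hB hA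
  have hG1 : 1 / μ₀ ≤ 2 / 5 := by rw [div_le_iff₀ (by linarith)]; linarith
  have hG2 : 9 / 10 ≤ μ₀ + 1 / μ₀ - 2 := by
    have : μ₀ + 1 / μ₀ - 2 - 9 / 10 = (μ₀ - 5 / 2) * (μ₀ - 2 / 5) / μ₀ := by field_simp; ring
    have h3 : 0 ≤ (μ₀ - 5 / 2) * (μ₀ - 2 / 5) / μ₀ :=
      div_nonneg (mul_nonneg (by linarith) (by linarith)) (by linarith)
    linarith
  obtain ⟨Y₁, x, μ, rfl, hx, p1, p2, p3, p4, p5⟩ := pick (Y := Y) (d := d) (μ₀ := μ₀) (by linarith)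
    (by linarith) (by linarith [mul_le_mul_of_nonneg_left hG2 (Nat.cast_nonneg (α := ℝ) Y)])
  rw [Nat.cast_add] at hY hI s1 s2 hd p2 p5 ⊢
  have hx0 : (0 : ℝ) < x := by exact_mod_cast hx
  have hx4 : (x : ℝ) ≤ 4 * X := by linarith [mul_le_mul_of_nonneg_left hG2 hx0.le]
  have hY1 : (0 : ℝ) < Y₁ := by linarith
  have hμ : 1 < μ := by linarith
  have hμ0 : 0 < μ := by linarith
  obtain ⟨β, hβ⟩ : ∃ β, β = c * (Y₁ + x : ℝ) := ⟨_, rfl⟩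
  rw [← hβ] at hI s1 s2 hd ⊢
  have hβ0 : 0 < β := by rw [hβ]; positivity
  have et : t = ((Y₁ + x) ^ 2 + x * Y₁ * (μ + 1 / μ - 2)) / β := by
    rw [← p5, hd]
    field_simp
    ring
  obtain ⟨s, hs⟩ : ∃ s, s = μ - β * κ / (x * Y₁) := ⟨_, rfl⟩
  have eκ : κ = x * Y₁ * (μ - s) / β := by rw [hs]; field_simp; ring
  have hsμ : s ≤ μ := by linarith [show 0 ≤ β * κ / (x * Y₁) by positivity]
  refine ⟨Y₁, μ, s, d, Nat.le_add_right _ _, by linarith, p3, p4, hd2, hd4, hd5, ?_, hsμ,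
    fun r' er' hs1 hr' hr1 => ?_⟩
  · have : d = x * Y₁ * (μ + 1 / μ - 2) / (Y₁ + x) := by rw [← p5]; field_simp
    rw [this, hs, hβ]
    field_simp
    ring
  have hs0 : 0 < s := by linarith
  obtain ⟨c', hc', hc1, hc2⟩ := beta_bound hx0 p2 hc hβ hs1
  have h3 : 0 ≤ r' / s := by positivity
  obtain ⟨k', hk0, hk1, ek⟩ := peak (k := k) (r := r) (r' := r') (E := 0) hx0 hY1
    (show 100000 * (Y₁ : ℝ) ≤ β by
      linarith [mul_le_mul hc (by linarith : (Y₁ : ℝ) ≤ Y₁ + x) hY1.le hc0.le]) hs0 hw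
    (by linarith [mul_le_mul_of_nonneg_left (by linarith : w / 10 ≤ r - r' / s) hY1.le,
      mul_le_mul_of_nonneg_right (by linarith : X ≤ Y₁) hw.le, mul_pos hY1 hw])
    (by linarith [mul_le_mul_of_nonneg_left (by linarith : r - r' / s ≤ w) hY1.le])
  obtain ⟨w', hw'⟩ : ∃ w', w' = r - (r' + k') / s := ⟨_, rfl⟩
  rw [← hw', sub_zero] at ek
  have hq : 0 ≤ (r' + k') / s := by positivity
  have ew : w = μ * (w - r) + s * (w - w' - (w - r)) - k' := by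
    rw [hw', er']
    field_simp
    ring
  have hkk : k' ≤ k := by
    have : 0 ≤ (x * (w + k') + Y₁ * (w - w')) / β :=
      div_nonneg (add_nonneg (by positivity) (mul_nonneg hY1.le (by linarith))) hβ0.le
    linarith
  refine ⟨c', t - κ - x * (x + Y₁ / μ) / β, w', k', hc1, hc2, hk0, hk1, hw', by linarith, ?_,
    fun g err he h3 h4 hg h => ?_⟩
  · have := invP (A := A) (B := B) hβ0.ne' hμ0.ne' hs0.ne' et eκ ek ew (by
      simpa only [sub_sub_cancel] using hI)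
    rwa [← hc', ← er', sub_sub_cancel] at this
  · exact fillP he (by exact_mod_cast hY1) hx (q₁ := w - r) (q := w - w') hβ0 hμ hs0 hsμ
      (by linarith) (by linarith) hr' h4 hk0 hwk (by linarith) hg et eκ ek ew (by ring) (by ring)
      er' hc' rfl rfl h

end Pool.Agent.Lib.MP_6e81d8_ag.H16
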