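import Pool.Agent.Lib.MP_6e81d8_ag.H16.First

/-!
A trapezoid of height `1 + f` is split into two windows with suitable defects.
-/

set_option autoImplicit false

namespace Pool.Agent.Lib.MP_6e81d8_ag.H16

open Finset

theorem pos_of_mul_pos_of_pos_right_aux {a b : ℝ} (h : 0 < a * b) (hb : 0 < b) : 0 < a :=
  (mul_pos_iff_of_pos_right hb).mp h

theorem window2 {X : ℝ} (hX : 10 ^ 8 ≤ X) (j : ℕ) {Y : ℕ} (hY : 10 ^ 7 * X + X + 12 * X * j ≤ Y)
    {β t w f Δ Z err : ℝ} (f1 : 9e-7 ≤ f) (f2 : f ≤ 3e-6) (w1 : 0.499 ≤ w) (w2 : w ≤ 0.501)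
    (hI : InvD Y β t w f Δ Z) (d1 : 0.149 * X ≤ Δ) (d2 : Δ ≤ 0.151 * X)
    (z1 : 0.105 * (f * X) ≤ Z) (z2 : Z ≤ 0.108 * (f * X)) (he : 4 * Y / 2 ^ j ≤ err) :
    Goal err Y w f (prof Y β t w f Δ Z fun _ => 0) := by
  have hX0 : 0 < X := by linarith [show (0 : ℝ) < 10 ^ 8 by norm_num]
  have hj : 0 ≤ X * j := by positivity
  have hY0 : (0 : ℝ) < Y := by linarith
  have hf : 0 < f := by linarith
  have h1 := mul_pos hf hX0
  have h2 := mul_le_mul_of_nonneg_right f2 hX0.le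
  obtain ⟨s1, s2⟩ := shapeD hI (by linarith) hf.le (by linarith) (by linarith)
  have h3 := mul_le_mul_of_nonneg_left w1 hY0.le
  have h4 := mul_le_mul_of_nonneg_left w2 hY0.le
  have h5 : 0.498 * Y ≤ β * f := by linarith
  have h6 : β * f ≤ 0.501 * Y := by linarith
  have hβ : 0 < β := pos_of_mul_pos_of_pos_right_aux (by linarith) hf
  have h7 := mul_le_mul_of_nonneg_left f2 hβ.le
  have h8 := mul_le_mul_of_nonneg_left w1 hX0.le
  have h9 := mul_le_mul_of_nonneg_left w2 hX0.le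
  have h10 := mul_pos hX0 hY0
  refine window hX j hY (by linarith) (by linarith) hf.le (by linarith) hI (by linarith)
    (by linarith) ?_ ?_ he
  · linarith [mul_le_mul_of_nonneg_left z1 hβ.le, mul_le_mul_of_nonneg_right h5 hX0.le,
      mul_le_mul_of_nonneg_right d2 hY0.le]
  · linarith [mul_le_mul_of_nonneg_left z2 hβ.le, mul_le_mul_of_nonneg_right h6 hX0.le,
      mul_le_mul_of_nonneg_right d1 hY0.le]

/-- The upper defect of the lower window. -/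
def Za (σ L f a b g y z c : ℝ) : ℝ :=
  L + σ * (1 + f - c) - (a + y) * (1 - c) - g - (b + g + z) * (c - f)

/-- The area defect of the lower window. -/
def Ar (σ L f a b g y z c : ℝ) : ℝ :=
  2 * Za σ L f a b g y z c * (c - f) + (σ - a + g + (b + g + z) - y) * (c - f) ^ 2 +
    2 * (L + σ * (1 + f) - a - (g + y) * (1 - c)) * f + (a - σ - g - y) * f ^ 2 - 2 * y * (c - f) * f

theorem real_sol {σ L f D Z : ℝ} (f1 : 9e-7 ≤ f) (f2 : f ≤ 3e-6) (L1 : σ / 3 ≤ L) (L2 : L ≤ 5 * σ)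
    (hZ : 0 ≤ Z) (hZD : Z ≤ D) (hD : 1e14 * D ≤ σ) :
    ∃ a b g y z, a + b + 2 * g + y + z = 2 * L * (1 + f) + σ * (1 + f) ^ 2 ∧
      L + σ * (1 + f) - a - (g + y) * ((1 - f) / 2) = D ∧ L - b - (g + z) * ((1 - f) / 2) = D ∧
      Za σ L f a b g y z ((1 + f) / 2) = Z ∧ Ar σ L f a b g y z ((1 + f) / 2) = 0 ∧
      1.2e-12 * σ ≤ g ∧ 5.5e-7 * σ ≤ y ∧ 5.5e-7 * σ ≤ z ∧ y ≤ σ / 1000 ∧ z ≤ σ / 1000 ∧
      σ / 4 ≤ a ∧ σ / 4 ≤ b := by
  have hσ : 0 ≤ σ := by linarith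
  have hf : 0 < f := by linarith
  have hh : 0 < 1 + f := by linarith
  have hff : f ^ 2 ≤ 3e-6 ^ 2 := pow_le_pow_left₀ hf.le f2 2
  have hff' : 9e-7 ^ 2 ≤ f ^ 2 := pow_le_pow_left₀ (by norm_num) f1 2
  have hQ : 0 < 1 + 2 * f - f ^ 2 := by linarith
  have hQ' : 1 + f * 2 - f ^ 2 ≠ 0 := by linarith
  obtain ⟨g, hg⟩ : ∃ g, g = (f ^ 2 * (2 * L + σ * (1 + f)) - 2 * Z) / (1 + f) := ⟨_, rfl⟩
  obtain ⟨E, hE⟩ : ∃ E, E = (Z * (1 - f) + D * (1 + 3 * f)) / (1 + f) := ⟨_, rfl⟩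
  have fσ1 := mul_le_mul_of_nonneg_left f1 hσ
  have fσ2 := mul_le_mul_of_nonneg_left f2 hσ
  have g1 : 1.2e-12 * σ ≤ g := by
    rw [hg, le_div_iff₀ hh]
    linarith [mul_le_mul hff' (by linarith : 5 / 3 * σ ≤ 2 * L + σ * (1 + f)) (by linarith)
      (sq_nonneg f)]
  have g2 : g ≤ 2e-10 * σ := by
    rw [hg, div_le_iff₀ hh]
    linarith [mul_le_mul hff (by linarith : 2 * L + σ * (1 + f) ≤ 12 * σ) (by linarith)
      (by norm_num)]
  have hD0 : 0 ≤ D := hZ.trans hZD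
  have fZ := mul_nonneg hZ hf.le
  have fD := mul_nonneg hD0 hf.le
  have fZ2 := mul_le_mul_of_nonneg_left f2 hZ
  have fD2 := mul_le_mul_of_nonneg_left f2 hD0
  have E1 : 0 ≤ E := by rw [hE]; exact div_nonneg (by linarith) hh.le
  have E2 : E ≤ 3 * D := by rw [hE, div_le_iff₀ hh]; linarith
  have g0 : 0 ≤ g := by linarith
  have fg := mul_nonneg g0 hf.le
  have fg2 := mul_le_mul_of_nonneg_left f2 g0
  have key : ∀ T, σ / 3 ≤ T → T ≤ 7 * σ →
      5.5e-7 * σ ≤ 2 * (f * (T - g * ((3 - f) / 2) - D) + E) / (1 + 2 * f - f ^ 2) ∧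
      2 * (f * (T - g * ((3 - f) / 2) - D) + E) / (1 + 2 * f - f ^ 2) ≤ σ / 1000 := by
    intro T T1 T2
    have u1 : 0.33 * σ ≤ T - g * ((3 - f) / 2) - D := by linarith
    have u2 : T - g * ((3 - f) / 2) - D ≤ 7 * σ := by linarith
    have u3 := mul_le_mul f1 u1 (by linarith) hf.le
    have u4 := mul_le_mul f2 u2 (by linarith) (by norm_num)
    have u5 := mul_le_mul_of_nonneg_left hff hσ
    have u6 := mul_nonneg hσ (sq_nonneg f)
    rw [le_div_iff₀ hQ, div_le_iff₀ hQ]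
    constructor <;> linarith
  obtain ⟨y1, y2⟩ := key (L + σ * f) (by linarith) (by linarith)
  obtain ⟨z1, z2⟩ := key (L + σ) (by linarith) (by linarith)
  obtain ⟨y, hy⟩ : ∃ y, y = 2 * (f * (L + σ * f - g * ((3 - f) / 2) - D) + E) / (1 + 2 * f - f ^ 2) :=
    ⟨_, rfl⟩
  obtain ⟨z, hz⟩ : ∃ z, z = 2 * (f * (L + σ - g * ((3 - f) / 2) - D) + E) / (1 + 2 * f - f ^ 2) :=
    ⟨_, rfl⟩
  rw [← hy] at y1 y2
  rw [← hz] at z1 z2
  have fy := mul_nonneg (by linarith : 0 ≤ y) hf.le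
  have fz := mul_nonneg (by linarith : 0 ≤ z) hf.le
  refine ⟨L + σ * (1 + f) - (g + y) * ((1 - f) / 2) - D, L - (g + z) * ((1 - f) / 2) - D, g, y, z,
    ?_, by ring, by ring, ?_, ?_, g1, y1, z1, y2, z2, by linarith, by linarith⟩
  · rw [hy, hz, hE, hg]
    field_simp
    ring
  · rw [Za, hy, hz, hE, hg]
    field_simp
    ring
  · rw [Ar, Za, hy, hz, hE, hg]
    field_simp
    ring

theorem abs_mul_le {u v U V : ℝ} (h1 : |u| ≤ U) (h2 : |v| ≤ V) : -(U * V) ≤ u * v ∧ u * v ≤ U * V :=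
  abs_le.mp (by rw [abs_mul]; exact mul_le_mul h1 h2 (abs_nonneg _) ((abs_nonneg _).trans h1))

theorem exists_cut {A J K η : ℝ} (h0 : 0 ≤ η) (h1 : |A| ≤ 100) (h2 : 200 ≤ J * η)
    (h3 : |K| * η ^ 2 ≤ 100) : ∃ e, |e| ≤ η ∧ A + J * e + K * e ^ 2 = 0 := by
  have h4 := abs_le.mp h1
  have h5 := mul_le_mul_of_nonneg_right (le_abs_self K) (sq_nonneg η)
  have h6 := mul_le_mul_of_nonneg_right (neg_abs_le K) (sq_nonneg η)
  obtain ⟨e, he, h⟩ := intermediate_value_Icc (f := fun e => A + J * e + K * e ^ 2)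
    (by linarith : -η ≤ η) (by fun_prop) (show (0 : ℝ) ∈ _ from ⟨by linarith, by linarith⟩)
  exact ⟨e, abs_le.mpr he, h⟩

theorem int_sol {σ L f D Z : ℝ} {n : ℕ} (f1 : 9e-7 ≤ f) (f2 : f ≤ 3e-6) (L1 : σ / 3 ≤ L)
    (L2 : L ≤ 5 * σ) (hZ : 100 ≤ Z) (hZD : Z ≤ D) (hD : 1e14 * D ≤ σ) (hσ : 1e40 ≤ σ)
    (hn : (n : ℝ) = 2 * L * (1 + f) + σ * (1 + f) ^ 2) :
    ∃ (a b g y z : ℕ) (c : ℝ), n = a + (y + g) + (g + z + b) ∧ |c - 1 / 2| ≤ 1e-5 ∧
      |L + σ * (1 + f) - a - (g + y) * (1 - c) - D| ≤ 1e17 ∧ |L - b - (g + z) * (c - f) - D| ≤ 1e17 ∧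
      |Za σ L f a b g y z c - Z| ≤ 1e17 ∧
      |L + σ * (1 + f - c) - (b + z) * (c - f) - g - (a + g + y) * (1 - c) - Z| ≤ 1e17 ∧
      Ar σ L f a b g y z c = 0 ∧ 5e-7 * σ ≤ y ∧ 5e-7 * σ ≤ z ∧ y ≤ σ ∧ z ≤ σ := by
  obtain ⟨a, b, g, y, z, e1, e2, e3, e4, e5, g1, y1, z1, y2, z2, a1, b1⟩ :=
    real_sol f1 f2 L1 L2 (by linarith) hZD hD
  rw [← hn] at e1
  have hσ0 : 0 < σ := by linarith
  have hf : 0 < f := by linarith
  have hn2 : (n : ℝ) ≤ 12 * σ := by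
    have u1 : (1 + f) ^ 2 ≤ 1.01 ^ 2 := pow_le_pow_left₀ (by linarith) (by linarith) 2
    linarith [mul_le_mul_of_nonneg_left u1 hσ0.le,
      mul_le_mul L2 (by linarith : 1 + f ≤ 1.01) (by linarith) (by linarith)]
  have fl : ∀ u : ℝ, 0 ≤ u → ∃ (m : ℕ) (e : ℝ), (m : ℝ) = u - e ∧ 0 ≤ e ∧ e ≤ 1 := fun u hu =>
    ⟨⌊u⌋₊, u - ⌊u⌋₊, by ring, by linarith [Nat.floor_le hu], by linarith [Nat.lt_floor_add_one u]⟩
  obtain ⟨a', ea, ha, ea1, ea2⟩ := fl a (by linarith)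
  obtain ⟨g', eg, hg, eg1, eg2⟩ := fl g (by linarith)
  obtain ⟨y', ey, hy, ey1, ey2⟩ := fl y (by linarith)
  obtain ⟨z', ez, hz, ez1, ez2⟩ := fl z (by linarith)
  obtain ⟨b', hb'⟩ : ∃ b', n = a' + (y' + g') + (g' + z' + b') := by
    have : ((a' + (y' + g') + (g' + z') : ℕ) : ℝ) ≤ n := by push_cast; linarith
    obtain ⟨b', hb'⟩ := Nat.exists_eq_add_of_le (Nat.cast_le.mp this)
    exact ⟨b', by omega⟩
  have hb : (b' : ℝ) = b + (ea + 2 * eg + ey + ez) := by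
    have := congrArg (Nat.cast : ℕ → ℝ) hb'
    push_cast at this
    linarith
  obtain ⟨w, hw⟩ : ∃ w, w = (1 - f) / 2 := ⟨_, rfl⟩
  have w1 : |w| ≤ 1 := abs_le.mpr ⟨by linarith, by linarith⟩
  have w2 : |f| ≤ 1 := abs_le.mpr ⟨by linarith, by linarith⟩
  have hZ0 : Za σ L f a' b' g' y' z' ((1 + f) / 2) = Z + eg + (-eg) * w := by
    rw [← e4, Za, Za, ha, hb, hg, hy, hz, hw]
    ring
  have p1 := abs_mul_le (abs_le.mpr ⟨by linarith, by linarith⟩ : |-eg| ≤ 1) w1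
  have hA0 : Ar σ L f a' b' g' y' z' ((1 + f) / 2) = (ea + ey + eg) * (w + f + f * w) := by
    rw [← sub_zero (Ar σ L f a' b' g' y' z' ((1 + f) / 2)), ← e5, Ar, Ar, Za, Za, ha,
      hb, hg, hy, hz, hw]
    ring
  have p2 := abs_mul_le (abs_le.mpr ⟨by linarith, by linarith⟩ : |ea + ey + eg| ≤ 3)
    (abs_le.mpr ⟨by linarith [(abs_mul_le w2 w1).1], by linarith [(abs_mul_le w2 w1).2]⟩ :
      |w + f + f * w| ≤ 3)
  obtain ⟨η, hη⟩ : ∃ η, σ * η = 1e15 := ⟨1e15 / σ, by field_simp⟩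
  have η0 : 0 ≤ η := nonneg_of_mul_nonneg_right (by rw [hη]; norm_num) hσ0
  have η1 : η ≤ 1e-25 := by linarith [mul_le_mul_of_nonneg_right hσ η0]
  have hK : |-σ + a' + y' - b' - z'| ≤ 13 * σ := abs_le.mpr ⟨by linarith, by linarith⟩
  obtain ⟨e, he, hc⟩ := exists_cut (A := Ar σ L f a' b' g' y' z' ((1 + f) / 2))
    (J := 2 * Za σ L f a' b' g' y' z' ((1 + f) / 2) + g' * (1 + f))
    (K := -σ + a' + y' - b' - z') η0 (by rw [hA0]; exact abs_le.mpr ⟨by linarith, by linarith⟩)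
    (by
      have u1 : 1e-12 * σ ≤ 2 * Za σ L f a' b' g' y' z' ((1 + f) / 2) + g' * (1 + f) := by
        linarith [mul_nonneg (Nat.cast_nonneg (α := ℝ) g') hf.le]
      linarith [mul_le_mul_of_nonneg_right u1 η0])
    (by
      have u1 := mul_le_mul_of_nonneg_right hK (sq_nonneg η)
      have u2 : σ * η ^ 2 = 1e15 * η := by rw [← hη]; ring
      linarith)
  have p3 := abs_le.mp he
  have p4 := abs_mul_le (abs_le.mpr ⟨by linarith, by linarith⟩ : |(g' + y' : ℝ)| ≤ 13 * σ) he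
  have p5 := abs_mul_le (abs_le.mpr ⟨by linarith, by linarith⟩ : |(g' + z' : ℝ)| ≤ 13 * σ) he
  have p6 := abs_mul_le (abs_le.mpr ⟨by linarith, by linarith⟩ :
    |(-σ + a' + y' - b' - g' - z' : ℝ)| ≤ 13 * σ) he
  have p7 := abs_mul_le (abs_le.mpr ⟨by linarith, by linarith⟩ :
    |(-σ + a' + g' + y' - b' - z' : ℝ)| ≤ 13 * σ) he
  have p8 := abs_mul_le (abs_le.mpr ⟨by linarith, by linarith⟩ : |eg + ey| ≤ 2) w1
  have p9 := abs_mul_le (abs_le.mpr ⟨by linarith, by linarith⟩ : |eg + ez| ≤ 2) w1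
  refine ⟨a', b', g', y', z', (1 + f) / 2 + e, hb', abs_le.mpr ⟨by linarith, by linarith⟩, ?_, ?_,
    ?_, ?_, ?_, by linarith, by linarith, by linarith, by linarith⟩
  · have : L + σ * (1 + f) - a' - (g' + y') * (1 - ((1 + f) / 2 + e)) - D =
        ea + (eg + ey) * w + (g' + y') * e := by
      rw [← e2, ha, hg, hy, hw]
      ring
    rw [this]
    exact abs_le.mpr ⟨by linarith, by linarith⟩
  · have : L - b' - (g' + z') * ((1 + f) / 2 + e - f) - D =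
        -(ea + 2 * eg + ey + ez) + (eg + ez) * w - (g' + z') * e := by
      rw [← e3, hb, hg, hz, hw]
      ring
    rw [this]
    exact abs_le.mpr ⟨by linarith, by linarith⟩
  · have : Za σ L f a' b' g' y' z' ((1 + f) / 2 + e) = Za σ L f a' b' g' y' z' ((1 + f) / 2) +
        (-σ + a' + y' - b' - g' - z') * e := by
      rw [Za, Za]
      ring
    rw [this]
    exact abs_le.mpr ⟨by linarith, by linarith⟩
  · have : L + σ * (1 + f - ((1 + f) / 2 + e)) - (b' + z') * ((1 + f) / 2 + e - f) - g' -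
        (a' + g' + y') * (1 - ((1 + f) / 2 + e)) = Za σ L f a' b' g' y' z' ((1 + f) / 2) +
        (-σ + a' + g' + y' - b' - z') * e := by
      rw [Za]
      ring
    rw [this]
    exact abs_le.mpr ⟨by linarith, by linarith⟩
  · rw [← hc, Ar, Ar, Za, Za]
    ring

/-- The trapezoid with row lengths `L + σ (1 + f - t)` and area `n / 2` is filled by `n` points. -/
theorem trap {σ L f : ℝ} {n : ℕ} (j : ℕ) (f1 : 9e-7 ≤ f) (f2 : f ≤ 3e-6) (L1 : σ / 3 ≤ L)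
    (L2 : L ≤ 5 * σ) (hσ : 1e50 ≤ σ) (hj : 1e38 * j ≤ σ)
    (hn : (n : ℝ) = 2 * L * (1 + f) + σ * (1 + f) ^ 2) :
    ∃ c : ℝ, ∀ R : Finset ℝ, (∀ t ∈ R, 0 < t ∧ t < 1 + f ∧ t ≠ c) →
      Fill R 0 (1 + f) n (fun t => n - (L + σ * (1 + f - t)) - 4 * σ / 2 ^ j)
        (fun t => n - (L + σ * (1 + f - t)) + 4 * σ / 2 ^ j) := by
  obtain ⟨a, b, g, y, z, c, e1, c1, d1, d2, d3, d4, e2, y1, z1, y2, z2⟩ :=
    int_sol (D := 0.15 * 1e30) (Z := 0.1065 * (f * 1e30)) f1 f2 L1 L2 (by linarith) (by linarith)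
      (by linarith) (by linarith) hn
  rw [abs_le] at c1 d1 d2 d3 d4
  have hn' : (n : ℝ) = a + (y + g) + (g + z + b) := by exact_mod_cast e1
  have hX : (10 : ℝ) ^ 8 ≤ 1e30 := by norm_num
  have herr : ∀ Y : ℝ, Y ≤ σ → 4 * Y / 2 ^ j ≤ 4 * σ / 2 ^ j := fun Y hY =>
    div_le_div_of_nonneg_right (by linarith) (by positivity)
  have Wa := window2 hX j (Y := y) (by linarith) (β := a - σ - g - y)
    (t := σ - a + g + (b + g + z) - y) (w := c - f) (Δ := L + σ * (1 + f) - a - (g + y) * (1 - c))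
    (Z := Za σ L f a b g y z c) f1 f2 (by linarith) (by linarith)
    ⟨by rw [Za]; ring, e2⟩ (by linarith) (by linarith) (by linarith) (by linarith) (herr y y2)
  have Wb := window2 hX j (Y := z) (by linarith) (β := σ + b - g - z)
    (t := -σ - b + g + (a + g + y) - z) (w := 1 - c) (Δ := L - b - (g + z) * (c - f))
    (Z := L + σ * (1 + f - c) - (b + z) * (c - f) - g - (a + g + y) * (1 - c)) f1 f2 (by linarith)
    (by linarith) ⟨by ring, by
      rw [Ar, Za] at e2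
      linear_combination hn' - hn - e2⟩ (by linarith) (by linarith) (by linarith) (by linarith)
    (herr z z2)
  refine ⟨c, fun R hR => ?_⟩
  have hRa : ∀ t ∈ R.filter (· < c), 0 < t ∧ t < c := fun t ht =>
    ⟨(hR t (mem_filter.mp ht).1).1, (mem_filter.mp ht).2⟩
  have hRb : ∀ t ∈ R.filter (c < ·), c < t ∧ t < 1 + f := fun t ht =>
    ⟨(mem_filter.mp ht).2, (hR t (mem_filter.mp ht).1).2.1⟩
  have Fa := Fill.affine (a := 0) (b := c) f (by
    rw [zero_sub]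
    refine Wa ((R.filter (· < c)).image fun t => t - f) fun t ht => ?_
    obtain ⟨u, hu, rfl⟩ := mem_image.mp ht
    exact ⟨by linarith [(hRa u hu).1], by linarith [(hRa u hu).2]⟩)
  have Fb := Fill.mirror (a := c) (b := 1 + f) 1 (by
    rw [show 1 - (1 + f) = -f by ring]
    refine Wb ((R.filter (c < ·)).image fun t => 1 - t) fun t ht => ?_
    obtain ⟨u, hu, rfl⟩ := mem_image.mp ht
    exact ⟨by linarith [(hRb u hu).2], by linarith [(hRb u hu).1]⟩)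
  have F := join hR (by linarith) (by linarith)
    ((Fa.addB hRa (by linarith) g).addA hRa (by linarith) a)
    ((Fb.addA hRb (by linarith) g).addB hRb (by linarith) b)
  rw [← e1] at F
  have key : ∀ t ∈ R, ∀ E : ℝ, (if t < c then
      prof y (a - σ - g - y) (σ - a + g + (b + g + z) - y) (c - f) f
        (L + σ * (1 + f) - a - (g + y) * (1 - c)) (Za σ L f a b g y z c) (fun _ => 0) (t - f) + E
        + g * min 1 (c - t) + a * min 1 (t - 0) + (g + z + b : ℕ) * min 1 (1 + f - t)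
      else prof z (σ + b - g - z) (-σ - b + g + (a + g + y) - z) (1 - c) f
        (L - b - (g + z) * (c - f))
        (L + σ * (1 + f - c) - (b + z) * (c - f) - g - (a + g + y) * (1 - c)) (fun _ => 0) (1 - t)
        + E + g * min 1 (t - c) + b * min 1 (1 + f - t) + (a + (y + g) : ℕ) * min 1 (t - 0)) =
      n - (L + σ * (1 + f - t)) + E := by
    intro t ht E
    obtain ⟨h1, h2, -⟩ := hR t ht
    rw [hn']
    push_cast
    unfold prof
    split_ifs with h3 h4 h4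
    · rw [min_eq_right (by linarith), min_eq_right (by linarith), min_eq_left (by linarith)]
      ring
    · rw [min_eq_right (by linarith), min_eq_right (by linarith), min_eq_right (by linarith), Za]
      ring
    · rw [min_eq_right (by linarith), min_eq_right (by linarith), min_eq_left (by linarith)]
      ring
    · rw [min_eq_right (by linarith), min_eq_right (by linarith), min_eq_right (by linarith)]
      ring
  exact F.mono (fun t ht => (key t ht (-(4 * σ / 2 ^ j))).ge) (fun t ht => (key t ht _).le)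

end Pool.Agent.Lib.MP_6e81d8_ag.H16
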