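import Pool.Agent.Lib.MP_6e81d8_ag.H16.Trap
import Pool.Agent.Lib.MP_6e81d8_ag.H16.Disc
import Pool.Agent.Lib.MP_6e81d8_ag.ExpDefs

/-!
The two-sided approximate theorem on trapezoids, for exponentially large multiplicities.
-/

set_option autoImplicit false

namespace Pool.Agent.Lib.MP_6e81d8_ag.H16

open Finset

theorem two_pow_ge {x : ℝ} (hx : 1e12 ≤ x) : 8000 * Real.exp (x / 10) ≤ 2 ^ ⌊x⌋₊ := by
  have h1 : Real.exp (1 / 2) ≤ 2 := by
    have h2 : Real.exp (1 / 2) ^ 2 = Real.exp 1 := by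
      rw [← Real.exp_nat_mul]
      norm_num
    have := Real.exp_one_lt_d9
    nlinarith [Real.exp_pos (1 / 2)]
  have h2 : Real.exp (⌊x⌋₊ * (1 / 2)) ≤ 2 ^ ⌊x⌋₊ := by
    rw [Real.exp_nat_mul]
    exact pow_le_pow_left₀ (Real.exp_pos _).le h1 _
  have h3 := Nat.lt_floor_add_one x
  have h4 : Real.exp (x / 10) * Real.exp (0.4 * x - 1 / 2) ≤ Real.exp (⌊x⌋₊ * (1 / 2)) := by
    rw [← Real.exp_add]
    exact Real.exp_le_exp.mpr (by linarith)
  have h5 := mul_le_mul_of_nonneg_left (Real.add_one_le_exp (0.4 * x - 1 / 2))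
    (Real.exp_pos (x / 10)).le
  nlinarith [Real.exp_pos (x / 10)]

theorem err_le {σ m : ℝ} (hσ : 1e50 ≤ σ) (hm : m ≤ Real.exp (1e-39 * σ)) :
    (m + 1) * (4 * σ / 2 ^ ⌊σ / 1e38⌋₊) ≤ σ / 1000 := by
  have h1 := two_pow_ge (x := σ / 1e38) (by linarith)
  rw [show σ / 1e38 / 10 = 1e-39 * σ by ring] at h1
  have h2 := Real.add_one_le_exp (1e-39 * σ)
  rw [← mul_div_assoc, div_le_iff₀ (by positivity)]
  have h3 : m + 1 ≤ 2 ^ ⌊σ / 1e38⌋₊ / 4000 := by linarith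
  nlinarith

theorem trap_rows {σ M H Λ u v : ℝ} {n : ℕ} (D : ℕ) (hM : 0 < M) (f1 : (1 + 9e-7) * M ≤ H)
    (f2 : H ≤ (1 + 3e-6) * M) (L1 : σ * M / 3 ≤ Λ) (L2 : Λ ≤ 5 * (σ * M)) (hσ : 1e50 ≤ σ)
    (hn : M ^ 2 * n = 2 * Λ * H + σ * H ^ 2) (hu : 0 ≤ u) (huv : u < v) (hv : D - 1 + v ≤ H) :
    ∃ ξ, u < ξ ∧ ξ < v ∧ ∃ S₁ S₂ : ℝ → ℝ,
      Fill ((range D).image fun t : ℕ => (t + ξ) / M) 0 (H / M) n S₁ S₂ ∧ ∀ t : ℝ,
        M * (n - S₁ ((t + ξ) / M)) = Λ + σ * (H - t - ξ) + M * (4 * σ / 2 ^ ⌊σ / 1e38⌋₊) ∧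
        M * (n - S₂ ((t + ξ) / M)) = Λ + σ * (H - t - ξ) - M * (4 * σ / 2 ^ ⌊σ / 1e38⌋₊) := by
  have e : 1 + (H / M - 1) = H / M := by ring
  obtain ⟨c, hc⟩ := trap (σ := σ) (L := Λ / M) (f := H / M - 1) (n := n) ⌊σ / 1e38⌋₊
    (by rw [le_sub_iff_add_le, le_div_iff₀ hM]; linarith)
    (by rw [sub_le_iff_le_add, div_le_iff₀ hM]; linarith)
    (by rw [le_div_iff₀ hM]; linarith) (by rw [div_le_iff₀ hM]; linarith) hσ
    (by linarith [Nat.floor_le (by positivity : 0 ≤ σ / 1e38)])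
    (by rw [e]; field_simp; linarith)
  rw [e] at hc
  obtain ⟨ξ, h1, h2, h3⟩ := exists_shift D M hM {c} huv
  refine ⟨ξ, h1, h2, _, _, hc _ fun t ht => ?_, fun t => ⟨?_, ?_⟩⟩
  · obtain ⟨s, hs, rfl⟩ := mem_image.mp ht
    have h4 : (s : ℝ) + 1 ≤ D := by exact_mod_cast mem_range.mp hs
    refine ⟨div_pos (by linarith [Nat.cast_nonneg (α := ℝ) s]) hM,
      div_lt_div_of_pos_right (by linarith) hM, by simpa using h3 s (mem_range.mp hs)⟩
  · field_simp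
    ring
  · field_simp
    ring

theorem sum_trap (sg lam : ℕ) : ∀ k, sg * k ≤ lam →
    2 * ((∑ t ∈ range k, (lam - sg * t) : ℕ) : ℝ) = 2 * k * lam - sg * k * (k - 1) := by
  intro k
  induction k with
  | zero => simp
  | succ k ih =>
    intro h
    have h1 : sg * k ≤ lam := le_trans (Nat.mul_le_mul_left _ (Nat.le_succ k)) h
    rw [sum_range_succ, Nat.cast_add, mul_add, ih h1, Nat.cast_sub h1]
    push_cast
    ring

theorem numE {σ m k l Λ H N z : ℝ} (hσ : 0 < σ) (hN : 0 ≤ N) (hm : 1e8 ≤ m) (k1 : 1000001 * m ≤ 1000000 * k)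
    (k2 : 1000000 * k ≤ 1000002 * m) (l1 : σ * m ≤ 2 * l) (l2 : l ≤ 4 * (σ * m) + σ)
    (hH : H = k - 1 + 1e-6) (hz : 2 * z = 2 * k * l + σ * k * (k - 1))
    (hn : m ^ 2 * N = 2 * Λ * H + σ * H ^ 2) (h1 : 200 * z + 2 * (σ * m) ≤ 100 * (N * (m * (m + 1))))
    (h2 : N * (m * (m + 1)) ≤ 2 * z + 10 * (σ * m)) :
    l + σ / 1000 ≤ Λ ∧ Λ ≤ 5 * (σ * m) := by
  have hH0 : m ≤ H := by linarith
  have hH1 : H ≤ 1.000002 * m := by linarith
  have hm0 : 0 < m := by linarith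
  have hs : 0 < σ * m := by positivity
  have hs' := mul_le_mul_of_nonneg_left hm hσ.le
  have hmm := mul_le_mul_of_nonneg_left hm hm0.le
  have e1 : (m + 1) * H ≤ m * k + 4e-6 * m := by rw [hH]; nlinarith
  have e0 : (m + 1) * (2 * Λ * H + σ * H ^ 2) = m * (N * (m * (m + 1))) := by rw [← hn]; ring
  constructor
  · by_contra hcon
    rw [not_le] at hcon
    have a1 := mul_le_mul_of_nonneg_left h1 hm0.le
    have a2 : Λ * ((m + 1) * H) ≤ (l + σ / 1000) * (m * k + 4e-6 * m) :=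
      (mul_le_mul_of_nonneg_right hcon.le (mul_nonneg (by linarith) (by linarith))).trans
        (mul_le_mul_of_nonneg_left e1 (by linarith))
    have a3 : H * ((m + 1) * H) ≤ H * (m * k + 4e-6 * m) :=
      mul_le_mul_of_nonneg_left e1 (by linarith)
    have a4 := mul_le_mul_of_nonneg_left a3 hσ.le
    have a5 := mul_le_mul_of_nonneg_left l2 hm0.le
    have a6 := mul_le_mul_of_nonneg_left k2 hs.le
    have a7 := mul_le_mul_of_nonneg_left hH1 hs.le
    have a8 := mul_le_mul_of_nonneg_left hm hs.le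
    have a9 : m * (2 * z) = m * (2 * k * l + σ * k * (k - 1)) := by rw [hz]
    have a10 : σ * m * k * H = σ * m * k * (k - 1 + 1e-6) := by rw [hH]
    nlinarith
  · by_contra hcon
    rw [not_le] at hcon
    have a1 := mul_nonneg hN hm0.le
    have a2 := mul_le_mul_of_nonneg_right hcon.le (by linarith : 0 ≤ H)
    have a3 := mul_le_mul_of_nonneg_left hH0 hs.le
    have a4 := mul_le_mul_of_nonneg_left l2 (by linarith : 0 ≤ k)
    have a5 := mul_le_mul_of_nonneg_left k2 hs.le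
    have a6 := mul_le_mul_of_nonneg_left k2 hσ.le
    have a7 : k * (k - 1) ≤ H ^ 2 + m := by rw [hH]; nlinarith
    have a8 := mul_le_mul_of_nonneg_left a7 hσ.le
    have a9 := mul_le_mul_of_nonneg_left hm hs.le
    nlinarith

theorem numR {σ m k l Λ H N z : ℝ} (hσ : 0 < σ) (hm : 1e8 ≤ m) (k1 : 1000001 * m ≤ 1000000 * k)
    (k2 : 1000000 * k ≤ 1000002 * m) (l1 : σ * m ≤ 2 * l) (l2 : l ≤ 4 * (σ * m))
    (hH : H = k + 1 - 1e-6) (hz : 2 * z = 2 * k * l + σ * k * (k + 1))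
    (hn : (m + 1) ^ 2 * N = 2 * Λ * H + σ * H ^ 2)
    (h1 : 100 * (N * (m * (m + 1))) + 2 * (σ * m) ≤ 200 * z)
    (h2 : 2 * z ≤ N * (m * (m + 1)) + 10 * (σ * m)) :
    Λ + σ / 1000 ≤ l ∧ σ * (m + 1) / 3 ≤ Λ := by
  have hH0 : m ≤ H := by linarith
  have hH1 : H ≤ 1.000003 * m := by linarith
  have hm0 : 0 < m := by linarith
  have hs : 0 < σ * m := by positivity
  have hs' := mul_le_mul_of_nonneg_left hm hσ.le
  have hmm := mul_le_mul_of_nonneg_left hm hm0.le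
  have e1 : (m + 1) * k - 3e-6 * m ≤ m * H := by rw [hH]; nlinarith
  have e2 : m * H ≤ (m + 1) * k := by rw [hH]; nlinarith
  have e0 : m * (2 * Λ * H + σ * H ^ 2) = (m + 1) * (N * (m * (m + 1))) := by rw [← hn]; ring
  have a9 : (m + 1) * (2 * z) = (m + 1) * (2 * k * l + σ * k * (k + 1)) := by rw [hz]
  have a10 : σ * (m + 1) * k * H = σ * (m + 1) * k * (k + 1 - 1e-6) := by rw [hH]
  have a6 := mul_le_mul_of_nonneg_left k2 hs.le
  have a6' := mul_le_mul_of_nonneg_left k2 hσ.le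
  have a7 := mul_le_mul_of_nonneg_left hH1 hs.le
  have a8 := mul_le_mul_of_nonneg_left hm hs.le
  constructor
  · by_contra hcon
    rw [not_le] at hcon
    have a1 := mul_le_mul_of_nonneg_left h1 (by linarith : 0 ≤ m + 1)
    have a2 := mul_le_mul_of_nonneg_right hcon.le (mul_nonneg hm0.le (by linarith : 0 ≤ H))
    have a3 := mul_le_mul_of_nonneg_left e1 (by linarith : 0 ≤ l)
    have a4 := mul_le_mul_of_nonneg_left e1 (mul_nonneg hσ.le (by linarith : 0 ≤ H))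
    have a5 := mul_le_mul_of_nonneg_left l2 hm0.le
    nlinarith
  · by_contra hcon
    rw [not_le] at hcon
    have a1 := mul_le_mul_of_nonneg_left h2 (by linarith : 0 ≤ m + 1)
    have a2 := mul_le_mul_of_nonneg_right hcon.le (mul_nonneg hm0.le (by linarith : 0 ≤ H))
    have a3 := mul_le_mul_of_nonneg_left e2 (mul_nonneg hσ.le (by linarith : 0 ≤ H))
    have a4 := mul_le_mul_of_nonneg_left l1 (mul_nonneg (by linarith : 0 ≤ m + 1)
      (by linarith : 0 ≤ k))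
    have a5 := mul_le_mul_of_nonneg_left e2 (mul_nonneg hσ.le (by linarith : 0 ≤ m + 1))
    have a11 := mul_nonneg (mul_nonneg hσ.le (by linarith : 0 ≤ m + 1)) (by linarith : 0 ≤ k)
    have a12 := mul_le_mul_of_nonneg_left (by linarith : m - 2 ≤ k) (mul_nonneg hs.le
      (by linarith : 0 ≤ m + 1))
    have a13 := mul_le_mul_of_nonneg_left hm (mul_nonneg hs.le (by linarith : 0 ≤ m + 1))
    have a14 := mul_le_mul_of_nonneg_left hm a11
    nlinarith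

theorem trap_disc : ∃ c : ℝ, 0 < c ∧ ∃ N₀, Trap c N₀ := by
  refine ⟨1e-39, by norm_num, 10 ^ 50, fun sg m k lam n h0 h1 h2 k1 k2 l1 l2 => ?_⟩
  have hσ : (1e50 : ℝ) ≤ sg := by
    have : ((10 : ℝ) ^ 50) ≤ sg := by exact_mod_cast h0
    linarith [show (1e50 : ℝ) = 10 ^ 50 by norm_num]
  have hm : (1e8 : ℝ) ≤ m := by
    have : (sg : ℝ) ≤ 20 * m := by exact_mod_cast h1
    linarith
  have he := err_le hσ h2
  have he0 : (0 : ℝ) ≤ 4 * sg / 2 ^ ⌊(sg : ℝ) / 1e38⌋₊ := by positivity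
  have hz := sum_trap sg lam k (by omega)
  have ht : (2 : ℝ) * tri m = m * (m + 1) := by exact_mod_cast two_tri m
  have hlt : ∀ t < k, ((lam - sg * t : ℕ) : ℝ) = lam - sg * t := fun t ht => by
    rw [Nat.cast_sub (le_trans (Nat.mul_le_mul_left _ ht.le) (by omega)), Nat.cast_mul]
  have hmk : m ≤ k := by omega
  replace k1 : (1000001 : ℝ) * m ≤ 1000000 * k := by exact_mod_cast k1
  replace k2 : (1000000 : ℝ) * k ≤ 1000002 * m := by exact_mod_cast k2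
  replace l1 : (2 : ℝ) * (sg * k) + sg * m ≤ 2 * lam := by exact_mod_cast l1
  replace l2 : (lam : ℝ) ≤ sg * k + 4 * (sg * m) := by exact_mod_cast l2
  have hn : (n : ℝ) * (m * (m + 1)) = 2 * (n * tri m) := by rw [← ht]; ring
  have hs : (0 : ℝ) ≤ sg * m := by positivity
  refine ⟨fun h3 h4 => ?_, fun h3 h4 => ?_⟩
  · generalize ∑ t ∈ range k, (lam - sg * t) = z at *
    replace h3 : (100 : ℝ) * z + sg * m ≤ 100 * (n * tri m) := by exact_mod_cast h3
    replace h4 : (n : ℝ) * tri m ≤ z + 5 * (sg * m) := by exact_mod_cast h4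
    obtain ⟨H, hH⟩ : ∃ H : ℝ, H = k - 1 + 1e-6 := ⟨_, rfl⟩
    have hH0 : 0 < H := by linarith
    obtain ⟨Λ, hΛ⟩ : ∃ Λ : ℝ, (m : ℝ) ^ 2 * n = 2 * Λ * H + sg * H ^ 2 :=
      ⟨(m ^ 2 * n - sg * H ^ 2) / (2 * H), by field_simp; ring⟩
    obtain ⟨b1, b2⟩ := numE (l := lam - sg * (k - 1)) (z := z) (by linarith) n.cast_nonneg hm k1 k2
      (by linarith) (by linarith) hH (by linarith) hΛ (by linarith) (by linarith)
    obtain ⟨ξ, -, x2, S₁, S₂, hF, hS⟩ := trap_rows (u := 0) (v := 1e-6) k (by linarith)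
      (by linarith) (by linarith) (by linarith) b2 hσ hΛ le_rfl (by norm_num) hH.ge
    refine good_of_fill (by exact_mod_cast (by linarith : (0 : ℝ) < m)) hF fun t ht => ?_
    rw [(hS t).2, hlt t ht, hH]
    linarith [mul_le_mul_of_nonneg_left x2.le (by linarith : (0 : ℝ) ≤ sg)]
  · obtain ⟨H, hH⟩ : ∃ H : ℝ, H = k + 1 - 1e-6 := ⟨_, rfl⟩
    have hH0 : 0 < H := by linarith
    obtain ⟨Λ, hΛ⟩ : ∃ Λ : ℝ, ((m : ℝ) + 1) ^ 2 * n = 2 * Λ * H + sg * H ^ 2 :=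
      ⟨((m + 1) ^ 2 * n - sg * H ^ 2) / (2 * H), by field_simp; ring⟩
    replace h3 : (100 : ℝ) * (n * tri m) + sg * m ≤ 100 * (∑ t ∈ range k, (lam - sg * t) : ℕ) := by
      exact_mod_cast h3
    replace h4 : ((∑ t ∈ range k, (lam - sg * t) : ℕ) : ℝ) ≤ n * tri m + 5 * (sg * m) := by
      exact_mod_cast h4
    obtain ⟨b1, b2⟩ := numR (l := lam - sg * k) (z := (∑ t ∈ range k, (lam - sg * t) : ℕ))
      (by linarith) hm k1 k2 (by linarith) (by linarith) hH (by linarith) hΛ (by linarith)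
      (by linarith)
    obtain ⟨ξ, x1, x2, S₁, S₂, hF, hS⟩ := trap_rows (u := 1 - 1e-6) (v := 1) k (by linarith)
      (by linarith) (by linarith) b2 (by linarith) hσ hΛ (by norm_num) (by norm_num) (by linarith)
    refine reg_of_fill hmk hF (by linarith) (by rw [mul_div_cancel₀ _ (by positivity)]; linarith)
      fun t ht => ?_
    rw [(hS t).1, hlt t ht, hH]
    linarith [mul_le_mul_of_nonneg_left x1.le (by linarith : (0 : ℝ) ≤ sg)]

end Pool.Agent.Lib.MP_6e81d8_ag.H16
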