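import Pool.Agent.Lib.MP_6e81d8_ag.H16.TrapDisc

/-!
Emptiness of linear systems whose degree is below the square root bound by an exponentially
small relative amount.
-/

set_option autoImplicit false

namespace Pool.Agent.Lib.MP_6e81d8_ag.H16

open Finset Polynomial

theorem ell_le (s e t : ℕ) : ell s e e t ≤ s * (e - t * s) := by
  refine (sz_mono (min_le_left _ _) le_rfl).trans ?_
  have : s * (e - t * s) = ∑ _a ∈ range s, (e - t * s) := by simp
  rw [this]
  exact sum_le_sum fun a _ => Nat.sub_le _ _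

/-- The triangle of height `2 + f` is a trapezoid of height `1 + f` and a triangle of height one. -/
theorem bd_hom {n s m e : ℕ} {r : ℝ} (hr : r ^ 2 = (n + s * s : ℕ)) (s1 : (2 + 9e-7) * s ≤ r)
    (s2 : r ≤ (2 + 3e-6) * s) (hs : (1e25 : ℝ) ≤ s) (hm : 0 < m)
    (he : e + s + m * (4 * s / 2 ^ ⌊(s * s : ℝ) / 1e38⌋₊) ≤ m * r) :
    Bd (fun _ : Fin (n + s * s) => m) (Dsp e e) univ 0 := by
  have hs0 : (0 : ℝ) < s := by linarith
  have hm' : (1 : ℝ) ≤ m := by exact_mod_cast hm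
  have hσ : (1e50 : ℝ) ≤ s * s := by nlinarith
  obtain ⟨H, hH⟩ : ∃ H : ℝ, H = r / s - 1 := ⟨_, rfl⟩
  have hr' : r = (H + 1) * s := by rw [hH]; field_simp; ring
  have e1 : 1 + (H - 1) = H := by ring
  have H1 : 1 + 9e-7 ≤ H := le_of_mul_le_mul_right (by linarith) hs0
  obtain ⟨c, hc⟩ := trap (σ := s * s) (L := s * s) (f := H - 1) (n := n) ⌊(s * s : ℝ) / 1e38⌋₊
    (by linarith) (le_of_mul_le_mul_right (by linarith) hs0) (by linarith) (by linarith) hσ
    (by linarith [Nat.floor_le (by positivity : (0 : ℝ) ≤ s * s / 1e38)])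
    (by rw [hr'] at hr; push_cast at hr; linarith)
  rw [e1] at hc
  have herr := err_le (m := 0) hσ (Real.exp_pos _).le
  have herr0 : (0 : ℝ) ≤ 4 * (s * s) / 2 ^ ⌊(s * s : ℝ) / 1e38⌋₊ := by positivity
  have he' : s * (e + s) + m * (4 * (s * s) / 2 ^ ⌊(s * s : ℝ) / 1e38⌋₊) ≤
      m * ((H + 1) * (s * s)) := by
    have := mul_le_mul_of_nonneg_left he hs0.le
    rw [hr'] at this
    generalize (2 : ℝ) ^ ⌊(s * s : ℝ) / 1e38⌋₊ = w at *
    simp only [div_eq_mul_inv] at this ⊢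
    linarith
  generalize 4 * (s * s : ℝ) / 2 ^ ⌊(s * s : ℝ) / 1e38⌋₊ = err at *
  obtain ⟨ξ, x1, x2, x3⟩ := exists_shift e m (by linarith) {c, H} zero_lt_one
  have hR : ∀ t ∈ (range e).image fun t : ℕ => (t + ξ) / m, 0 < t ∧ t < H + 1 + e ∧ t ≠ H ∧ t ≠ c := by
    intro t ht
    obtain ⟨a, ha, rfl⟩ := mem_image.mp ht
    have h1 : (a : ℝ) + 1 ≤ e := by exact_mod_cast mem_range.mp ha
    have h2 := x3 a (mem_range.mp ha)
    have h3 : (0 : ℝ) < a + ξ := by linarith [Nat.cast_nonneg (α := ℝ) a]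
    simp only [mem_insert, mem_singleton, not_or] at h2
    exact ⟨by positivity, by linarith [div_le_self h3.le hm'], h2.2, h2.1⟩
  have hF := join (c := H) (fun t ht => ⟨(hR t ht).1, (hR t ht).2.1, (hR t ht).2.2.1⟩)
    (by linarith) (by linarith [Nat.cast_nonneg (α := ℝ) e])
    (hc _ fun t ht => ⟨(hR t (mem_filter.mp ht).1).1, (mem_filter.mp ht).2,
      (hR t (mem_filter.mp ht).1).2.2.2⟩)
    ((fill_zero _ H (H + 1 + e)).addA (fun t ht => ⟨(mem_filter.mp ht).2,
      (hR t (mem_filter.mp ht).1).2.1⟩) (by linarith [Nat.cast_nonneg (α := ℝ) e]) (s * s))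
  have hs1 : 1 ≤ s := by exact_mod_cast (by linarith : (1 : ℝ) ≤ s)
  have h3 : e ≤ e * s := Nat.le_mul_of_pos_right _ hs1
  have hG := good_of_fill (a := ell s e e) hm hF fun t ht => by
    have h1 : (ell s e e t : ℝ) ≤ max 0 ((s : ℝ) * (e - t * s)) := by
      have h2 : (ell s e e t : ℝ) ≤ s * (e - t * s : ℕ) := by exact_mod_cast ell_le s e t
      rcases le_total e (t * s) with h | h
      · rw [Nat.sub_eq_zero_of_le h] at h2
        exact le_max_of_le_left (by simpa using h2)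
      · rw [Nat.cast_sub h, Nat.cast_mul] at h2
        exact le_max_of_le_right h2
    have h2 : (t : ℝ) = m * ((t + ξ) / m) - ξ := by field_simp; ring
    have h4 := (hR _ (mem_image_of_mem _ (mem_range.mpr ht))).1
    generalize ((t : ℝ) + ξ) / m = τ at *
    have h5 := mul_le_mul_of_nonneg_right x2.le (by linarith : (0 : ℝ) ≤ s * s)
    have h6 : (0 : ℝ) ≤ e := Nat.cast_nonneg _
    refine h1.trans ?_
    push_cast
    split_ifs with h
    · rw [min_eq_left (by linarith), h2]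
      refine max_le (mul_nonneg (by linarith) ?_) (by linarith)
      linarith [mul_nonneg (by linarith : (0 : ℝ) ≤ s * s) (by linarith : 0 ≤ H - τ)]
    · rw [min_eq_left (by linarith : 1 ≤ τ - 0), h2]
      have h7 := mul_le_mul_of_nonneg_left (min_le_left 1 (τ - H)) (by linarith : (0 : ℝ) ≤ s * s)
      have h8 := mul_le_mul_of_nonneg_left (min_le_right 1 (τ - H))
        (by positivity : (0 : ℝ) ≤ m * (s * s))
      refine max_le (mul_nonneg (by linarith) (by linarith)) ?_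
      linarith [mul_nonneg (by linarith : (0 : ℝ) ≤ m) herr0]
  rw [show tr e (ell s e e) = ell s e e from funext fun b => by
    unfold tr
    split_ifs with h
    · rfl
    · exact (ell_zero h3 (not_lt.mp h)).symm] at hG
  exact bd_sh (X ^ s) (grade _ _ (row_mem hs1) (hG.rows _ (fun _ => inferInstance)
    (fun b => (finrank_supp _).trans (card_Tc _ _ _)) e fun b hb => ell_zero h3 hb))

theorem bd_sqrt {n m e : ℕ} (hn : 10 ^ 80 ≤ n) (hm : 0 < m)
    (he : e + √n ≤ m * (√n - Real.exp (-(n / 10 ^ 40)))) :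
    Bd (fun _ : Fin n => m) (Dsp e e) univ 0 := by
  have hn' : (1e80 : ℝ) ≤ n := by
    have : ((10 : ℝ) ^ 80) ≤ n := by exact_mod_cast hn
    linarith [show (1e80 : ℝ) = 10 ^ 80 by norm_num]
  have hr : √(n : ℝ) ^ 2 = n := Real.sq_sqrt n.cast_nonneg
  have hr1 : (1e40 : ℝ) ≤ √n := Real.le_sqrt_of_sq_le (by linarith)
  generalize √(n : ℝ) = r at *
  have s1 := Nat.floor_le (by positivity : 0 ≤ r / (2 + 1e-6))
  have s2 := Nat.lt_floor_add_one (r / (2 + 1e-6))
  generalize ⌊r / (2 + 1e-6)⌋₊ = s at s1 s2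
  rw [le_div_iff₀ (by norm_num)] at s1
  rw [div_lt_iff₀ (by norm_num)] at s2
  have hs : (1e39 : ℝ) ≤ s := by linarith
  have h1 : s * s ≤ n := by
    have : (s * s : ℝ) ≤ n := by nlinarith
    exact_mod_cast this
  have h2 : (n : ℝ) ≤ 5 * (s * s) := by nlinarith
  have h3 : 4 * s / 2 ^ ⌊(s * s : ℝ) / 1e38⌋₊ ≤ Real.exp (-(n / 10 ^ 40)) := by
    have h4 := two_pow_ge (x := s * s / 1e38) (by linarith)
    have h5 : Real.exp (n / 10 ^ 40) * Real.exp (s * s / 2e39) ≤ Real.exp (s * s / 1e38 / 10) := by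
      rw [← Real.exp_add]
      exact Real.exp_le_exp.mpr (by linarith)
    have h6 := Real.add_one_le_exp (s * s / 2e39)
    have h7 := mul_le_mul_of_nonneg_left (by nlinarith : (s : ℝ) / 2000 ≤ Real.exp (s * s / 2e39))
      (Real.exp_pos (n / 10 ^ 40)).le
    rw [Real.exp_neg, div_le_iff₀ (by positivity), ← div_eq_inv_mul, le_div_iff₀ (Real.exp_pos _)]
    linarith
  obtain ⟨n', rfl⟩ := Nat.exists_eq_add_of_le' h1
  exact bd_hom hr (by linarith) (by linarith) (by linarith) hm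
    (by linarith [mul_le_mul_of_nonneg_left h3 (Nat.cast_nonneg (α := ℝ) m)])

theorem vanish {n d : ℕ} (m : Fin n → ℕ) (hn : 10 ^ 80 ≤ n)
    (h : (n : ℝ) * d < (√n - Real.exp (-(n / 10 ^ 40))) * ∑ i, (m i : ℝ)) :
    ∃ F : MvPolynomial (Fin n × Fin 2) ℂ, F ≠ 0 ∧ ∀ p : Fin n → Fin 2 → ℂ,
      MvPolynomial.eval (fun ij : Fin n × Fin 2 => p ij.1 ij.2) F ≠ 0 → Sys d m p = ⊥ := by
  have : NeZero n := ⟨by omega⟩
  let e := (Bivariate.equivMvPolynomial ℂ).symm
  obtain ⟨k, hk⟩ := exists_nat_ge ((1 + √n) /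
    ((√n - Real.exp (-(n / 10 ^ 40))) * ∑ i, (m i : ℝ) - n * d))
  rw [div_le_iff₀ (by linarith)] at hk
  have hk' : ((k * (n * d) + 1 : ℕ) : ℝ) + √n ≤
      ((∑ i, m i) * k : ℕ) * (√n - Real.exp (-(n / 10 ^ 40))) := by
    push_cast
    linarith
  obtain ⟨p, Ψ, hp⟩ := bd_sqrt hn (Nat.pos_of_ne_zero fun h0 => by
    rw [h0, Nat.cast_zero, zero_mul] at hk'
    exact absurd hk' (not_le.mpr (by positivity))) hk'
  have hB : Bd m ((MvPolynomial.restrictTotalDegree (Fin 2) ℂ d).map e.toLinearMap) univ 0 := by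
    by_contra hc
    have h1 : ∀ j : Fin n, ∃ f : MvPolynomial (Fin 2) ℂ, f.totalDegree ≤ d ∧
        (∀ i, Van (m i) (p (i + j)) (e f)) ∧ f ≠ 0 := by
      intro j
      by_contra h2
      refine hc ⟨fun i => p (i + j), 0, ?_⟩
      rintro _ ⟨f, hf, rfl⟩ hV -
      by_contra h3
      exact h2 ⟨f, (MvPolynomial.mem_restrictTotalDegree _ _ _).mp hf, fun i => hV i (mem_univ i),
        fun h4 => h3 (by rw [h4, map_zero])⟩
    choose f f1 f2 f3 using h1
    have h2 := hp (e ((∏ j, f j) ^ k)) (symm_mem_Dsp (d := k * (n * d)) ?_) (fun l _ => ?_)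
      (Subsingleton.elim _ _)
    · exact pow_ne_zero k (prod_ne_zero_iff.mpr fun j _ => f3 j)
        ((map_eq_zero_iff e e.injective).mp h2)
    · rw [MvPolynomial.mem_restrictTotalDegree]
      refine (MvPolynomial.totalDegree_pow _ _).trans (Nat.mul_le_mul_left _ ?_)
      refine (MvPolynomial.totalDegree_finsetProd _ _).trans ?_
      exact (sum_le_sum fun j _ => f1 j).trans (by simp)
    · have h3 : (∏ j, mx (p l) ^ m (l - j)) ^ k = mx (p l) ^ ((∑ i, m i) * k) := by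
        rw [← Equiv.sum_comp (Equiv.subLeft l)]
        exact (congrArg (· ^ k) (prod_pow_eq_pow_sum _ _ _)).trans (pow_mul _ _ _).symm
      rw [Van, map_pow, map_prod, ← h3]
      refine Ideal.pow_mem_pow (Ideal.prod_mem_prod fun j _ => ?_) _
      simpa [Van] using f2 j (l - j)
  obtain ⟨Δ, hΔ, Φ, h1⟩ := hB.generic
  refine ⟨Δ, hΔ, fun q hq => eq_bot_iff.mpr fun f hf => ?_⟩
  refine (map_eq_zero_iff e e.injective).mp
    (h1 _ hq (e f) ⟨f, hf.1, rfl⟩ (fun i _ => ?_) (Subsingleton.elim _ _))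
  have h4 := hf.2
  simp only [Submodule.coe_iInf, Set.mem_iInter, SetLike.mem_coe] at h4
  refine pow_map (e : MvPolynomial (Fin 2) ℂ →+* R) (fun x hx => ?_) (h4 i)
  have h5 : (ev (q i 0, q i 1)).comp e.toAlgHom = MvPolynomial.aeval (q i) := by
    refine MvPolynomial.algHom_ext fun j => ?_
    fin_cases j <;> simp [e]
  rw [mem_mx]
  exact (DFunLike.congr_fun h5 x).trans hx

end Pool.Agent.Lib.MP_6e81d8_ag.H16
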